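import Pool.Agent.Lib.MP_488b8a_co_U.Defs

/-! Project CAPU (MP_488b8a_co), module Ann. -/

namespace Pool.Agent.CAPU

open Complex MeasureTheory

private lemma Ann_radial {a b : ℝ} (ha : 0 < a) (hab : a ≤ b) :
    ∫ Z : ℂ, Set.indicator {Z : ℂ | a ≤ ‖Z‖ ∧ ‖Z‖ < b} (fun Z : ℂ => 1 / ‖Z‖ ^ 2) Z =
      2 * Real.pi * Real.log (b / a) := by
  rw [← Complex.integral_comp_polarCoord_symm]
  have hset : polarCoord.target = Set.Ioi (0 : ℝ) ×ˢ Set.Ioo (-Real.pi) Real.pi := rfl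
  have h1 : ∫ p in polarCoord.target, p.1 •
      Set.indicator {Z : ℂ | a ≤ ‖Z‖ ∧ ‖Z‖ < b} (fun Z : ℂ => 1 / ‖Z‖ ^ 2)
        (Complex.polarCoord.symm p) =
      ∫ p in Set.Ioi (0 : ℝ) ×ˢ Set.Ioo (-Real.pi) Real.pi,
        (Set.indicator (Set.Ico a b) (fun r : ℝ => r⁻¹) p.1) * (fun _ : ℝ => (1 : ℝ)) p.2 := by
    rw [hset]
    refine setIntegral_congr_fun (measurableSet_Ioi.prod measurableSet_Ioo) ?_
    intro p hp
    have hp1 : 0 < p.1 := hp.1
    have hn : ‖Complex.polarCoord.symm p‖ = p.1 := by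
      rw [Complex.norm_polarCoord_symm, abs_of_pos hp1]
    by_cases h : a ≤ p.1 ∧ p.1 < b
    · have m1 : Complex.polarCoord.symm p ∈ {Z : ℂ | a ≤ ‖Z‖ ∧ ‖Z‖ < b} := by
        show a ≤ ‖Complex.polarCoord.symm p‖ ∧ ‖Complex.polarCoord.symm p‖ < b
        rw [hn]; exact h
      have m2 : p.1 ∈ Set.Ico a b := h
      simp only [Set.indicator_of_mem m1, Set.indicator_of_mem m2, hn, smul_eq_mul, mul_one]
      field_simp
    · have m1 : Complex.polarCoord.symm p ∉ {Z : ℂ | a ≤ ‖Z‖ ∧ ‖Z‖ < b} := by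
        show ¬ (a ≤ ‖Complex.polarCoord.symm p‖ ∧ ‖Complex.polarCoord.symm p‖ < b)
        rw [hn]; exact h
      have m2 : p.1 ∉ Set.Ico a b := h
      simp only [Set.indicator_of_notMem m1, Set.indicator_of_notMem m2, smul_eq_mul, mul_zero,
        zero_mul]
  rw [h1]
  rw [Measure.volume_eq_prod, setIntegral_prod_mul (Set.indicator (Set.Ico a b) (fun r : ℝ => r⁻¹))
    (fun _ : ℝ => (1 : ℝ))]
  have h2 : ∫ x in Set.Ioi (0 : ℝ), Set.indicator (Set.Ico a b) (fun r : ℝ => r⁻¹) x =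
      Real.log (b / a) := by
    rw [setIntegral_indicator measurableSet_Ico]
    have : Set.Ioi (0 : ℝ) ∩ Set.Ico a b = Set.Ico a b := by
      ext x
      simp only [Set.mem_inter_iff, Set.mem_Ioi, Set.mem_Ico]
      constructor
      · rintro ⟨_, h⟩; exact h
      · intro h; exact ⟨lt_of_lt_of_le ha h.1, h⟩
    rw [this, integral_Ico_eq_integral_Ioo, ← integral_Ioc_eq_integral_Ioo,
      ← intervalIntegral.integral_of_le hab, integral_inv_of_pos ha (lt_of_lt_of_le ha hab)]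
  have h3 : ∫ y in Set.Ioo (-Real.pi) Real.pi, (fun _ : ℝ => (1 : ℝ)) y = 2 * Real.pi := by
    simp only [integral_const, smul_eq_mul, mul_one]
    rw [Measure.real, Measure.restrict_apply_univ, Real.volume_Ioo,
      ENNReal.toReal_ofReal (by linarith [Real.pi_pos])]
    ring
  rw [h2, h3]
  ring

theorem int_ann (c : ℂ) {a b : ℝ} (ha : 0 < a) (hab : a ≤ b) :
    IntegrableOn (fun Z : ℂ => 1 / ‖Z - c‖ ^ 2) {Z | a ≤ ‖Z - c‖ ∧ ‖Z - c‖ < b} ∧
    ∫ Z in {Z : ℂ | a ≤ ‖Z - c‖ ∧ ‖Z - c‖ < b}, 1 / ‖Z - c‖ ^ 2 ≤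
      2 * Real.pi * Real.log (b / a) := by
  have hms : MeasurableSet {Z : ℂ | a ≤ ‖Z - c‖ ∧ ‖Z - c‖ < b} := by
    have h1 : MeasurableSet {Z : ℂ | a ≤ ‖Z - c‖} :=
      (isClosed_le continuous_const (continuous_id.sub continuous_const).norm).measurableSet
    have h2 : MeasurableSet {Z : ℂ | ‖Z - c‖ < b} :=
      (isOpen_lt (continuous_id.sub continuous_const).norm continuous_const).measurableSet
    exact h1.inter h2
  constructor
  · have hfin : volume {Z : ℂ | a ≤ ‖Z - c‖ ∧ ‖Z - c‖ < b} < ⊤ := by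
      refine lt_of_le_of_lt (measure_mono (t := Metric.ball c b) ?_) measure_ball_lt_top
      intro Z hZ
      rw [Metric.mem_ball, dist_eq_norm]
      exact hZ.2
    refine Measure.integrableOn_of_bounded (M := 1 / a ^ 2) hfin.ne ?_ ?_
    · exact ((measurable_const.div (((measurable_id.sub measurable_const).norm).pow_const 2))).aestronglyMeasurable
    · refine (ae_restrict_mem hms).mono ?_
      intro Z hZ
      have h0 : 0 < ‖Z - c‖ := lt_of_lt_of_le ha hZ.1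
      rw [Real.norm_eq_abs, abs_of_nonneg (by positivity)]
      apply one_div_le_one_div_of_le (by positivity)
      exact pow_le_pow_left₀ ha.le hZ.1 2
  · rw [← integral_indicator hms]
    have h4 : (fun Z : ℂ => Set.indicator {Z : ℂ | a ≤ ‖Z - c‖ ∧ ‖Z - c‖ < b}
        (fun Z : ℂ => 1 / ‖Z - c‖ ^ 2) Z) =
        fun Z : ℂ => (fun W : ℂ => Set.indicator {Z : ℂ | a ≤ ‖Z‖ ∧ ‖Z‖ < b}
          (fun Z : ℂ => 1 / ‖Z‖ ^ 2) W) (Z - c) := by
      funext Z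
      rfl
    have h5 : ∫ Z : ℂ, Set.indicator {Z : ℂ | a ≤ ‖Z - c‖ ∧ ‖Z - c‖ < b}
        (fun Z : ℂ => 1 / ‖Z - c‖ ^ 2) Z =
        ∫ Z : ℂ, Set.indicator {Z : ℂ | a ≤ ‖Z‖ ∧ ‖Z‖ < b} (fun Z : ℂ => 1 / ‖Z‖ ^ 2) Z := by
      rw [h4]
      exact integral_sub_right_eq_self (μ := (volume : Measure ℂ))
        (fun W : ℂ => Set.indicator {Z : ℂ | a ≤ ‖Z‖ ∧ ‖Z‖ < b}
          (fun Z : ℂ => 1 / ‖Z‖ ^ 2) W) c
    rw [h5, Ann_radial ha hab]

end Pool.Agent.CAPU
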