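import Pool.Agent.Lib.MP_488b8a_co_U.Lat

/-! Project CAPU (MP_488b8a_co), module AvgC. -/

namespace Pool.Agent.CAPU

open Complex MeasureTheory

/-- the two generators of the lattice -/
private noncomputable def avgC_vec : Fin 2 → ℂ :=
  ![⟨Real.sqrt 3, 0⟩, ⟨Real.sqrt 3 / 2, 3 / 2⟩]

private lemma avgC_sqrt_pos : 0 < Real.sqrt 3 := Real.sqrt_pos.mpr (by norm_num)

private lemma avgC_li : LinearIndependent ℝ avgC_vec := by
  unfold avgC_vec
  rw [LinearIndependent.pair_iff']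
  · intro a ha
    have h1 := congrArg Complex.im ha
    norm_num at h1
  · intro h
    have h1 := congrArg Complex.re h
    simp at h1

private noncomputable def avgC_b : Module.Basis (Fin 2) ℝ ℂ :=
  basisOfLinearIndependentOfCardEqFinrank avgC_li (by simp)

private lemma avgC_b_coe : ⇑avgC_b = avgC_vec :=
  coe_basisOfLinearIndependentOfCardEqFinrank _ _

private lemma avgC_mem (z : ℂ) : z ∈ Submodule.span ℤ (Set.range avgC_b) ↔ z ∈ Lam := by
  rw [avgC_b_coe]
  unfold avgC_vec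
  rw [Matrix.range_cons, Matrix.range_cons, Matrix.range_empty, Set.union_empty,
    ← Set.insert_eq, Submodule.mem_span_pair]
  constructor
  · rintro ⟨a, b, rfl⟩
    refine ⟨a, b, ?_⟩
    apply Complex.ext
    · simp
      ring
    · simp
      ring
  · rintro ⟨a, b, rfl⟩
    refine ⟨a, b, ?_⟩
    apply Complex.ext
    · simp
      ring
    · simp
      ring

private lemma avgC_vol : volume (ZSpan.fundamentalDomain avgC_b) =
    ENNReal.ofReal (3 * Real.sqrt 3 / 2) := by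
  rw [ZSpan.measure_fundamentalDomain avgC_b volume Complex.orthonormalBasisOneI.toBasis,
    measure_congr (ZSpan.fundamentalDomain_ae_parallelepiped _ volume),
    OrthonormalBasis.coe_toBasis, OrthonormalBasis.volume_parallelepiped, mul_one]
  congr 1
  rw [Module.Basis.det_apply, Matrix.det_fin_two, Complex.toBasis_orthonormalBasisOneI]
  simp only [Module.Basis.toMatrix_apply, Complex.coe_basisOneI_repr, avgC_b_coe, avgC_vec]
  simp
  have h := avgC_sqrt_pos
  rw [abs_of_pos h]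
  ring

private lemma avgC_key {A : Set ℂ} {V : ℂ → ℂ} {V' : ℂ → (ℂ →L[ℝ] ℂ)} (hA : MeasurableSet A)
    (hd : ∀ Z ∈ A, HasFDerivWithinAt V (V' Z) A Z) (hi : Set.InjOn V A) :
    ∫⁻ v in ZSpan.fundamentalDomain avgC_b,
      ∑' g : (Submodule.span ℤ (Set.range avgC_b)),
        (V '' A).indicator (fun _ => (1 : ENNReal)) ((g : ℂ) + v) =
      ∫⁻ Z in A, ENNReal.ofReal |(V' Z).det| := by
  have hE : MeasurableSet (V '' A) := measurable_image_of_fderivWithin hA hd hi
  rw [lintegral_abs_det_fderiv_eq_addHaar_image volume hA hd hi]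
  rw [lintegral_tsum]
  · have : VAddInvariantMeasure (Submodule.span ℤ (Set.range avgC_b)) ℂ volume :=
      inferInstanceAs (VAddInvariantMeasure
        (Submodule.span ℤ (Set.range avgC_b)).toAddSubgroup ℂ volume)
    have h1 := (ZSpan.isAddFundamentalDomain avgC_b (volume : Measure ℂ)).lintegral_eq_tsum''
      ((V '' A).indicator (fun _ => (1 : ENNReal)))
    rw [lintegral_indicator_const hE, one_mul] at h1
    rw [h1]
    rfl
  · intro g
    have h2 : Measurable ((V '' A).indicator (fun _ => (1 : ENNReal))) :=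
      measurable_const.indicator hE
    exact (h2.comp (measurable_const_add (g : ℂ))).aemeasurable

private lemma avgC_meas {A : Set ℂ} {V : ℂ → ℂ} {V' : ℂ → (ℂ →L[ℝ] ℂ)} (hA : MeasurableSet A)
    (hd : ∀ Z ∈ A, HasFDerivWithinAt V (V' Z) A Z) (hi : Set.InjOn V A) :
    Measurable fun v : ℂ => ∑' g : (Submodule.span ℤ (Set.range avgC_b)),
        (V '' A).indicator (fun _ => (1 : ENNReal)) ((g : ℂ) + v) := by
  have hE : MeasurableSet (V '' A) := measurable_image_of_fderivWithin hA hd hi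
  refine Measurable.tsum (fun g => ?_)
  have h2 : Measurable ((V '' A).indicator (fun _ => (1 : ENNReal))) :=
    measurable_const.indicator hE
  exact h2.comp (measurable_const_add (g : ℂ))

private lemma avgC_le {A : Set ℂ} {V : ℂ → ℂ} (hi : Set.InjOn V A) (v : ℂ) :
    (({Z ∈ A | V Z - v ∈ Lam}.encard : ℕ∞) : ENNReal) ≤
      ∑' g : (Submodule.span ℤ (Set.range avgC_b)),
        (V '' A).indicator (fun _ => (1 : ENNReal)) ((g : ℂ) + v) := by
  have h1 : ∑' g : (Submodule.span ℤ (Set.range avgC_b)),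
        (V '' A).indicator (fun _ => (1 : ENNReal)) ((g : ℂ) + v) =
      (({g : (Submodule.span ℤ (Set.range avgC_b)) | (g : ℂ) + v ∈ V '' A}.encard : ℕ∞) :
        ENNReal) := by
    rw [← ENNReal.tsum_set_one, tsum_subtype
      {g : (Submodule.span ℤ (Set.range avgC_b)) | (g : ℂ) + v ∈ V '' A}
      (fun _ => (1 : ENNReal))]
    refine tsum_congr (fun g => ?_)
    by_cases h : (g : ℂ) + v ∈ V '' A
    · rw [Set.indicator_of_mem h, Set.indicator_of_mem (by exact h)]
    · rw [Set.indicator_of_notMem h, Set.indicator_of_notMem (by exact h)]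
  rw [h1]
  norm_cast
  classical
  let f : ℂ → (Submodule.span ℤ (Set.range avgC_b)) := fun Z =>
    if h : V Z - v ∈ Submodule.span ℤ (Set.range avgC_b) then ⟨V Z - v, h⟩ else 0
  have hf : ∀ Z ∈ {Z ∈ A | V Z - v ∈ Lam}, (f Z : ℂ) = V Z - v := by
    intro Z hZ
    have h : V Z - v ∈ Submodule.span ℤ (Set.range avgC_b) := (avgC_mem _).mpr hZ.2
    simp only [f]
    rw [dif_pos h]
  refine Set.encard_le_encard_of_injOn (f := f) ?_ ?_
  · intro Z hZ
    change (f Z : ℂ) + v ∈ V '' A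
    rw [hf Z hZ, sub_add_cancel]
    exact Set.mem_image_of_mem V hZ.1
  · intro Z hZ Z' hZ' h
    have h2 : (f Z : ℂ) = (f Z' : ℂ) := by rw [h]
    rw [hf Z hZ, hf Z' hZ'] at h2
    exact hi hZ.1 hZ'.1 (sub_left_injective h2)

theorem avg_count {ι : Type*} (T : Finset ι) (A : ι → Set ℂ) (V : ι → ℂ → ℂ)
    (V' : ι → ℂ → (ℂ →L[ℝ] ℂ)) (hA : ∀ i ∈ T, MeasurableSet (A i))
    (hd : ∀ i ∈ T, ∀ Z ∈ A i, HasFDerivWithinAt (V i) (V' i Z) (A i) Z)
    (hi : ∀ i ∈ T, Set.InjOn (V i) (A i)) (B : ι → ℝ) (hB0 : ∀ i ∈ T, 0 ≤ B i)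
    (hB : ∀ i ∈ T, ∫⁻ Z in A i, ENNReal.ofReal |(V' i Z).det| ≤ ENNReal.ofReal (B i)) :
    ∃ v : ℂ, (∀ i ∈ T, {Z ∈ A i | V i Z - v ∈ Lam}.Finite) ∧
      ∑ i ∈ T, (({Z ∈ A i | V i Z - v ∈ Lam}.ncard : ℕ) : ℝ) ≤
        2 / (3 * Real.sqrt 3) * ∑ i ∈ T, B i := by
  have hs := avgC_sqrt_pos
  have hvol0 : volume (ZSpan.fundamentalDomain avgC_b) ≠ 0 := by
    rw [avgC_vol]
    exact (ENNReal.ofReal_pos.mpr (by positivity)).ne'
  have hvolt : volume (ZSpan.fundamentalDomain avgC_b) ≠ ⊤ := by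
    rw [avgC_vol]
    exact ENNReal.ofReal_ne_top
  set N : ι → ℂ → ENNReal := fun i v => ∑' g : (Submodule.span ℤ (Set.range avgC_b)),
        (V i '' A i).indicator (fun _ => (1 : ENNReal)) ((g : ℂ) + v) with hN
  have hmeas : ∀ i ∈ T, Measurable (N i) := fun i h => avgC_meas (hA i h) (hd i h) (hi i h)
  have hint : ∫⁻ v in ZSpan.fundamentalDomain avgC_b, ∑ i ∈ T, N i v ≤
      ENNReal.ofReal (∑ i ∈ T, B i) := by
    rw [lintegral_finsetSum' T (fun i h => (hmeas i h).aemeasurable),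
      ENNReal.ofReal_sum_of_nonneg hB0]
    refine Finset.sum_le_sum (fun i h => ?_)
    rw [hN, avgC_key (hA i h) (hd i h) (hi i h)]
    exact hB i h
  obtain ⟨v, -, hv⟩ := exists_le_setLAverage (f := fun v => ∑ i ∈ T, N i v) hvol0 hvolt
    (Finset.measurable_sum T hmeas).aemeasurable
  rw [setLAverage_eq] at hv
  have hv2 : ∑ i ∈ T, N i v ≤ ENNReal.ofReal (2 / (3 * Real.sqrt 3) * ∑ i ∈ T, B i) := by
    refine hv.trans ((ENNReal.div_le_div_right hint _).trans ?_)
    rw [avgC_vol, ← ENNReal.ofReal_div_of_pos (by positivity)]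
    apply ENNReal.ofReal_le_ofReal
    apply le_of_eq
    field_simp
  have hle : ∀ i ∈ T, (({Z ∈ A i | V i Z - v ∈ Lam}.encard : ℕ∞) : ENNReal) ≤ N i v :=
    fun i h => avgC_le (hi i h) v
  have hfin : ∀ i ∈ T, {Z ∈ A i | V i Z - v ∈ Lam}.Finite := by
    intro i h
    have h1 : N i v ≤ ENNReal.ofReal (2 / (3 * Real.sqrt 3) * ∑ i ∈ T, B i) :=
      (Finset.single_le_sum (f := fun i => N i v) (fun _ _ => zero_le) h).trans hv2
    have h2 : (({Z ∈ A i | V i Z - v ∈ Lam}.encard : ℕ∞) : ENNReal) < ⊤ :=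
      ((hle i h).trans h1).trans_lt ENNReal.ofReal_lt_top
    rw [← Set.encard_lt_top_iff]
    exact_mod_cast h2
  refine ⟨v, hfin, ?_⟩
  have h3 : ENNReal.ofReal (∑ i ∈ T, (({Z ∈ A i | V i Z - v ∈ Lam}.ncard : ℕ) : ℝ)) ≤
      ENNReal.ofReal (2 / (3 * Real.sqrt 3) * ∑ i ∈ T, B i) := by
    rw [ENNReal.ofReal_sum_of_nonneg (fun _ _ => Nat.cast_nonneg _)]
    refine (Finset.sum_le_sum (fun i h => ?_)).trans hv2
    rw [ENNReal.ofReal_natCast]
    refine le_trans (le_of_eq ?_) (hle i h)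
    rw [← (hfin i h).cast_ncard_eq]
    rfl
  exact (ENNReal.ofReal_le_ofReal_iff
    (mul_nonneg (by positivity) (Finset.sum_nonneg hB0))).mp h3

end Pool.Agent.CAPU
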