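import Pool.Agent.Lib.MP_488b8a_co_U.LinF

/-! Project CAPU (MP_488b8a_co), module BDer. -/

namespace Pool.Agent.CAPU

open Complex MeasureTheory

private lemma BDer_atan (y : ℝ) :
    HasDerivAt (fun t : ℝ => Real.arctan (Real.sinh t)) (1 / Real.cosh y) y := by
  have h1 := (Real.hasDerivAt_sinh y).arctan
  have hc : Real.cosh y ≠ 0 := (Real.cosh_pos y).ne'
  have e : 1 / (1 + Real.sinh y ^ 2) * Real.cosh y = 1 / Real.cosh y := by
    have : 1 + Real.sinh y ^ 2 = Real.cosh y ^ 2 := by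
      have := Real.cosh_sq y
      linarith
    rw [this]
    field_simp
  rw [← e]
  exact h1

private lemma BDer_lin (A b : ℝ) : (ofRealCLM.comp (b • reCLM) +
      I • ofRealCLM.comp ((2 * A - b) • imCLM)) = lin (A : ℂ) ((b - A : ℝ) : ℂ) := by
  refine ContinuousLinearMap.ext fun v => ?_
  rw [lin_apply]
  apply Complex.ext
  · simp
    ring
  · simp
    ring

theorem B_der {D : Dat} (h : Zone D) (Z : ℂ) : HasFDerivAt (B D)
    (lin ((cc D Z.im * (1 + mu D) : ℝ) : ℂ) ((b1 D - cc D Z.im * (1 + mu D) : ℝ) : ℂ)) Z := by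
  have hre : HasFDerivAt (fun W : ℂ => b1 D * W.re) (b1 D • reCLM) Z :=
    (reCLM.hasFDerivAt (x := Z)).const_mul (b1 D)
  have him : HasFDerivAt (fun W : ℂ => W.im) imCLM Z := imCLM.hasFDerivAt
  have hk : 2 * (1 + mu D) / D.ρ * (1 / Real.cosh Z.im) = 2 * (cc D Z.im * (1 + mu D)) := by
    unfold cc
    rw [div_mul_div_comm, mul_one, one_div]
    ring
  have hg : HasDerivAt (fun t : ℝ => 2 * (1 + mu D) / D.ρ * Real.arctan (Real.sinh t) - b1 D * t)
      (2 * (cc D Z.im * (1 + mu D)) - b1 D) Z.im := by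
    rw [← hk]
    have h1 := (BDer_atan Z.im).const_mul (2 * (1 + mu D) / D.ρ)
    have h2 : HasDerivAt (fun t : ℝ => b1 D * t) (b1 D) Z.im := by
      simpa using (hasDerivAt_id Z.im).const_mul (b1 D)
    exact h1.sub h2
  have hi := hg.comp_hasFDerivAt Z him
  have hA := ofRealCLM.hasFDerivAt.comp Z hre
  have hB := (ofRealCLM.hasFDerivAt.comp Z hi).const_mul I
  have hC := hA.add hB
  rw [← BDer_lin]
  exact hC

end Pool.Agent.CAPU
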