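import Pool.Agent.Lib.MP_488b8a_co_U.Defs

/-! Project CAPU (MP_488b8a_co), module Lat. -/

namespace Pool.Agent.CAPU

open Complex MeasureTheory

theorem Lam_zero : (0 : ℂ) ∈ Lam := by
  refine ⟨0, 0, ?_⟩
  apply Complex.ext
  · simp
  · simp

theorem Lam_add {a b : ℂ} (ha : a ∈ Lam) (hb : b ∈ Lam) : a + b ∈ Lam := by
  obtain ⟨j, k, rfl⟩ := ha
  obtain ⟨j', k', rfl⟩ := hb
  refine ⟨j + j', k + k', ?_⟩
  apply Complex.ext
  · simp only [Complex.add_re]
    push_cast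
    ring
  · simp only [Complex.add_im]
    push_cast
    ring

theorem Lam_neg {a : ℂ} (ha : a ∈ Lam) : -a ∈ Lam := by
  obtain ⟨j, k, rfl⟩ := ha
  refine ⟨-j, -k, ?_⟩
  apply Complex.ext
  · simp only [Complex.neg_re]
    push_cast
    ring
  · simp only [Complex.neg_im]
    push_cast
    ring

theorem Lam_sub {a b : ℂ} (ha : a ∈ Lam) (hb : b ∈ Lam) : a - b ∈ Lam := by
  rw [sub_eq_add_neg]
  exact Lam_add ha (Lam_neg hb)

theorem Lam_int (n : ℤ) : ((Real.sqrt 3 * n : ℝ) : ℂ) ∈ Lam := by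
  refine ⟨n, 0, ?_⟩
  apply Complex.ext
  · rw [Complex.ofReal_re]
    push_cast
    ring
  · rw [Complex.ofReal_im]
    push_cast
    ring

end Pool.Agent.CAPU
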