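import Pool.Agent.Lib.MP_488b8a_co_U.Defs

/-! Project CAPU (MP_488b8a_co), module LinF. -/

namespace Pool.Agent.CAPU

open Complex MeasureTheory

theorem lin_apply (a b v : ℂ) : lin a b v = a * v + b * (starRingEnd ℂ) v := by
  rfl

theorem lin_add (a b a' b' : ℂ) : lin a b + lin a' b' = lin (a + a') (b + b') := by
  refine ContinuousLinearMap.ext fun v => ?_
  change lin a b v + lin a' b' v = lin (a + a') (b + b') v
  rw [lin_apply, lin_apply, lin_apply]
  ring

theorem lin_det (a b : ℂ) : (lin a b).det = ‖a‖ ^ 2 - ‖b‖ ^ 2 := by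
  change LinearMap.det ((lin a b : ℂ →L[ℝ] ℂ) : ℂ →ₗ[ℝ] ℂ) = ‖a‖ ^ 2 - ‖b‖ ^ 2
  rw [← LinearMap.det_toMatrix Complex.basisOneI, Matrix.det_fin_two]
  simp only [LinearMap.toMatrix_apply, Complex.coe_basisOneI, Complex.coe_basisOneI_repr,
    Matrix.cons_val_zero, Matrix.cons_val_one, ContinuousLinearMap.coe_coe, lin_apply]
  rw [Complex.sq_norm, Complex.sq_norm, Complex.normSq_apply, Complex.normSq_apply]
  simp
  ring

theorem lin_norm_le (a b : ℂ) : ‖lin a b‖ ≤ ‖a‖ + ‖b‖ := by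
  refine ContinuousLinearMap.opNorm_le_bound _ (by positivity) fun v => ?_
  rw [lin_apply]
  refine (norm_add_le _ _).trans ?_
  rw [norm_mul, norm_mul, Complex.norm_conj]
  exact le_of_eq (by ring)

private theorem lin_sub_apply (a b a' b' : ℂ) :
    lin a b - lin a' b' = lin (a - a') (b - b') := by
  refine ContinuousLinearMap.ext fun v => ?_
  change lin a b v - lin a' b' v = lin (a - a') (b - b') v
  rw [lin_apply, lin_apply, lin_apply]
  ring

/-- mean value inequality on a ball around `p` -/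
theorem lin_mvt {V A B : ℂ → ℂ} {p : ℂ} {R L : ℝ} (hL : 0 ≤ L)
    (hd : ∀ Z ∈ Metric.closedBall p R, HasFDerivAt V (lin (A Z) (B Z)) Z)
    (hl : ∀ Z ∈ Metric.closedBall p R, ‖A Z - A p‖ + ‖B Z - B p‖ ≤ L * ‖Z - p‖) {t : ℝ}
    (ht : t ≤ R) {Z Z' : ℂ} (hZ : ‖Z - p‖ ≤ t) (hZ' : ‖Z' - p‖ ≤ t) :
    ‖V Z - V Z' - (A p * (Z - Z') + B p * (starRingEnd ℂ) (Z - Z'))‖ ≤ L * t * ‖Z - Z'‖ := by
  have hsub : Metric.closedBall p t ⊆ Metric.closedBall p R := Metric.closedBall_subset_closedBall ht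
  have hder : ∀ W ∈ Metric.closedBall p t,
      HasFDerivWithinAt (fun W => V W - lin (A p) (B p) W) (lin (A W) (B W) - lin (A p) (B p))
        (Metric.closedBall p t) W := by
    intro W hW
    exact ((hd W (hsub hW)).sub (lin (A p) (B p)).hasFDerivAt).hasFDerivWithinAt
  have hbd : ∀ W ∈ Metric.closedBall p t, ‖lin (A W) (B W) - lin (A p) (B p)‖ ≤ L * t := by
    intro W hW
    rw [lin_sub_apply]
    refine (lin_norm_le _ _).trans ((hl W (hsub hW)).trans ?_)
    have h1 : ‖W - p‖ ≤ t := by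
      have := Metric.mem_closedBall.1 hW
      rwa [dist_eq_norm] at this
    exact mul_le_mul_of_nonneg_left h1 hL
  have hc : Convex ℝ (Metric.closedBall p t) := convex_closedBall p t
  have hZm : Z ∈ Metric.closedBall p t := by
    rw [Metric.mem_closedBall, dist_eq_norm]
    exact hZ
  have hZm' : Z' ∈ Metric.closedBall p t := by
    rw [Metric.mem_closedBall, dist_eq_norm]
    exact hZ'
  have h := hc.norm_image_sub_le_of_norm_hasFDerivWithin_le hder hbd hZm' hZm
  have e : V Z - V Z' - (A p * (Z - Z') + B p * (starRingEnd ℂ) (Z - Z')) =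
      (fun W => V W - lin (A p) (B p) W) Z - (fun W => V W - lin (A p) (B p) W) Z' := by
    simp only [lin_apply, map_sub]
    ring
  rw [e]
  exact h

/-- `V` is injective on the ball -/
theorem lin_inj {V A B : ℂ → ℂ} {p : ℂ} {R L : ℝ} (hL : 0 ≤ L)
    (hd : ∀ Z ∈ Metric.closedBall p R, HasFDerivAt V (lin (A Z) (B Z)) Z)
    (hl : ∀ Z ∈ Metric.closedBall p R, ‖A Z - A p‖ + ‖B Z - B p‖ ≤ L * ‖Z - p‖)
    (hab : ‖B p‖ + L * R < ‖A p‖) : Set.InjOn V (Metric.closedBall p R) := by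
  intro Z hZ Z' hZ' hV
  have h1 : ‖Z - p‖ ≤ R := by
    have := Metric.mem_closedBall.1 hZ
    rwa [dist_eq_norm] at this
  have h2 : ‖Z' - p‖ ≤ R := by
    have := Metric.mem_closedBall.1 hZ'
    rwa [dist_eq_norm] at this
  have h := lin_mvt hL hd hl le_rfl h1 h2
  rw [hV, sub_self, zero_sub, norm_neg] at h
  have h3 : ‖A p * (Z - Z')‖ ≤ ‖A p * (Z - Z') + B p * (starRingEnd ℂ) (Z - Z')‖ +
      ‖B p * (starRingEnd ℂ) (Z - Z')‖ := by
    have := norm_sub_le (A p * (Z - Z') + B p * (starRingEnd ℂ) (Z - Z'))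
      (B p * (starRingEnd ℂ) (Z - Z'))
    rwa [add_sub_cancel_right] at this
  rw [norm_mul, norm_mul, Complex.norm_conj] at h3
  by_contra hne
  have hpos : 0 < ‖Z - Z'‖ := norm_pos_iff.2 (sub_ne_zero.2 hne)
  nlinarith

end Pool.Agent.CAPU
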