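import Pool.Agent.Lib.MP_488b8a_co_U.SinB
import Pool.Agent.Lib.MP_488b8a_co_U.Lat
import Pool.Agent.Lib.MP_488b8a_co_U.LinF

/-! Project CAPU (MP_488b8a_co), module Brn. -/

namespace Pool.Agent.CAPU

open Complex MeasureTheory

private theorem Brn_wM (D : Dat) (M : ℕ) (Z : ℂ) :
    HasFDerivAt (wM D M) (lin 0 ((D.K : ℂ) / 2)) Z := by
  have h1 : HasFDerivAt (fun Z : ℂ => (starRingEnd ℂ) Z) (conjCLE : ℂ →L[ℝ] ℂ) Z :=
    (conjCLE : ℂ →L[ℝ] ℂ).hasFDerivAt
  have h2 : HasFDerivAt (fun Z : ℂ => (D.K : ℂ) / 2 * ((starRingEnd ℂ) Z + I * (yM D M : ℂ)))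
      (((D.K : ℂ) / 2) • (conjCLE : ℂ →L[ℝ] ℂ)) Z := (h1.add_const _).const_mul _
  have h3 : lin 0 ((D.K : ℂ) / 2) = ((D.K : ℂ) / 2) • (conjCLE : ℂ →L[ℝ] ℂ) := by
    ext v
    simp [lin_apply]
  rw [h3]
  exact h2

private theorem Brn_slit {q : ℂ} (hq : ‖q - 1‖ ≤ 1 / 2) : q ∈ slitPlane := by
  refine Complex.mem_slitPlane_iff.2 (Or.inl ?_)
  have h1 := (Complex.abs_re_le_norm (q - 1)).trans hq
  have h2 := (abs_le.1 h1).1
  simp only [Complex.sub_re, Complex.one_re] at h2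
  linarith

private theorem Brn_sum_mem {s : Finset ℕ} {f : ℕ → ℂ} (hf : ∀ M ∈ s, f M ∈ Lam) :
    ∑ M ∈ s, f M ∈ Lam := by
  classical
  induction s using Finset.induction_on with
  | empty =>
    rw [Finset.sum_empty]
    exact Lam_zero
  | insert a s ha ih =>
    rw [Finset.sum_insert ha]
    exact Lam_add (hf a (Finset.mem_insert_self _ _))
      (ih fun M hM => hf M (Finset.mem_insert_of_mem hM))

/-- a local branch of the sum of logarithms -/
theorem F_rep {D : Dat} (h : Zone D) {p : ℂ} (hW : p ∈ Win D) (hG : p ∈ Gd D) :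
    ∃ V : ℂ → ℂ, ∀ Z ∈ Metric.closedBall p (4 / cc D p.im),
      HasFDerivAt V (lin 0 (bF D Z)) Z ∧ V Z - F D Z ∈ Lam := by
  refine ⟨fun Z => ∑ M ∈ MM D, I * ((Real.sqrt 3 / (2 * Real.pi) : ℝ) : ℂ) *
    (log (sin (wM D M p)) + log (sin (wM D M Z) / sin (wM D M p))), fun Z hZ => ⟨?_, ?_⟩⟩
  · have hterm : ∀ M ∈ MM D, HasFDerivAt (fun Z => I * ((Real.sqrt 3 / (2 * Real.pi) : ℝ) : ℂ) *
        (log (sin (wM D M p)) + log (sin (wM D M Z) / sin (wM D M p))))
        ((I * ((Real.sqrt 3 / (2 * Real.pi) : ℝ) : ℂ)) •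
          (cot (wM D M Z) • lin 0 ((D.K : ℂ) / 2))) Z := by
      intro M hM
      obtain ⟨h0, hq⟩ := sin_ball h hW hG hM hZ
      have hs := Brn_slit hq
      have hq0 : sin (wM D M Z) / sin (wM D M p) ≠ 0 := Complex.slitPlane_ne_zero hs
      have hsin : sin (wM D M Z) ≠ 0 := fun h1 => hq0 (by rw [h1, zero_div])
      have h1 : HasDerivAt (fun w => log (sin w / sin (wM D M p)))
          (cos (wM D M Z) / sin (wM D M p) / (sin (wM D M Z) / sin (wM D M p))) (wM D M Z) :=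
        ((Complex.hasDerivAt_sin (wM D M Z)).div_const _).clog hs
      have h2 : cos (wM D M Z) / sin (wM D M p) / (sin (wM D M Z) / sin (wM D M p)) =
          cot (wM D M Z) := by
        rw [Complex.cot]
        field_simp
      rw [h2] at h1
      have h3 : HasFDerivAt (fun Z => log (sin (wM D M Z) / sin (wM D M p)))
          (cot (wM D M Z) • lin 0 ((D.K : ℂ) / 2)) Z := h1.comp_hasFDerivAt Z (Brn_wM D M Z)
      exact (h3.const_add _).const_mul _
    have hsum := HasFDerivAt.fun_sum hterm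
    have heq : ∑ M ∈ MM D, (I * ((Real.sqrt 3 / (2 * Real.pi) : ℝ) : ℂ)) •
          (cot (wM D M Z) • lin 0 ((D.K : ℂ) / 2)) = lin 0 (bF D Z) := by
      apply ContinuousLinearMap.ext
      intro v
      rw [lin_apply, sum_apply]
      have h1 : ∀ M ∈ MM D, ((I * ((Real.sqrt 3 / (2 * Real.pi) : ℝ) : ℂ)) •
          (cot (wM D M Z) • lin 0 ((D.K : ℂ) / 2))) v =
          I * ((k0 D / 2 : ℝ) : ℂ) * cot (wM D M Z) * (starRingEnd ℂ) v := by
        intro M hM
        rw [smul_apply, smul_apply, lin_apply]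
        simp only [smul_eq_mul, k0]
        push_cast
        ring
      rw [Finset.sum_congr rfl h1, bF, Finset.mul_sum, zero_mul, zero_add, Finset.sum_mul]
    rw [heq] at hsum
    exact hsum
  · change (∑ M ∈ MM D, I * ((Real.sqrt 3 / (2 * Real.pi) : ℝ) : ℂ) *
      (log (sin (wM D M p)) + log (sin (wM D M Z) / sin (wM D M p)))) - F D Z ∈ Lam
    rw [F, ← Finset.sum_sub_distrib]
    refine Brn_sum_mem fun M hM => ?_
    obtain ⟨h0, hq⟩ := sin_ball h hW hG hM hZ
    have hs := Brn_slit hq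
    have hq0 : sin (wM D M Z) / sin (wM D M p) ≠ 0 := Complex.slitPlane_ne_zero hs
    have hsin : sin (wM D M Z) ≠ 0 := fun h1 => hq0 (by rw [h1, zero_div])
    have hexp : exp (log (sin (wM D M p)) + log (sin (wM D M Z) / sin (wM D M p))) =
        exp (log (sin (wM D M Z))) := by
      rw [Complex.exp_add, Complex.exp_log h0, Complex.exp_log hq0, Complex.exp_log hsin]
      field_simp
    obtain ⟨n, hn⟩ := Complex.exp_eq_exp_iff_exists_int.1 hexp
    rw [hn]
    have h1 : I * ((Real.sqrt 3 / (2 * Real.pi) : ℝ) : ℂ) *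
        (log (sin (wM D M Z)) + n * (2 * Real.pi * I)) -
        I * ((Real.sqrt 3 / (2 * Real.pi) : ℝ) : ℂ) * log (sin (wM D M Z)) =
        ((Real.sqrt 3 * ((-n : ℤ) : ℝ) : ℝ) : ℂ) := by
      have hpi : (Real.pi : ℂ) ≠ 0 := by exact_mod_cast Real.pi_ne_zero
      push_cast
      field_simp
      linear_combination (2 * (Real.pi : ℂ) * n) * Complex.I_sq
    rw [h1]
    exact Lam_int (-n)

end Pool.Agent.CAPU
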