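import Pool.Agent.Lib.MP_488b8a_co_U.Num2

/-! Project CAPU (MP_488b8a_co), module IntC. -/

namespace Pool.Agent.CAPU

open Complex MeasureTheory

private theorem IntC_Bx (D : Dat) : Bx D =
    Set.Icc (-(1 / cc D D.y₂)) (2 * Real.pi + 1 / cc D D.y₂) ×ℂ
      Set.Icc (D.y₁ - 1 / cc D D.y₂) (D.y₂ + 1 / cc D D.y₂) := by
  ext Z
  simp only [Bx, Set.mem_setOf_eq, Complex.mem_reProdIm, Set.mem_Icc, and_assoc]

private theorem IntC_pre (s t : Set ℝ) : s ×ℂ t = measurableEquivRealProd ⁻¹' (s ×ˢ t) := rfl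

private theorem IntC_tanh (y : ℝ) : HasDerivAt Real.tanh (1 / Real.cosh y ^ 2) y := by
  have h1 := (Real.hasDerivAt_sinh y).div (Real.hasDerivAt_cosh y) (Real.cosh_pos y).ne'
  have h2 : (Real.cosh y * Real.cosh y - Real.sinh y * Real.sinh y) / Real.cosh y ^ 2 =
      1 / Real.cosh y ^ 2 := by
    rw [show Real.cosh y * Real.cosh y - Real.sinh y * Real.sinh y = 1 by
      nlinarith [Real.cosh_sq y]]
  rw [h2] at h1
  have h3 : Real.tanh = fun x => Real.sinh x / Real.cosh x := by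
    funext x
    exact Real.tanh_eq_sinh_div_cosh x
  rw [h3]
  exact h1

private theorem IntC_cont {D : Dat} (h : Zone D) : Continuous (fun y : ℝ => cc D y ^ 2) := by
  have h1 : Continuous (cc D) := by
    unfold cc
    refine continuous_const.div (continuous_const.mul Real.continuous_cosh) fun y => ?_
    exact (mul_pos h.hρ (Real.cosh_pos y)).ne'
  exact h1.pow 2

private theorem IntC_int {D : Dat} (h : Zone D) (a b : ℝ) :
    ∫ y in a..b, cc D y ^ 2 = (Real.tanh b - Real.tanh a) / D.ρ ^ 2 := by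
  have h1 : ∀ y ∈ Set.uIcc a b, HasDerivAt (fun y => Real.tanh y / D.ρ ^ 2) (cc D y ^ 2) y := by
    intro y _
    have h2 := (IntC_tanh y).div_const (D.ρ ^ 2)
    have h3 : 1 / Real.cosh y ^ 2 / D.ρ ^ 2 = cc D y ^ 2 := by
      have := (Real.cosh_pos y).ne'
      have := h.hρ.ne'
      unfold cc
      field_simp
    rw [h3] at h2
    exact h2
  rw [intervalIntegral.integral_eq_sub_of_hasDerivAt h1 ((IntC_cont h).intervalIntegrable a b)]
  ring

/-- numerical facts on `δ = 1 / cc y₂` -/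
private theorem IntC_num {D : Dat} (h : Zone D) : 0 < 1 / cc D D.y₂ ∧
    1 / cc D D.y₂ ≤ kap D / 100 ∧ 1 / cc D D.y₂ * (k0 D * m1 D) ≤ 3 := by
  have hk := kap_pos h
  have h1 := cc_pos h D.y₂
  have h2 := inv_cc h (y := D.y₂) (by linarith [h.h12]) (by linarith)
  have h3 := (mc_win h (y := D.y₂) (by linarith [h.h12]) (by linarith)).1
  have h4 := k0_pos h
  refine ⟨by positivity, ?_, ?_⟩
  · have e : 1 / cc D D.y₂ = (100 / cc D D.y₂) / 100 := by ring
    rw [e]
    linarith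
  · rw [div_mul_eq_mul_div, one_mul, div_le_iff₀ h1, cc_eq h D.y₂]
    nlinarith

private theorem IntC_q {D : Dat} (h : Zone D) {y : ℝ} (hy : D.y₁ - kap D ≤ y) :
    cc D y ^ 2 ≤ (1.01 * (k0 D * m1 D)) ^ 2 := by
  have h1 := mc_up h hy
  have h2 := cc_pos h y
  have h3 := k0_pos h
  refine pow_le_pow_left₀ h2.le ?_ 2
  rw [cc_eq h y]
  nlinarith

private theorem IntC_side {D : Dat} (h : Zone D) {a b : ℝ} (ha : D.y₁ - kap D ≤ a) (hab : a ≤ b) :
    ∫ y in a..b, cc D y ^ 2 ≤ (1.01 * (k0 D * m1 D)) ^ 2 * (b - a) := by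
  have h1 : ∫ y in a..b, cc D y ^ 2 ≤ ∫ _y in a..b, (1.01 * (k0 D * m1 D)) ^ 2 := by
    refine intervalIntegral.integral_mono_on hab ((IntC_cont h).intervalIntegrable a b)
      (by simp) fun y hy => ?_
    exact IntC_q h (ha.trans hy.1)
  rw [intervalIntegral.integral_const, smul_eq_mul] at h1
  linarith

theorem int_cc {D : Dat} (h : Zone D) : IntegrableOn (fun Z : ℂ => cc D Z.im ^ 2) (Bx D) ∧
    ∫ Z in Bx D, cc D Z.im ^ 2 ≤
      2 * Real.pi * (Real.tanh D.y₂ - Real.tanh D.y₁) / D.ρ ^ 2 + 10 * D.K ^ 2 := by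
  have hc : Continuous (fun Z : ℂ => cc D Z.im ^ 2) := (IntC_cont h).comp Complex.continuous_im
  have hcp : IsCompact (Bx D) := by
    rw [IntC_Bx]
    exact isCompact_Icc.reProdIm isCompact_Icc
  refine ⟨hc.continuousOn.integrableOn_compact hcp, ?_⟩
  obtain ⟨d0, d1, d2⟩ := IntC_num h
  set δ := 1 / cc D D.y₂ with hδ
  have hk := kap_pos h
  have hk2 := kap_le h
  have hk0 := k0_pos h
  have hm1 := m1_ge h
  have hpi := Real.pi_gt_three
  have hpi2 := Real.pi_lt_d2
  have h12 := h.h12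
  have e1 : ∫ Z in Bx D, cc D Z.im ^ 2 =
      (2 * Real.pi + 2 * δ) * ∫ y in (D.y₁ - δ)..(D.y₂ + δ), cc D y ^ 2 := by
    have e2 : ∫ Z in Bx D, cc D Z.im ^ 2 =
        ∫ p in Set.Icc (-δ) (2 * Real.pi + δ) ×ˢ Set.Icc (D.y₁ - δ) (D.y₂ + δ),
          cc D p.2 ^ 2 := by
      rw [IntC_Bx, IntC_pre]
      exact Complex.volume_preserving_equiv_real_prod.setIntegral_preimage_emb
        measurableEquivRealProd.measurableEmbedding (fun p : ℝ × ℝ => cc D p.2 ^ 2) _
    have hc2 : Continuous (fun p : ℝ × ℝ => cc D p.2 ^ 2) := (IntC_cont h).comp continuous_snd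
    rw [e2, Measure.volume_eq_prod, setIntegral_prod (fun p : ℝ × ℝ => cc D p.2 ^ 2)
      (hc2.continuousOn.integrableOn_compact (isCompact_Icc.prod isCompact_Icc))]
    dsimp only
    rw [setIntegral_const, smul_eq_mul, integral_Icc_eq_integral_Ioc,
      ← intervalIntegral.integral_of_le (by linarith)]
    congr 1
    rw [Real.volume_real_Icc_of_le (by linarith)]
    ring
  have hi : ∀ a b : ℝ, IntervalIntegrable (fun y => cc D y ^ 2) volume a b :=
    fun a b => (IntC_cont h).intervalIntegrable a b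
  have e3 : ∫ y in (D.y₁ - δ)..(D.y₂ + δ), cc D y ^ 2 =
      (∫ y in (D.y₁ - δ)..D.y₁, cc D y ^ 2) + (∫ y in D.y₁..D.y₂, cc D y ^ 2) +
        ∫ y in D.y₂..(D.y₂ + δ), cc D y ^ 2 := by
    rw [intervalIntegral.integral_add_adjacent_intervals (hi _ _) (hi _ _),
      intervalIntegral.integral_add_adjacent_intervals (hi _ _) (hi _ _)]
  have s1 := IntC_side h (a := D.y₁ - δ) (b := D.y₁) (by linarith) (by linarith)
  have s2 := IntC_side h (a := D.y₁) (b := D.y₂) (by linarith) (by linarith)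
  have s3 := IntC_side h (a := D.y₂) (b := D.y₂ + δ) (by linarith) (by linarith)
  have s4 := IntC_int h D.y₁ D.y₂
  set P := k0 D * m1 D with hP
  have hP0 : 0 < P := by positivity
  set q := (1.01 * P) ^ 2 with hq
  have hq0 : 0 < q := by positivity
  have s5 : ∫ y in D.y₁..D.y₂, cc D y ^ 2 ≤ q := by
    refine s2.trans ?_
    have := h.h1
    nlinarith
  have hqd : q * δ ≤ 3.0603 * P := by
    have : q * δ = 1.0201 * P * (δ * P) := by rw [hq]; ring
    rw [this]
    nlinarith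
  have hPK : P ≤ D.K ^ 2 / 8 := by
    have a1 : k0 D ≤ D.K := by
      unfold k0
      have hs : Real.sqrt 3 ≤ 2 := by
        rw [Real.sqrt_le_left (by norm_num)]
        norm_num
      have hK := K_pos h
      rw [div_le_iff₀ (by positivity)]
      nlinarith
    have a2 := h.hK
    have hK := K_pos h
    rw [hP]
    nlinarith
  rw [e1, e3]
  set I1 := ∫ y in (D.y₁ - δ)..D.y₁, cc D y ^ 2
  set I2 := ∫ y in D.y₁..D.y₂, cc D y ^ 2
  set I3 := ∫ y in D.y₂..(D.y₂ + δ), cc D y ^ 2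
  have t1 : I1 + I2 + I3 ≤ I2 + 2 * (q * δ) := by
    have : q * (D.y₁ - (D.y₁ - δ)) = q * δ := by ring
    have : q * (D.y₂ + δ - D.y₂) = q * δ := by ring
    linarith
  have t2 : (2 * Real.pi + 2 * δ) * (I1 + I2 + I3) ≤
      (2 * Real.pi + 2 * δ) * (I2 + 2 * (q * δ)) :=
    mul_le_mul_of_nonneg_left t1 (by linarith)
  have t3 : (2 * Real.pi + 2 * δ) * (I2 + 2 * (q * δ)) =
      2 * Real.pi * I2 + 2 * (δ * I2) + (2 * Real.pi + 2 * δ) * (2 * (q * δ)) := by ring
  have t4 : δ * I2 ≤ q * δ := by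
    rw [mul_comm q δ]
    exact mul_le_mul_of_nonneg_left s5 d0.le
  have hqd0 : 0 < q * δ := by positivity
  have t5 : (2 * Real.pi + 2 * δ) * (2 * (q * δ)) ≤ 6.5 * (2 * (q * δ)) :=
    mul_le_mul_of_nonneg_right (by linarith) (by linarith)
  have t6 : 2 * Real.pi * I2 =
      2 * Real.pi * (Real.tanh D.y₂ - Real.tanh D.y₁) / D.ρ ^ 2 := by
    rw [s4]
    ring
  rw [← t6]
  nlinarith

theorem vol_Bx {D : Dat} (h : Zone D) : MeasurableSet (Bx D) ∧ Bornology.IsBounded (Bx D) ∧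
    volume (Bx D) ≤ ENNReal.ofReal 10 := by
  have hcp : IsCompact (Bx D) := by
    rw [IntC_Bx]
    exact isCompact_Icc.reProdIm isCompact_Icc
  refine ⟨hcp.isClosed.measurableSet, hcp.isBounded, ?_⟩
  obtain ⟨d0, d1, _⟩ := IntC_num h
  have hk := kap_pos h
  have hk2 := kap_le h
  have hpi := Real.pi_gt_three
  have hpi2 := Real.pi_lt_d2
  have h12 := h.h12
  have h1 := h.h1
  rw [IntC_Bx, IntC_pre, Complex.volume_preserving_equiv_real_prod.measure_preimage
    (measurableSet_Icc.prod measurableSet_Icc).nullMeasurableSet, Measure.volume_eq_prod,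
    Measure.prod_prod, Real.volume_Icc, Real.volume_Icc, ← ENNReal.ofReal_mul (by linarith)]
  apply ENNReal.ofReal_le_ofReal
  set δ := 1 / cc D D.y₂
  have e1 : 2 * Real.pi + δ - -δ ≤ 7 := by linarith
  have e2 : D.y₂ + δ - (D.y₁ - δ) ≤ 1.1 := by linarith
  have e3 : 0 ≤ D.y₂ + δ - (D.y₁ - δ) := by linarith
  nlinarith

end Pool.Agent.CAPU
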