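import Pool.Agent.Lib.MP_488b8a_co_U.Num2

/-! Project CAPU (MP_488b8a_co), module Num3. -/

namespace Pool.Agent.CAPU

open Complex MeasureTheory

variable {D : Dat}

theorem mem_MM {M : ℕ} : M ∈ MM D ↔ mc D D.y₂ < (M : ℝ) - 1 / 2 ∧ (M : ℝ) - 1 / 2 < m1 D := by
  unfold MM
  simp only [Finset.mem_filter, Finset.mem_range]
  constructor
  · exact fun h => h.2
  · intro h
    refine ⟨?_, h⟩
    have h1 := Nat.le_ceil (m1 D)
    have h2 : (M : ℝ) < ((⌈m1 D⌉₊ + 2 : ℕ) : ℝ) := by
      push_cast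
      linarith [h.2]
    exact_mod_cast h2

private theorem Num3_pos (h : Zone D) {M : ℕ} (hM : M ∈ MM D) : 10 ^ 10 < (M : ℝ) - 1 / 2 :=
  lt_of_le_of_lt h.hm (mem_MM.1 hM).1

private theorem Num3_nonneg (M : ℕ) : 0 ≤ yM D M := by
  unfold yM
  exact Real.arsinh_nonneg_iff.2 (Real.sqrt_nonneg _)

theorem mc_yM (h : Zone D) {M : ℕ} (hM : M ∈ MM D) : mc D (yM D M) = M - 1 / 2 := by
  have hp := Num3_pos h hM
  have hk := k0_pos h
  have hρ := h.hρ
  have hM2 := (mem_MM.1 hM).2
  have hM0 : (0 : ℝ) < (M : ℝ) - 1 / 2 := by linarith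
  have hprod : 0 < D.ρ * k0 D * ((M : ℝ) - 1 / 2) := by positivity
  have hm1 : m1 D ≤ 1 / (D.ρ * k0 D) := by
    unfold m1 mc cc
    rw [div_div]
    refine one_div_le_one_div_of_le (by positivity) ?_
    have hc := Real.one_le_cosh D.y₁
    nlinarith [mul_pos hρ hk]
  have hx1 : D.ρ * k0 D * ((M : ℝ) - 1 / 2) ≤ 1 := by
    have h1 : (M : ℝ) - 1 / 2 ≤ 1 / (D.ρ * k0 D) := hM2.le.trans hm1
    rw [le_div_iff₀ (by positivity)] at h1
    linarith
  have hx : 1 ≤ 1 / (D.ρ * k0 D * ((M : ℝ) - 1 / 2)) := by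
    rw [le_div_iff₀ hprod]
    linarith
  have hcosh : Real.cosh (yM D M) = 1 / (D.ρ * k0 D * ((M : ℝ) - 1 / 2)) := by
    unfold yM
    have hx2 : 0 ≤ (1 / (D.ρ * k0 D * ((M : ℝ) - 1 / 2))) ^ 2 - 1 := by nlinarith
    rw [Real.cosh_arsinh, Real.sq_sqrt hx2, add_sub_cancel, Real.sqrt_sq (by linarith)]
  unfold mc cc
  rw [hcosh]
  field_simp

theorem yM_mem (h : Zone D) {M : ℕ} (hM : M ∈ MM D) : D.y₁ < yM D M ∧ yM D M < D.y₂ := by
  obtain ⟨h1, h2⟩ := mem_MM.1 hM
  have h3 := mc_yM h hM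
  constructor
  · by_contra hcon
    rcases lt_or_eq_of_le (not_lt.1 hcon) with hlt | heq
    · have h4 := mc_anti h (Num3_nonneg M) hlt
      unfold m1 at h2
      linarith
    · rw [heq] at h3
      unfold m1 at h2
      linarith
  · by_contra hcon
    rcases lt_or_eq_of_le (not_lt.1 hcon) with hlt | heq
    · have h4 := mc_anti h (h.h0.trans h.h12.le) hlt
      linarith
    · rw [← heq] at h3
      linarith

theorem cM_pos (h : Zone D) {M : ℕ} (hM : M ∈ MM D) : 0 < cM D M := by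
  have hp := Num3_pos h hM
  unfold cM
  exact mul_pos (k0_pos h) (by linarith)

theorem cM_kap (h : Zone D) (M : ℕ) : cM D M * kap D = Real.sqrt 3 * (M - 1 / 2) := by
  unfold cM
  rw [← k0_kap h]
  ring

/-- two cores near one point coincide -/
theorem core_unique (h : Zone D) {Z : ℂ} {M M' : ℕ} {j j' : ℤ} (hM : M ∈ MM D) (hM' : M' ∈ MM D)
    (h1 : ‖Z - core D M j‖ < kap D / 4) (h2 : ‖Z - core D M' j'‖ < kap D / 4) :
    M = M' ∧ j = j' := by
  have hk := kap_pos h
  have him : |yM D M - yM D M'| ≤ kap D / 2 := by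
    have a1 := Complex.abs_im_le_norm (Z - core D M j)
    have a2 := Complex.abs_im_le_norm (Z - core D M' j')
    have e1 : (Z - core D M j).im = Z.im - yM D M := rfl
    have e2 : (Z - core D M' j').im = Z.im - yM D M' := rfl
    rw [e1] at a1
    rw [e2] at a2
    rw [abs_le] at a1 a2 ⊢
    constructor <;> linarith [a1.1, a1.2, a2.1, a2.2]
  have hre : |kap D * j - kap D * j'| < kap D / 2 := by
    have a1 := Complex.abs_re_le_norm (Z - core D M j)
    have a2 := Complex.abs_re_le_norm (Z - core D M' j')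
    have e1 : (Z - core D M j).re = Z.re - kap D * j := rfl
    have e2 : (Z - core D M' j').re = Z.re - kap D * j' := rfl
    rw [e1] at a1
    rw [e2] at a2
    rw [abs_le] at a1 a2
    rw [abs_lt]
    constructor <;> linarith [a1.1, a1.2, a2.1, a2.2]
  have b1 := (yM_mem h hM).1
  have b2 := (yM_mem h hM').1
  have hl := mc_lip h (y := yM D M) (y' := yM D M') (by linarith) (by linarith)
  rw [mc_yM h hM, mc_yM h hM'] at hl
  have hm1 := m1_ge h
  have hkm := kap_m1 h
  have hpi := Real.pi_lt_d2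
  have hlt : |((M : ℝ) - 1 / 2) - ((M' : ℝ) - 1 / 2)| < 1 := by
    have c1 : 1.1 * m1 D * |yM D M - yM D M'| ≤ 1.1 * m1 D * (kap D / 2) :=
      mul_le_mul_of_nonneg_left him (by linarith)
    have c2 : 1.1 * m1 D * (kap D / 2) = 1.1 / 2 * (kap D * m1 D) := by ring
    rw [c2] at c1
    linarith
  constructor
  · rw [abs_lt] at hlt
    have d1 : (M : ℝ) < (M' : ℝ) + 1 := by linarith [hlt.2]
    have d2 : (M' : ℝ) < (M : ℝ) + 1 := by linarith [hlt.1]
    have d3 : M < M' + 1 := by exact_mod_cast d1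
    have d4 : M' < M + 1 := by exact_mod_cast d2
    omega
  · rw [← mul_sub, abs_mul, abs_of_pos hk] at hre
    have e1 : |(j : ℝ) - j'| < 1 := by
      by_contra hcon
      have e2 := mul_le_mul_of_nonneg_left (not_lt.1 hcon) hk.le
      linarith
    rw [abs_lt] at e1
    have d1 : (j : ℝ) < (j' : ℝ) + 1 := by linarith [e1.2]
    have d2 : (j' : ℝ) < (j : ℝ) + 1 := by linarith [e1.1]
    have d3 : j < j' + 1 := by exact_mod_cast d1
    have d4 : j' < j + 1 := by exact_mod_cast d2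
    omega

/-- near a core the scale is the one of the interface -/
theorem cM_cc (h : Zone D) {Z : ℂ} {M : ℕ} {j : ℤ} (hM : M ∈ MM D)
    (h1 : ‖Z - core D M j‖ ≤ kap D / 4) :
    99 / 100 * cM D M ≤ cc D Z.im ∧ cc D Z.im ≤ 101 / 100 * cM D M := by
  have hk := kap_pos h
  have hkle := kap_le h
  have hc := cM_pos h hM
  have e0 : cM D M = cc D (yM D M) := by
    rw [cc_eq h, mc_yM h hM]
    rfl
  have a1 := Complex.abs_im_le_norm (Z - core D M j)
  have e1 : (Z - core D M j).im = Z.im - yM D M := rfl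
  rw [e1] at a1
  have a2 : |yM D M - Z.im| ≤ kap D / 4 := by
    rw [abs_sub_comm]
    exact a1.trans h1
  have a3 := cc_lip h (y := yM D M) (y' := Z.im) (by linarith)
  rw [← e0] at a3
  have a4 : 2 * cM D M * |yM D M - Z.im| ≤ cM D M / 100 := by
    have b1 : 2 * cM D M * |yM D M - Z.im| ≤ 2 * cM D M * (kap D / 4) :=
      mul_le_mul_of_nonneg_left a2 (by linarith)
    have b2 : 2 * cM D M * (kap D / 4) ≤ 2 * cM D M * (1 / 10 ^ 9 / 4) :=
      mul_le_mul_of_nonneg_left (by linarith) (by linarith)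
    linarith
  have a5 := a3.trans a4
  rw [abs_le] at a5
  constructor <;> linarith [a5.1, a5.2]

/-- a core near a point of the window has its index in `JJ` -/
theorem core_JJ (h : Zone D) {Z : ℂ} (hW : Z ∈ Win D) {M : ℕ} {j : ℤ}
    (h1 : ‖Z - core D M j‖ ≤ kap D / 2) : j ∈ JJ D := by
  have hk := kap_pos h
  have hK := K_pos h
  have hkK : kap D * D.K = 2 * Real.pi := by
    unfold kap
    field_simp
  have a1 := Complex.abs_re_le_norm (Z - core D M j)
  have e1 : (Z - core D M j).re = Z.re - kap D * j := rfl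
  rw [e1] at a1
  have a2 := a1.trans h1
  rw [abs_le] at a2
  obtain ⟨w1, w2, _, _⟩ := hW
  have b1 : -2 < (j : ℝ) := by
    by_contra hcon
    have := mul_le_mul_of_nonneg_left (not_lt.1 hcon) hk.le
    linarith [a2.2]
  have b2 : (j : ℝ) < (D.K : ℝ) + 3 := by
    by_contra hcon
    have := mul_le_mul_of_nonneg_left (not_lt.1 hcon) hk.le
    rw [mul_add, hkK] at this
    linarith [a2.1]
  unfold JJ
  rw [Finset.mem_Icc]
  have c1 : (-2 : ℤ) < j := by exact_mod_cast b1
  have c2 : j < (D.K : ℤ) + 3 := by exact_mod_cast b2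
  omega

end Pool.Agent.CAPU
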