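import Pool.Agent.Lib.MP_488b8a_co_U.Ann
import Pool.Agent.Lib.MP_488b8a_co_U.Num3

/-! Project CAPU (MP_488b8a_co), module IntT. -/

namespace Pool.Agent.CAPU

open Complex MeasureTheory

theorem Gd_meas (D : Dat) : MeasurableSet (Gd D) := by
  have e : Gd D = ⋂ M ∈ MM D, ⋂ j : ℤ, {Z : ℂ | 10 ^ 6 ≤ cM D M * ‖Z - core D M j‖} := by
    ext Z
    simp only [Gd, Set.mem_ofPred_eq, Set.mem_iInter]
  rw [e]
  refine Finset.measurableSet_biInter _ ?_
  intro M _
  refine MeasurableSet.iInter ?_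
  intro j
  exact (isClosed_le continuous_const
    (continuous_const.mul (continuous_id.sub continuous_const).norm)).measurableSet

private lemma IntT_Bx (D : Dat) : MeasurableSet (Bx D) := by
  have h1 : MeasurableSet {Z : ℂ | -(1 / cc D D.y₂) ≤ Z.re} :=
    measurableSet_le measurable_const Complex.measurable_re
  have h2 : MeasurableSet {Z : ℂ | Z.re ≤ 2 * Real.pi + 1 / cc D D.y₂} :=
    measurableSet_le Complex.measurable_re measurable_const
  have h3 : MeasurableSet {Z : ℂ | D.y₁ - 1 / cc D D.y₂ ≤ Z.im} :=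
    measurableSet_le measurable_const Complex.measurable_im
  have h4 : MeasurableSet {Z : ℂ | Z.im ≤ D.y₂ + 1 / cc D D.y₂} :=
    measurableSet_le Complex.measurable_im measurable_const
  exact h1.inter (h2.inter (h3.inter h4))

/-- one term -/
private noncomputable def IntT_t (D : Dat) (M : ℕ) (j : ℤ) (Z : ℂ) : ℝ := by
  classical
  exact if ‖Z - core D M j‖ < kap D / 8 then (kap D / ‖Z - core D M j‖) ^ 2 else 0

private lemma IntT_eq (D : Dat) (Z : ℂ) :
    Tc D Z = ∑ M ∈ MM D, ∑ j ∈ JJ D, IntT_t D M j Z := by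
  unfold Tc IntT_t
  rfl

private lemma IntT_term {D : Dat} (h : Zone D) {M : ℕ} (hM : M ∈ MM D) (j : ℤ) :
    IntegrableOn (IntT_t D M j) (Bx D ∩ Gd D) ∧
    ∫ Z in Bx D ∩ Gd D, IntT_t D M j Z ≤ kap D ^ 2 * (2 * Real.pi * Real.log (m1 D)) := by
  have hS : MeasurableSet (Bx D ∩ Gd D) := (IntT_Bx D).inter (Gd_meas D)
  have hcM := cM_pos h hM
  have hk := kap_pos h
  have hm := mem_MM.1 hM
  have hM0 : 10 ^ 10 < (M : ℝ) - 1 / 2 := lt_of_le_of_lt h.hm hm.1
  have hs3 : (1 : ℝ) ≤ Real.sqrt 3 := by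
    rw [show (1 : ℝ) = Real.sqrt 1 by simp]
    exact Real.sqrt_le_sqrt (by norm_num)
  have hs3' : Real.sqrt 3 ≤ 2 := by
    rw [show (2 : ℝ) = Real.sqrt 4 by rw [show (4 : ℝ) = 2 ^ 2 by norm_num, Real.sqrt_sq (by norm_num)]]
    exact Real.sqrt_le_sqrt (by norm_num)
  have hck := cM_kap h M
  obtain ⟨a, ha⟩ : ∃ a : ℝ, a = 10 ^ 6 / cM D M := ⟨_, rfl⟩
  obtain ⟨b, hb⟩ : ∃ b : ℝ, b = kap D / 8 := ⟨_, rfl⟩
  have ha0 : 0 < a := by rw [ha]; positivity
  have hb0 : 0 < b := by rw [hb]; positivity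
  have hba : b / a = Real.sqrt 3 * ((M : ℝ) - 1 / 2) / (8 * 10 ^ 6) := by
    rw [ha, hb, ← hck]
    field_simp
  have hab : a ≤ b := by
    have h1 : 1 ≤ b / a := by
      rw [hba, le_div_iff₀ (by norm_num)]
      nlinarith
    rwa [le_div_iff₀ ha0, one_mul] at h1
  have hlog : Real.log (b / a) ≤ Real.log (m1 D) := by
    apply Real.log_le_log (by positivity)
    rw [hba, div_le_iff₀ (by norm_num)]
    have hm2 := hm.2
    nlinarith
  obtain ⟨hi, hv⟩ := int_ann (core D M j) ha0 hab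
  obtain ⟨A, hA⟩ : ∃ A : Set ℂ, A = {Z : ℂ | a ≤ ‖Z - core D M j‖ ∧ ‖Z - core D M j‖ < b} :=
    ⟨_, rfl⟩
  rw [← hA] at hi hv
  have hAm : MeasurableSet A := by
    rw [hA]
    have h1 : MeasurableSet {Z : ℂ | a ≤ ‖Z - core D M j‖} :=
      (isClosed_le continuous_const (continuous_id.sub continuous_const).norm).measurableSet
    have h2 : MeasurableSet {Z : ℂ | ‖Z - core D M j‖ < b} :=
      (isOpen_lt (continuous_id.sub continuous_const).norm continuous_const).measurableSet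
    exact h1.inter h2
  have hg : IntegrableOn (fun Z : ℂ => kap D ^ 2 * (1 / ‖Z - core D M j‖ ^ 2)) A :=
    Integrable.const_mul hi _
  have hcongr : Set.EqOn (A.indicator (fun Z : ℂ => kap D ^ 2 * (1 / ‖Z - core D M j‖ ^ 2)))
      (IntT_t D M j) (Bx D ∩ Gd D) := by
    intro Z hZ
    have hz : 10 ^ 6 ≤ cM D M * ‖Z - core D M j‖ := hZ.2 M hM j
    have hz' : a ≤ ‖Z - core D M j‖ := by
      rw [ha, div_le_iff₀ hcM]
      linarith
    by_cases hc : ‖Z - core D M j‖ < kap D / 8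
    · have hin : Z ∈ A := by
        rw [hA]
        exact ⟨hz', by rw [hb]; exact hc⟩
      rw [Set.indicator_of_mem hin]
      unfold IntT_t
      rw [if_pos hc]
      rw [div_pow]
      ring
    · have hin : Z ∉ A := by
        rw [hA]
        intro hh
        exact hc (by rw [← hb]; exact hh.2)
      rw [Set.indicator_of_notMem hin]
      unfold IntT_t
      rw [if_neg hc]
  have hint : IntegrableOn
      (A.indicator (fun Z : ℂ => kap D ^ 2 * (1 / ‖Z - core D M j‖ ^ 2))) (Bx D ∩ Gd D) :=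
    ((integrable_indicator_iff hAm).2 hg).integrableOn
  refine ⟨hint.congr_fun hcongr hS, ?_⟩
  rw [← setIntegral_congr_fun hS hcongr, setIntegral_indicator hAm]
  have hle : ∫ Z in (Bx D ∩ Gd D) ∩ A, kap D ^ 2 * (1 / ‖Z - core D M j‖ ^ 2) ≤
      ∫ Z in A, kap D ^ 2 * (1 / ‖Z - core D M j‖ ^ 2) := by
    apply setIntegral_mono_set hg
    · exact Filter.Eventually.of_forall (fun Z => by positivity)
    · exact Filter.Eventually.of_forall (fun Z hZ => hZ.2)
  refine hle.trans ?_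
  rw [integral_const_mul]
  apply mul_le_mul_of_nonneg_left _ (by positivity)
  exact hv.trans (mul_le_mul_of_nonneg_left hlog (by positivity))

private lemma IntT_card {D : Dat} (h : Zone D) : ((MM D).card : ℝ) ≤ m1 D := by
  have hm1 := m1_ge h
  have hsub : MM D ⊆ Finset.Icc 2 ⌊m1 D + 1 / 2⌋₊ := by
    intro M hM
    have hm := mem_MM.1 hM
    have h2 := h.hm
    rw [Finset.mem_Icc]
    constructor
    · have h3 : (2 : ℝ) ≤ (M : ℝ) := by linarith [hm.1]
      exact_mod_cast h3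
    · apply Nat.le_floor
      linarith [hm.2]
  have h1 := Finset.card_le_card hsub
  rw [Nat.card_Icc] at h1
  have h2 : (⌊m1 D + 1 / 2⌋₊ : ℝ) ≤ m1 D + 1 / 2 := Nat.floor_le (by linarith)
  have h3 : 1 ≤ ⌊m1 D + 1 / 2⌋₊ := by
    apply Nat.le_floor
    push_cast
    linarith
  have h4 : (MM D).card + 1 ≤ ⌊m1 D + 1 / 2⌋₊ := by omega
  have h5 : ((MM D).card : ℝ) + 1 ≤ (⌊m1 D + 1 / 2⌋₊ : ℝ) := by exact_mod_cast h4
  linarith

private lemma IntT_cardJ (D : Dat) : ((JJ D).card : ℝ) = D.K + 5 := by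
  unfold JJ
  rw [Int.card_Icc]
  have e : ((D.K : ℤ) + 2 + 1 - -2).toNat = D.K + 5 := by omega
  rw [e]
  push_cast
  ring

theorem int_Tc {D : Dat} (h : Zone D) : IntegrableOn (Tc D) (Bx D ∩ Gd D) ∧
    ∫ Z in Bx D ∩ Gd D, Tc D Z ≤ 50 * Real.log (m1 D) := by
  have hT : Tc D = fun Z => ∑ M ∈ MM D, ∑ j ∈ JJ D, IntT_t D M j Z := funext (IntT_eq D)
  have hi : ∀ M ∈ MM D, ∀ j ∈ JJ D, IntegrableOn (IntT_t D M j) (Bx D ∩ Gd D) :=
    fun M hM j _ => (IntT_term h hM j).1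
  have hi2 : ∀ M ∈ MM D, IntegrableOn (fun Z => ∑ j ∈ JJ D, IntT_t D M j Z) (Bx D ∩ Gd D) :=
    fun M hM => integrable_finsetSum _ (hi M hM)
  rw [hT]
  refine ⟨integrable_finsetSum _ hi2, ?_⟩
  rw [integral_finsetSum _ hi2]
  have hlog : 0 ≤ Real.log (m1 D) := by
    have := log_m1 h
    linarith
  have hk := kap_pos h
  have h1 : ∀ M ∈ MM D, ∫ Z in Bx D ∩ Gd D, ∑ j ∈ JJ D, IntT_t D M j Z ≤
      ((JJ D).card : ℝ) * (kap D ^ 2 * (2 * Real.pi * Real.log (m1 D))) := by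
    intro M hM
    rw [integral_finsetSum _ (hi M hM), ← nsmul_eq_mul, ← Finset.sum_const]
    exact Finset.sum_le_sum (fun j _ => (IntT_term h hM j).2)
  refine (Finset.sum_le_sum h1).trans ?_
  rw [Finset.sum_const, nsmul_eq_mul, IntT_cardJ]
  have hc := IntT_card h
  have hK := K_pos h
  have hm1 := m1_ge h
  have hKm := h.hK
  have hkap : kap D = 2 * Real.pi / D.K := rfl
  have hpi := Real.pi_pos
  have hpi2 := Real.pi_lt_d2
  have hcube : Real.pi ^ 3 ≤ 32 := by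
    have : Real.pi ^ 3 ≤ 3.15 ^ 3 := pow_le_pow_left₀ hpi.le hpi2.le 3
    refine this.trans (by norm_num)
  have e1 : ((MM D).card : ℝ) * ((D.K + 5) * (kap D ^ 2 * (2 * Real.pi * Real.log (m1 D)))) =
      ((MM D).card : ℝ) * ((D.K + 5) * (8 * Real.pi ^ 3) / (D.K : ℝ) ^ 2) * Real.log (m1 D) := by
    rw [hkap]
    field_simp
    ring
  rw [e1]
  apply mul_le_mul_of_nonneg_right _ hlog
  have hK10 : (10 : ℝ) ≤ D.K := by linarith
  have h2 : ((MM D).card : ℝ) ≤ (D.K : ℝ) / 8 := by linarith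
  have h3 : ((MM D).card : ℝ) * ((D.K + 5) * (8 * Real.pi ^ 3) / (D.K : ℝ) ^ 2) ≤
      ((D.K : ℝ) / 8) * ((D.K + 5) * (8 * Real.pi ^ 3) / (D.K : ℝ) ^ 2) :=
    mul_le_mul_of_nonneg_right h2 (by positivity)
  refine h3.trans ?_
  have e2 : ((D.K : ℝ) / 8) * ((D.K + 5) * (8 * Real.pi ^ 3) / (D.K : ℝ) ^ 2) =
      ((D.K + 5) * Real.pi ^ 3) / D.K := by
    field_simp
  rw [e2, div_le_iff₀ hK]
  have h4 : ((D.K : ℝ) + 5) * Real.pi ^ 3 ≤ (D.K + 5) * 32 :=
    mul_le_mul_of_nonneg_left hcube (by positivity)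
  linarith

end Pool.Agent.CAPU
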