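import Pool.Agent.Lib.MP_488b8a_co_U.Defs

/-! Project CAPU (MP_488b8a_co), module LatC. -/

namespace Pool.Agent.CAPU

open Complex MeasureTheory

private def LatC_Q (b c p q : ℝ) : ℝ := (p - b * p - c * q) ^ 2 + (q - c * p + b * q) ^ 2

private lemma LatC_tri (b c x y r : ℝ) (hr : r ^ 2 = 3) (hx : 0 ≤ x) (hy : 0 ≤ y)
    (hxy : x + y ≤ 1) :
    LatC_Q b c (r * (-x - y / 2)) (-(3 / 2 * y)) ≤ 1 + 4 * (b ^ 2 + c ^ 2) ∨
    LatC_Q b c (r * (1 - x - y / 2)) (-(3 / 2 * y)) ≤ 1 + 4 * (b ^ 2 + c ^ 2) ∨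
    LatC_Q b c (r * (1 / 2 - x - y / 2)) (3 / 2 * (1 - y)) ≤ 1 + 4 * (b ^ 2 + c ^ 2) := by
  by_contra hcon
  push Not at hcon
  obtain ⟨h1, h2, h3⟩ := hcon
  have e1 := mul_nonneg (show (0 : ℝ) ≤ 1 - x - y by linarith) (sub_nonneg.2 h1.le)
  have e2 := mul_nonneg hx (sub_nonneg.2 h2.le)
  have e3 := mul_nonneg hy (sub_nonneg.2 h3.le)
  have key : (1 - x - y) * LatC_Q b c (r * (-x - y / 2)) (-(3 / 2 * y)) +
      x * LatC_Q b c (r * (1 - x - y / 2)) (-(3 / 2 * y)) +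
      y * LatC_Q b c (r * (1 / 2 - x - y / 2)) (3 / 2 * (1 - y)) +
      (((r * (-x - y / 2) + r / 2) - (b * (r * (-x - y / 2) + r / 2) +
        c * (-(3 / 2 * y) + 1 / 2)) + c) ^ 2 +
      ((-(3 / 2 * y) + 1 / 2) - (c * (r * (-x - y / 2) + r / 2) -
        b * (-(3 / 2 * y) + 1 / 2)) + b) ^ 2) =
      1 + 4 * ((1 - x - y) * (c / 2 - b * r / 2) ^ 2 + x * (c / 2 + b * r / 2) ^ 2 +
        y * c ^ 2) := by
    unfold LatC_Q
    ring_nf
    simp only [hr]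
    ring
  have s1 : (c / 2 - b * r / 2) ^ 2 ≤ b ^ 2 + c ^ 2 := by
    have : b ^ 2 + c ^ 2 - (c / 2 - b * r / 2) ^ 2 =
        (b / 2 + r * c / 2) ^ 2 + (3 - r ^ 2) * (b ^ 2 + c ^ 2) / 4 := by ring
    rw [hr] at this
    nlinarith [sq_nonneg (b / 2 + r * c / 2)]
  have s2 : (c / 2 + b * r / 2) ^ 2 ≤ b ^ 2 + c ^ 2 := by
    have : b ^ 2 + c ^ 2 - (c / 2 + b * r / 2) ^ 2 =
        (b / 2 - r * c / 2) ^ 2 + (3 - r ^ 2) * (b ^ 2 + c ^ 2) / 4 := by ring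
    rw [hr] at this
    nlinarith [sq_nonneg (b / 2 - r * c / 2)]
  have s3 : c ^ 2 ≤ b ^ 2 + c ^ 2 := by nlinarith [sq_nonneg b]
  have f1 := mul_le_mul_of_nonneg_left s1 (show (0 : ℝ) ≤ 1 - x - y by linarith)
  have f2 := mul_le_mul_of_nonneg_left s2 hx
  have f3 := mul_le_mul_of_nonneg_left s3 hy
  have g1 := sq_nonneg ((r * (-x - y / 2) + r / 2) - (b * (r * (-x - y / 2) + r / 2) +
        c * (-(3 / 2 * y) + 1 / 2)) + c)
  have g2 := sq_nonneg ((-(3 / 2 * y) + 1 / 2) - (c * (r * (-x - y / 2) + r / 2) -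
        b * (-(3 / 2 * y) + 1 / 2)) + b)
  have z1 : (1 - x - y) * (LatC_Q b c (r * (-x - y / 2)) (-(3 / 2 * y)) -
      (1 + 4 * (b ^ 2 + c ^ 2))) = 0 := by linarith
  have z2 : x * (LatC_Q b c (r * (1 - x - y / 2)) (-(3 / 2 * y)) -
      (1 + 4 * (b ^ 2 + c ^ 2))) = 0 := by linarith
  have z3 : y * (LatC_Q b c (r * (1 / 2 - x - y / 2)) (3 / 2 * (1 - y)) -
      (1 + 4 * (b ^ 2 + c ^ 2))) = 0 := by linarith
  have w1 : 1 - x - y = 0 := (mul_eq_zero.1 z1).resolve_right (sub_ne_zero.2 h1.ne')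
  have w2 : x = 0 := (mul_eq_zero.1 z2).resolve_right (sub_ne_zero.2 h2.ne')
  have w3 : y = 0 := (mul_eq_zero.1 z3).resolve_right (sub_ne_zero.2 h3.ne')
  linarith

private lemma LatC_norm (β u : ℂ) :
    ‖u - β * (starRingEnd ℂ) u‖ ^ 2 = LatC_Q β.re β.im u.re u.im := by
  rw [Complex.sq_norm, Complex.normSq_apply]
  simp only [Complex.sub_re, Complex.sub_im, Complex.mul_re, Complex.mul_im, Complex.conj_re,
    Complex.conj_im, LatC_Q]
  ring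

private lemma LatC_neg (b c p q : ℝ) : LatC_Q b c (-p) (-q) = LatC_Q b c p q := by
  unfold LatC_Q
  ring

/-- covering radius of a sheared hexagonal lattice -/
theorem lat_cover (β v : ℂ) : ∃ l ∈ Lam,
    ‖(l - v) - β * (starRingEnd ℂ) (l - v)‖ ^ 2 ≤ 1 + 4 * ‖β‖ ^ 2 := by
  have hr : Real.sqrt 3 ^ 2 = 3 := Real.sq_sqrt (by norm_num)
  have hr0 : Real.sqrt 3 ≠ 0 := by
    intro h
    rw [h] at hr
    norm_num at hr
  have hβ : ‖β‖ ^ 2 = β.re ^ 2 + β.im ^ 2 := by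
    rw [Complex.sq_norm, Complex.normSq_apply]
    ring
  set t : ℝ := v.im / (3 / 2) with ht
  set a : ℝ := v.re / Real.sqrt 3 - t / 2 with ha
  have hvi : v.im = 3 / 2 * t := by rw [ht]; ring
  have hvr : v.re = Real.sqrt 3 * (a + t / 2) := by
    rw [ha]
    field_simp
    ring
  have hj : a = ⌊a⌋ + Int.fract a := (Int.floor_add_fract a).symm
  have hk : t = ⌊t⌋ + Int.fract t := (Int.floor_add_fract t).symm
  have hx0 := Int.fract_nonneg a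
  have hy0 := Int.fract_nonneg t
  have hx1 := (Int.fract_lt_one a).le
  have hy1 := (Int.fract_lt_one t).le
  set x : ℝ := Int.fract a with hx
  set y : ℝ := Int.fract t with hy
  -- reduction to coordinates
  have red : ∀ (m n : ℤ), LatC_Q β.re β.im
      (Real.sqrt 3 * (((m : ℝ) - x) + ((n : ℝ) - y) / 2)) (3 / 2 * ((n : ℝ) - y)) ≤
        1 + 4 * (β.re ^ 2 + β.im ^ 2) → ∃ l ∈ Lam,
      ‖(l - v) - β * (starRingEnd ℂ) (l - v)‖ ^ 2 ≤ 1 + 4 * ‖β‖ ^ 2 := by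
    intro m n h
    refine ⟨⟨Real.sqrt 3 * (((⌊a⌋ + m : ℤ) : ℝ) + ((⌊t⌋ + n : ℤ) : ℝ) / 2),
      3 / 2 * ((⌊t⌋ + n : ℤ) : ℝ)⟩, ⟨⌊a⌋ + m, ⌊t⌋ + n, rfl⟩, ?_⟩
    rw [LatC_norm, hβ]
    have h1 : ((⟨Real.sqrt 3 * (((⌊a⌋ + m : ℤ) : ℝ) + ((⌊t⌋ + n : ℤ) : ℝ) / 2),
        3 / 2 * ((⌊t⌋ + n : ℤ) : ℝ)⟩ : ℂ) - v).re =
        Real.sqrt 3 * (((m : ℝ) - x) + ((n : ℝ) - y) / 2) := by
      rw [Complex.sub_re, hvr]
      push_cast
      have e1 : a = ⌊a⌋ + x := hj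
      have e2 : t = ⌊t⌋ + y := hk
      linear_combination (-Real.sqrt 3) * e1 - (Real.sqrt 3 / 2) * e2
    have h2 : ((⟨Real.sqrt 3 * (((⌊a⌋ + m : ℤ) : ℝ) + ((⌊t⌋ + n : ℤ) : ℝ) / 2),
        3 / 2 * ((⌊t⌋ + n : ℤ) : ℝ)⟩ : ℂ) - v).im = 3 / 2 * ((n : ℝ) - y) := by
      rw [Complex.sub_im, hvi]
      push_cast
      have e2 : t = ⌊t⌋ + y := hk
      linear_combination (-(3 : ℝ) / 2) * e2
    rw [h1, h2]
    exact h
  rcases le_total (x + y) 1 with hxy | hxy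
  · rcases LatC_tri β.re β.im x y (Real.sqrt 3) hr hx0 hy0 hxy with h | h | h
    · apply red 0 0
      convert h using 2 <;> push_cast <;> ring
    · apply red 1 0
      convert h using 2 <;> push_cast <;> ring
    · apply red 0 1
      convert h using 2 <;> push_cast <;> ring
  · rcases LatC_tri β.re β.im (1 - x) (1 - y) (Real.sqrt 3) hr (by linarith) (by linarith)
      (by linarith) with h | h | h
    · apply red 1 1
      rw [← LatC_neg]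
      convert h using 2 <;> push_cast <;> ring
    · apply red 0 1
      rw [← LatC_neg]
      convert h using 2 <;> push_cast <;> ring
    · apply red 1 0
      rw [← LatC_neg]
      convert h using 2 <;> push_cast <;> ring

end Pool.Agent.CAPU
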