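import Pool.Agent.Lib.MP_488b8a_co_U.LinF
import Pool.Agent.Lib.MP_488b8a_co_U.LatC

/-! Project CAPU (MP_488b8a_co), module LocC. -/

namespace Pool.Agent.CAPU

open Complex MeasureTheory

/-- inverse of `ζ ↦ ζ + β conj ζ` -/
private noncomputable def LocC_Ai (β w : ℂ) : ℂ :=
  (w - β * (starRingEnd ℂ) w) / ((1 - ‖β‖ ^ 2 : ℝ) : ℂ)

private theorem LocC_Ai_inv {β : ℂ} (hβ : ‖β‖ ≤ 1 / 10) (w : ℂ) :
    LocC_Ai β w + β * (starRingEnd ℂ) (LocC_Ai β w) = w := by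
  have h0 := norm_nonneg β
  have h1 : (1 - ‖β‖ ^ 2 : ℝ) ≠ 0 := by nlinarith
  have h2 : ((1 - ‖β‖ ^ 2 : ℝ) : ℂ) ≠ 0 := by exact_mod_cast h1
  unfold LocC_Ai
  rw [map_div₀, map_sub, map_mul, Complex.conj_conj, Complex.conj_ofReal]
  have h3 : β * (starRingEnd ℂ) β = ((‖β‖ ^ 2 : ℝ) : ℂ) := by
    rw [Complex.mul_conj, Complex.normSq_eq_norm_sq]
  rw [mul_div_assoc', ← add_div, div_eq_iff h2]
  have h4 : w - β * (starRingEnd ℂ) w + β * ((starRingEnd ℂ) w - (starRingEnd ℂ) β * w) =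
      w - (β * (starRingEnd ℂ) β) * w := by ring
  rw [h4, h3]
  push_cast
  ring

private theorem LocC_Ai_sub (β w w' : ℂ) :
    LocC_Ai β w - LocC_Ai β w' = LocC_Ai β (w - w') := by
  unfold LocC_Ai
  rw [← sub_div, map_sub]
  ring

private theorem LocC_Ai_norm {β : ℂ} (hβ : ‖β‖ ≤ 1 / 10) (w : ℂ) :
    ‖LocC_Ai β w‖ ≤ 10 / 9 * ‖w‖ := by
  have h0 := norm_nonneg β
  have h1 : (0 : ℝ) < 1 - ‖β‖ ^ 2 := by nlinarith
  unfold LocC_Ai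
  rw [norm_div, Complex.norm_real, Real.norm_eq_abs, abs_of_pos h1, div_le_iff₀ h1]
  have h2 : ‖w - β * (starRingEnd ℂ) w‖ ≤ ‖w‖ + ‖β‖ * ‖w‖ := by
    refine (norm_sub_le _ _).trans ?_
    rw [norm_mul, Complex.norm_conj]
  refine h2.trans ?_
  have h3 := norm_nonneg w
  have h4 : (1 + ‖β‖) ≤ 10 / 9 * (1 - ‖β‖ ^ 2) := by nlinarith
  nlinarith [mul_le_mul_of_nonneg_right h4 h3]

private theorem LocC_Ai_norm2 {β : ℂ} (hβ : ‖β‖ ≤ 1 / 10) {w : ℂ}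
    (hw : ‖w - β * (starRingEnd ℂ) w‖ ^ 2 ≤ 1 + 4 * ‖β‖ ^ 2) :
    ‖LocC_Ai β w‖ ≤ 1 + 4 * ‖β‖ ^ 2 := by
  have h0 := norm_nonneg β
  have h1 : (0 : ℝ) < 1 - ‖β‖ ^ 2 := by nlinarith
  unfold LocC_Ai
  rw [norm_div, Complex.norm_real, Real.norm_eq_abs, abs_of_pos h1, div_le_iff₀ h1]
  have h2 : ‖w - β * (starRingEnd ℂ) w‖ ≤ 1 + 2 * ‖β‖ ^ 2 := by
    refine abs_le_of_sq_le_sq' ?_ (by positivity) |>.2
    nlinarith [sq_nonneg (‖β‖ ^ 2)]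
  refine h2.trans ?_
  have h3 : ‖β‖ ^ 2 ≤ 1 / 100 := by nlinarith
  nlinarith [sq_nonneg ‖β‖]

theorem loc_cover {V A B : ℂ → ℂ} {p v : ℂ} {c L : ℝ} (hc : 0 < c) (hL : 0 ≤ L)
    (hd : ∀ Z ∈ Metric.closedBall p (4 / c), HasFDerivAt V (lin (A Z) (B Z)) Z)
    (hl : ∀ Z ∈ Metric.closedBall p (4 / c), ‖A Z - A p‖ + ‖B Z - B p‖ ≤ L * ‖Z - p‖)
    (ha : c ≤ ‖A p‖) (hb : 10 * ‖B p‖ ≤ c) (hLc : 100 * L ≤ c ^ 2) :
    ∃ Z, ‖Z - p‖ ≤ 4 / c ∧ V Z - v ∈ Lam ∧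
      ‖A p‖ * ‖Z - p‖ ≤ 1 + 4 * ‖B p‖ ^ 2 / c ^ 2 + 5 * L / c ^ 2 := by
  set a := A p with hadef
  set b := B p with hbdef
  have hapos : 0 < ‖a‖ := lt_of_lt_of_le hc ha
  have ha0 : a ≠ 0 := norm_pos_iff.1 hapos
  have hca0 : (starRingEnd ℂ) a ≠ 0 := by
    rw [Ne, map_eq_zero]
    exact ha0
  set β : ℂ := b / (starRingEnd ℂ) a with hβdef
  have hβn : ‖β‖ = ‖b‖ / ‖a‖ := by rw [hβdef, norm_div, Complex.norm_conj]
  have hβc : ‖β‖ ≤ ‖b‖ / c := by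
    rw [hβn]
    exact div_le_div_of_nonneg_left (norm_nonneg b) hc ha
  have hβ : ‖β‖ ≤ 1 / 10 := by
    refine hβc.trans ?_
    rw [div_le_div_iff₀ hc (by norm_num)]
    linarith
  obtain ⟨l, hl1, hl2⟩ := lat_cover β (V p - v)
  set w : ℂ := l - (V p - v) with hw
  set R : ℂ → ℂ := fun ζ => V (p + ζ / a) - V p - (ζ + β * (starRingEnd ℂ) ζ) with hR
  have hℓ : L / c ^ 2 ≤ 1 / 100 := by
    rw [div_le_div_iff₀ (by positivity) (by norm_num)]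
    linarith
  have hℓ0 : 0 ≤ L / c ^ 2 := by positivity
  -- the Lipschitz bound
  have key : ∀ τ : ℝ, τ ≤ 2 → ∀ ζ ζ' : ℂ, ‖ζ‖ ≤ τ → ‖ζ'‖ ≤ τ →
      ‖R ζ - R ζ'‖ ≤ L / c ^ 2 * τ * ‖ζ - ζ'‖ := by
    intro τ hτ ζ ζ' hζ hζ'
    have hτ0 : 0 ≤ τ := (norm_nonneg ζ).trans hζ
    have ht : τ / ‖a‖ ≤ 4 / c := by
      calc τ / ‖a‖ ≤ τ / c := div_le_div_of_nonneg_left hτ0 hc ha
        _ ≤ 4 / c := by
            apply div_le_div_of_nonneg_right _ hc.le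
            linarith
    have hZ : ∀ z : ℂ, ‖z‖ ≤ τ → ‖(p + z / a) - p‖ ≤ τ / ‖a‖ := by
      intro z hz
      rw [add_sub_cancel_left, norm_div]
      exact div_le_div_of_nonneg_right hz hapos.le
    have h1 := lin_mvt hL hd hl ht (hZ ζ hζ) (hZ ζ' hζ')
    have h2 : (p + ζ / a) - (p + ζ' / a) = (ζ - ζ') / a := by ring
    rw [h2] at h1
    have h3 : a * ((ζ - ζ') / a) + b * (starRingEnd ℂ) ((ζ - ζ') / a) =
        (ζ - ζ') + β * (starRingEnd ℂ) (ζ - ζ') := by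
      rw [map_div₀, hβdef]
      field_simp
    have h4 : R ζ - R ζ' = V (p + ζ / a) - V (p + ζ' / a) -
        (a * ((ζ - ζ') / a) + b * (starRingEnd ℂ) ((ζ - ζ') / a)) := by
      rw [h3, map_sub]
      simp only [hR]
      ring
    rw [h4]
    refine h1.trans ?_
    rw [norm_div]
    have h5 : L * (τ / ‖a‖) * (‖ζ - ζ'‖ / ‖a‖) = L * τ * ‖ζ - ζ'‖ / ‖a‖ ^ 2 := by
      field_simp
    have h6 : L / c ^ 2 * τ * ‖ζ - ζ'‖ = L * τ * ‖ζ - ζ'‖ / c ^ 2 := by ring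
    rw [h5, h6]
    apply div_le_div_of_nonneg_left (by positivity) (by positivity)
    exact pow_le_pow_left₀ hc.le ha 2
  have hR0 : R 0 = 0 := by simp [hR]
  have hRn : ∀ ζ : ℂ, ‖ζ‖ ≤ 2 → ‖R ζ‖ ≤ L / c ^ 2 * ‖ζ‖ ^ 2 := by
    intro ζ hζ
    have h1 := key ‖ζ‖ hζ ζ 0 le_rfl (by simp)
    rw [hR0, sub_zero, sub_zero] at h1
    have h2 : L / c ^ 2 * ‖ζ‖ ^ 2 = L / c ^ 2 * ‖ζ‖ * ‖ζ‖ := by ring
    rw [h2]
    exact h1
  set T : ℂ → ℂ := fun ζ => LocC_Ai β (w - R ζ) with hT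
  have hAw : ‖LocC_Ai β w‖ ≤ 1 + 4 * ‖β‖ ^ 2 := LocC_Ai_norm2 hβ hl2
  have hβ2 : ‖β‖ ^ 2 ≤ 1 / 100 := by nlinarith [norm_nonneg β]
  have hTn : ∀ ζ : ℂ, ‖ζ‖ ≤ 2 → ‖T ζ‖ ≤ 1 + 4 * ‖β‖ ^ 2 + 10 / 9 * (L / c ^ 2 * ‖ζ‖ ^ 2) := by
    intro ζ hζ
    have h1 : T ζ = LocC_Ai β w - LocC_Ai β (R ζ) := by
      rw [LocC_Ai_sub]
    rw [h1]
    refine (norm_sub_le _ _).trans ?_
    have h2 := LocC_Ai_norm hβ (R ζ)
    have h3 := hRn ζ hζ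
    linarith
  have hmaps : Set.MapsTo T (Metric.closedBall 0 2) (Metric.closedBall 0 2) := by
    intro ζ hζ
    rw [mem_closedBall_zero_iff] at hζ ⊢
    have h1 := hTn ζ hζ
    have h2 : ‖ζ‖ ^ 2 ≤ 4 := by nlinarith [norm_nonneg ζ]
    have h3 : L / c ^ 2 * ‖ζ‖ ^ 2 ≤ 1 / 100 * 4 := by
      apply mul_le_mul hℓ h2 (by positivity) (by norm_num)
    linarith
  have hlip : ∀ ζ ∈ Metric.closedBall (0 : ℂ) 2, ∀ ζ' ∈ Metric.closedBall (0 : ℂ) 2,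
      dist (T ζ) (T ζ') ≤ (1 / 2 : NNReal) * dist ζ ζ' := by
    intro ζ hζ ζ' hζ'
    rw [mem_closedBall_zero_iff] at hζ hζ'
    rw [dist_eq_norm, dist_eq_norm]
    have h1 : T ζ - T ζ' = LocC_Ai β (R ζ' - R ζ) := by
      simp only [hT]
      rw [LocC_Ai_sub]
      congr 1
      ring
    rw [h1]
    have h2 := LocC_Ai_norm hβ (R ζ' - R ζ)
    have h3 := key 2 le_rfl ζ' ζ hζ' hζ
    have h4 : L / c ^ 2 * 2 * ‖ζ' - ζ‖ ≤ 1 / 100 * 2 * ‖ζ' - ζ‖ := by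
      apply mul_le_mul_of_nonneg_right _ (norm_nonneg _)
      linarith
    rw [norm_sub_rev ζ' ζ] at h3 h4
    have h5 := norm_nonneg (ζ - ζ')
    have h6 : (((1 / 2 : NNReal) : NNReal) : ℝ) = 1 / 2 := by norm_num
    rw [h6]
    linarith
  have hcontr : ContractingWith (1 / 2 : NNReal)
      (hmaps.restrict T (Metric.closedBall 0 2) (Metric.closedBall 0 2)) := by
    refine ⟨?_, ?_⟩
    · rw [← NNReal.coe_lt_coe]
      norm_num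
    · refine LipschitzWith.of_dist_le_mul fun x y => ?_
      exact hlip x.1 x.2 y.1 y.2
  obtain ⟨ζ, hζ, hfix, -, -⟩ := ContractingWith.exists_fixedPoint'
    (Metric.isClosed_closedBall.isComplete) hmaps hcontr (x := 0) (by simp) (edist_ne_top _ _)
  rw [mem_closedBall_zero_iff] at hζ
  have hfix' : LocC_Ai β (w - R ζ) = ζ := hfix
  have h1 := LocC_Ai_inv hβ (w - R ζ)
  rw [hfix'] at h1
  have hx := hTn ζ hζ
  have hTζ : T ζ = ζ := hfix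
  rw [hTζ] at hx
  refine ⟨p + ζ / a, ?_, ?_, ?_⟩
  · rw [add_sub_cancel_left, norm_div]
    calc ‖ζ‖ / ‖a‖ ≤ ‖ζ‖ / c := div_le_div_of_nonneg_left (norm_nonneg _) hc ha
      _ ≤ 4 / c := by
          apply div_le_div_of_nonneg_right _ hc.le
          linarith
  · have h2 : V (p + ζ / a) - v = l := by
      have h3 : R ζ = V (p + ζ / a) - V p - (ζ + β * (starRingEnd ℂ) ζ) := rfl
      rw [h3, hw] at h1
      linear_combination h1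
    rw [h2]
    exact hl1
  · rw [add_sub_cancel_left, norm_div, mul_div_cancel₀ _ hapos.ne']
    have h2 : ‖ζ‖ ^ 2 ≤ 4 := by nlinarith [norm_nonneg ζ]
    have h3 : L / c ^ 2 * ‖ζ‖ ^ 2 ≤ 1 / 100 * 4 := by
      apply mul_le_mul hℓ h2 (by positivity) (by norm_num)
    have h4 : ‖ζ‖ ≤ 11 / 10 := by linarith
    have h5 : ‖ζ‖ ^ 2 ≤ 121 / 100 := by nlinarith [norm_nonneg ζ]
    have h6 : L / c ^ 2 * ‖ζ‖ ^ 2 ≤ L / c ^ 2 * (121 / 100) :=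
      mul_le_mul_of_nonneg_left h5 hℓ0
    have h7 : ‖β‖ ^ 2 ≤ ‖b‖ ^ 2 / c ^ 2 := by
      rw [← div_pow]
      exact pow_le_pow_left₀ (norm_nonneg _) hβc 2
    have h8 : 4 * ‖b‖ ^ 2 / c ^ 2 = 4 * (‖b‖ ^ 2 / c ^ 2) := by ring
    have h9 : 5 * L / c ^ 2 = 5 * (L / c ^ 2) := by ring
    rw [h8, h9]
    linarith

end Pool.Agent.CAPU
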