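import Pool.Agent.Lib.MP_488b8a_co_U.Psi
import Pool.Agent.Lib.MP_488b8a_co_U.LinF
import Pool.Agent.Lib.MP_488b8a_co_U.Num3

/-! Project CAPU (MP_488b8a_co), module WD. -/

namespace Pool.Agent.CAPU

open Complex MeasureTheory

private theorem wd_inner (z v : ℂ) :
    ((2 * inner ℝ z v : ℝ) : ℂ) = (starRingEnd ℂ) z * v + z * (starRingEnd ℂ) v := by
  rw [Complex.inner]
  apply Complex.ext
  · simp; ring
  · simp; ring

private theorem wd_nsq (z : ℂ) : ((‖z‖ ^ 2 : ℝ) : ℂ) = z * (starRingEnd ℂ) z := by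
  rw [Complex.mul_conj, Complex.normSq_eq_norm_sq]

theorem W0_der (M : ℕ) {ζ : ℂ} (hζ : ζ ≠ 0) : HasFDerivAt (W0 M)
    (lin (nu M (‖ζ‖ ^ 2) : ℂ) (ζ ^ 2 * (psd M (‖ζ‖ ^ 2) : ℂ))) ζ := by
  have hs : 0 < ‖ζ‖ ^ 2 := by positivity
  have h1 : HasFDerivAt (fun z : ℂ => ‖z‖ ^ 2) (2 • (innerSL ℝ ζ)) ζ :=
    (hasStrictFDerivAt_norm_sq ζ).hasFDerivAt
  have h2 : HasFDerivAt (fun z : ℂ => psi M (‖z‖ ^ 2)) (psd M (‖ζ‖ ^ 2) • (2 • (innerSL ℝ ζ))) ζ := by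
    have hp : HasDerivAt (psi M) (psd M (‖ζ‖ ^ 2)) ((fun z : ℂ => ‖z‖ ^ 2) ζ) := psi_der M hs
    exact HasDerivAt.comp_hasFDerivAt ζ hp h1
  have h3 : HasFDerivAt (fun z : ℂ => ((psi M (‖z‖ ^ 2) : ℝ) : ℂ))
      (ofRealCLM.comp (psd M (‖ζ‖ ^ 2) • (2 • (innerSL ℝ ζ)))) ζ :=
    ofRealCLM.hasFDerivAt.comp ζ h2
  have h4 := (hasFDerivAt_id (𝕜 := ℝ) ζ).mul h3
  have h5 : W0 M = (id * fun z : ℂ => ((psi M (‖z‖ ^ 2) : ℝ) : ℂ)) := by
    funext z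
    rfl
  rw [h5]
  refine h4.congr_fderiv ?_
  ext v
  rw [lin_apply, nu_eq M hs]
  have h6 := wd_inner ζ v
  have h7 := wd_nsq ζ
  simp only [add_apply, smul_apply,
    ContinuousLinearMap.comp_apply, ofRealCLM_apply, innerSL_apply_apply, id_eq,
    ContinuousLinearMap.id_apply, smul_eq_mul, nsmul_eq_mul]
  push_cast at h6 h7 ⊢
  rw [h7]
  linear_combination ζ * (psd M (‖ζ‖ ^ 2) : ℂ) * h6

theorem W_der {D : Dat} (h : Zone D) {Z : ℂ} (hG : ∀ M ∈ MM D, ∀ j : ℤ, Z ≠ core D M j) :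
    HasFDerivAt (W D) (lin (aW D Z : ℂ) (bW D Z)) Z := by
  have key : ∀ M ∈ MM D, ∀ j ∈ JJ D,
      HasFDerivAt (fun Z : ℂ => W0 M ((cM D M : ℂ) * (Z - core D M j)))
        ((lin (nu M (‖(cM D M : ℂ) * (Z - core D M j)‖ ^ 2) : ℂ)
          (((cM D M : ℂ) * (Z - core D M j)) ^ 2 *
            (psd M (‖(cM D M : ℂ) * (Z - core D M j)‖ ^ 2) : ℂ))).comp
          (ContinuousLinearMap.mul ℝ ℂ (cM D M : ℂ))) Z := by
    intro M hM j _
    have hne : (cM D M : ℂ) * (Z - core D M j) ≠ 0 := by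
      apply mul_ne_zero
      · exact_mod_cast (cM_pos h hM).ne'
      · exact sub_ne_zero.mpr (hG M hM j)
    have hin : HasFDerivAt (fun Z : ℂ => (cM D M : ℂ) * (Z - core D M j))
        (ContinuousLinearMap.mul ℝ ℂ (cM D M : ℂ)) Z := by
      have h1 : HasFDerivAt (fun Z : ℂ => Z - core D M j) (ContinuousLinearMap.id ℝ ℂ) Z :=
        (hasFDerivAt_id Z).sub_const _
      have h2 := (ContinuousLinearMap.mul ℝ ℂ (cM D M : ℂ)).hasFDerivAt.comp Z h1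
      exact h2
    exact (W0_der M hne).comp Z hin
  have hsum := HasFDerivAt.fun_sum (fun M hM => HasFDerivAt.fun_sum (fun j hj => key M hM j hj))
  have hW : W D = fun Z : ℂ =>
      ∑ M ∈ MM D, ∑ j ∈ JJ D, W0 M ((cM D M : ℂ) * (Z - core D M j)) := rfl
  rw [hW]
  refine hsum.congr_fderiv ?_
  ext v
  rw [lin_apply]
  simp only [aW, bW, sum_apply, ContinuousLinearMap.comp_apply, lin_apply,
    ContinuousLinearMap.mul_apply', map_mul, Complex.conj_ofReal]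
  push_cast
  rw [Finset.sum_mul, Finset.sum_mul, ← Finset.sum_add_distrib]
  refine Finset.sum_congr rfl (fun M _ => ?_)
  rw [Finset.sum_mul, Finset.sum_mul, ← Finset.sum_add_distrib]
  refine Finset.sum_congr rfl (fun j _ => ?_)
  ring

end Pool.Agent.CAPU
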