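import Pool.Agent.Lib.MP_488b8a_co_U.Brn
import Pool.Agent.Lib.MP_488b8a_co_U.BDer
import Pool.Agent.Lib.MP_488b8a_co_U.WD

/-! Project CAPU (MP_488b8a_co), module Rep. -/

namespace Pool.Agent.CAPU

open Complex MeasureTheory

private theorem Rep_ne {D : Dat} (h : Zone D) {p : ℂ} (hW : p ∈ Win D) (hG : p ∈ Gd D) {Z : ℂ}
    (hZ : Z ∈ Metric.closedBall p (4 / cc D p.im)) {M : ℕ} (hM : M ∈ MM D) (j : ℤ) :
    Z ≠ core D M j := by
  intro hZc
  have h1 := hG M hM j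
  rw [Metric.mem_closedBall, dist_eq_norm, hZc, norm_sub_rev] at hZ
  have hk := k0_pos h
  have hcc := cc_pos h p.im
  have hcM := cM_pos h hM
  have hmc := (mc_win h hW.2.2.1 hW.2.2.2).1
  have hm1 := m1_ge h
  have hMm := (mem_MM.1 hM).2
  have h2 : cM D M * ‖p - core D M j‖ ≤ cM D M * (4 / cc D p.im) :=
    mul_le_mul_of_nonneg_left hZ hcM.le
  have h3 : cM D M * (4 / cc D p.im) ≤ 12 := by
    rw [mul_div_assoc', div_le_iff₀ hcc, cc_eq h]
    unfold cM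
    have h4 : (M : ℝ) - 1 / 2 ≤ 3 * mc D p.im := by linarith
    nlinarith [mul_le_mul_of_nonneg_left h4 hk.le]
  have h5 : (10 : ℝ) ^ 6 ≤ 12 := h1.trans (h2.trans h3)
  norm_num at h5

/-- the local representatives of `U` -/
theorem rep {D : Dat} (h : Zone D) {p : ℂ} (hW : p ∈ Win D) (hG : p ∈ Gd D) :
    ∃ V : ℂ → ℂ, ∀ Z ∈ Metric.closedBall p (4 / cc D p.im),
      HasFDerivAt V (lin (aa D Z : ℂ) (bb D Z)) Z ∧ V Z - U D Z ∈ Lam := by
  obtain ⟨VF, hVF⟩ := F_rep h hW hG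
  refine ⟨fun Z => B D Z + VF Z + W D Z, fun Z hZ => ⟨?_, ?_⟩⟩
  · have h1 := ((B_der h Z).add (hVF Z hZ).1).add
      (W_der h (Z := Z) fun M hM j => Rep_ne h hW hG hZ hM j)
    rw [lin_add, lin_add] at h1
    have e1 : ((cc D Z.im * (1 + mu D) : ℝ) : ℂ) + 0 + (aW D Z : ℂ) = (aa D Z : ℂ) := by
      unfold aa
      push_cast
      ring
    have e2 : ((b1 D - cc D Z.im * (1 + mu D) : ℝ) : ℂ) + bF D Z + bW D Z = bb D Z := rfl
    rw [e1, e2] at h1
    exact h1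
  · have h2 := (hVF Z hZ).2
    have e3 : B D Z + VF Z + W D Z - U D Z = VF Z - F D Z := by
      unfold U
      ring
    show B D Z + VF Z + W D Z - U D Z ∈ Lam
    rw [e3]
    exact h2

end Pool.Agent.CAPU
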