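import Pool.Agent.Lib.MP_488b8a_co_U.AvgC
import Pool.Agent.Lib.MP_488b8a_co_U.LinF

/-! Project CAPU (MP_488b8a_co), module Tile. -/

namespace Pool.Agent.CAPU

open Complex MeasureTheory

private def cel (R : ℝ) (m : ℤ × ℤ) : Set ℂ := {Z | ⌊2 * Z.re / R⌋ = m.1 ∧ ⌊2 * Z.im / R⌋ = m.2}

private theorem cel_meas (R : ℝ) (m : ℤ × ℤ) : MeasurableSet (cel R m) := by
  have h1 : Measurable (fun Z : ℂ => ⌊2 * Z.re / R⌋) :=
    Int.measurable_floor.comp ((Complex.measurable_re.const_mul 2).div_const R)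
  have h2 : Measurable (fun Z : ℂ => ⌊2 * Z.im / R⌋) :=
    Int.measurable_floor.comp ((Complex.measurable_im.const_mul 2).div_const R)
  exact (h1 (measurableSet_singleton m.1)).inter (h2 (measurableSet_singleton m.2))

private theorem cel_one {R x y : ℝ} (hR : 0 < R) {m : ℤ} (hx : ⌊2 * x / R⌋ = m)
    (hy : ⌊2 * y / R⌋ = m) : |x - y| ≤ R / 2 := by
  have h1 := Int.floor_le (2 * x / R)
  have h2 := Int.lt_floor_add_one (2 * x / R)
  have h3 := Int.floor_le (2 * y / R)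
  have h4 := Int.lt_floor_add_one (2 * y / R)
  rw [hx] at h1 h2
  rw [hy] at h3 h4
  rw [le_div_iff₀ hR] at h1 h3
  rw [div_lt_iff₀ hR] at h2 h4
  rw [abs_le]
  constructor <;> nlinarith

private theorem cel_close {R : ℝ} (hR : 0 < R) {m : ℤ × ℤ} {p q : ℂ} (hp : p ∈ cel R m)
    (hq : q ∈ cel R m) : q ∈ Metric.closedBall p R := by
  rw [Metric.mem_closedBall, dist_eq_norm]
  have h1 := cel_one hR hq.1 hp.1
  have h2 := cel_one hR hq.2 hp.2
  have h3 := Complex.norm_le_abs_re_add_abs_im (q - p)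
  rw [Complex.sub_re, Complex.sub_im] at h3
  linarith

private theorem cel_fin {A : Set ℂ} (hb : Bornology.IsBounded A) {R : ℝ} (hR : 0 < R) :
    ∃ T : Finset (ℤ × ℤ), ∀ Z ∈ A, (⌊2 * Z.re / R⌋, ⌊2 * Z.im / R⌋) ∈ T := by
  obtain ⟨C, hC⟩ := hb.exists_norm_le
  refine ⟨Finset.Icc ⌊2 * (-C) / R⌋ ⌊2 * C / R⌋ ×ˢ Finset.Icc ⌊2 * (-C) / R⌋ ⌊2 * C / R⌋, ?_⟩
  intro Z hZ
  have h0 := hC Z hZ
  have h1 := (Complex.abs_re_le_norm Z).trans h0
  have h2 := (Complex.abs_im_le_norm Z).trans h0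
  rw [abs_le] at h1 h2
  rw [Finset.mem_product, Finset.mem_Icc, Finset.mem_Icc]
  refine ⟨⟨?_, ?_⟩, ⟨?_, ?_⟩⟩
  · exact Int.floor_le_floor (by gcongr; exact h1.1)
  · exact Int.floor_le_floor (by gcongr; exact h1.2)
  · exact Int.floor_le_floor (by gcongr; exact h2.1)
  · exact Int.floor_le_floor (by gcongr; exact h2.2)

theorem tile {A : Set ℂ} (hA : MeasurableSet A) (hb : Bornology.IsBounded A) {R : ℝ} (hR : 0 < R)
    (U : ℂ → ℂ) (a : ℂ → ℝ) (b : ℂ → ℂ) (hab : ∀ Z ∈ A, ‖b Z‖ ≤ a Z)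
    (hint : IntegrableOn (fun Z => a Z ^ 2) A)
    (h : ∀ p ∈ A, ∃ V : ℂ → ℂ, Set.InjOn V (Metric.closedBall p R) ∧
      ∀ Z ∈ Metric.closedBall p R, HasFDerivAt V (lin (a Z : ℂ) (b Z)) Z ∧ V Z - U Z ∈ Lam) :
    ∃ v : ℂ, {Z ∈ A | U Z - v ∈ Lam}.Finite ∧
      (({Z ∈ A | U Z - v ∈ Lam}.ncard : ℕ) : ℝ) ≤ 2 / (3 * Real.sqrt 3) * ∫ Z in A, a Z ^ 2 := by
  classical
  obtain ⟨T, hT⟩ := cel_fin hb hR
  have hV : ∀ i : ℤ × ℤ, ∃ V : ℂ → ℂ, Set.InjOn V (A ∩ cel R i) ∧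
      ∀ Z ∈ A ∩ cel R i, HasFDerivAt V (lin (a Z : ℂ) (b Z)) Z ∧ V Z - U Z ∈ Lam := by
    intro i
    rcases Set.eq_empty_or_nonempty (A ∩ cel R i) with he | ⟨p, hp⟩
    · refine ⟨fun _ => 0, ?_, ?_⟩
      · rw [he]; exact Set.injOn_empty _
      · intro Z hZ; rw [he] at hZ; exact absurd hZ (Set.notMem_empty Z)
    · obtain ⟨V, hV1, hV2⟩ := h p hp.1
      refine ⟨V, hV1.mono fun q hq => cel_close hR hp.2 hq.2, ?_⟩
      intro Z hZ
      exact hV2 Z (cel_close hR hp.2 hZ.2)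
  choose V hV1 hV2 using hV
  have hmi : ∀ i, MeasurableSet (A ∩ cel R i) := fun i => hA.inter (cel_meas R i)
  have hinti : ∀ i, IntegrableOn (fun Z => a Z ^ 2) (A ∩ cel R i) := fun i =>
    hint.mono_set Set.inter_subset_left
  obtain ⟨v, hf, hv⟩ := avg_count T (fun i => A ∩ cel R i) V (fun _ Z => lin (a Z : ℂ) (b Z))
    (fun i _ => hmi i) (fun i _ Z hZ => (hV2 i Z hZ).1.hasFDerivWithinAt) (fun i _ => hV1 i)
    (fun i => ∫ Z in A ∩ cel R i, a Z ^ 2)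
    (fun i _ => integral_nonneg fun Z => sq_nonneg _)
    (by
      intro i _
      rw [ofReal_integral_eq_lintegral_ofReal (hinti i)
        (Filter.Eventually.of_forall fun Z => sq_nonneg _)]
      refine setLIntegral_mono' (hmi i) ?_
      intro Z hZ
      apply ENNReal.ofReal_le_ofReal
      rw [lin_det]
      have h1 := hab Z hZ.1
      have h2 := norm_nonneg (b Z)
      have h3 : ‖(a Z : ℂ)‖ = a Z := by
        rw [Complex.norm_real, Real.norm_eq_abs, abs_of_nonneg (h2.trans h1)]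
      rw [h3, abs_of_nonneg (by nlinarith)]
      nlinarith [sq_nonneg ‖b Z‖])
  have hset : {Z ∈ A | U Z - v ∈ Lam} =
      ⋃ i ∈ T, {Z ∈ A ∩ cel R i | V i Z - v ∈ Lam} := by
    ext Z
    simp only [Set.mem_setOf_eq, Set.mem_iUnion, exists_prop]
    constructor
    · rintro ⟨hZ, hU⟩
      refine ⟨(⌊2 * Z.re / R⌋, ⌊2 * Z.im / R⌋), hT Z hZ, ⟨hZ, rfl, rfl⟩, ?_⟩
      have h1 := (hV2 (⌊2 * Z.re / R⌋, ⌊2 * Z.im / R⌋) Z ⟨hZ, rfl, rfl⟩).2
      have h2 := Lam_add h1 hU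
      rw [sub_add_sub_cancel] at h2
      exact h2
    · rintro ⟨i, _, hZ, hU⟩
      refine ⟨hZ.1, ?_⟩
      have h1 := Lam_neg (hV2 i Z hZ).2
      have h2 := Lam_add h1 hU
      rw [neg_sub, sub_add_sub_cancel] at h2
      exact h2
  have hdis : (T : Set (ℤ × ℤ)).Pairwise (Function.onFun Disjoint fun i => A ∩ cel R i) := by
    intro i _ j _ hij
    rw [Function.onFun, Set.disjoint_left]
    intro Z hZ hZ'
    exact hij (Prod.ext (hZ.2.1.symm.trans hZ'.2.1) (hZ.2.2.symm.trans hZ'.2.2))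
  have hAU : A = ⋃ i ∈ T, A ∩ cel R i := by
    ext Z
    simp only [Set.mem_iUnion, exists_prop]
    constructor
    · intro hZ
      exact ⟨(⌊2 * Z.re / R⌋, ⌊2 * Z.im / R⌋), hT Z hZ, hZ, rfl, rfl⟩
    · rintro ⟨i, _, hZ⟩
      exact hZ.1
  have hint2 : ∫ Z in A, a Z ^ 2 = ∑ i ∈ T, ∫ Z in A ∩ cel R i, a Z ^ 2 := by
    conv_lhs => rw [hAU]
    exact integral_biUnion_finset T (fun i _ => hmi i) hdis (fun i _ => hinti i)
  refine ⟨v, ?_, ?_⟩
  · rw [hset]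
    exact T.finite_toSet.biUnion hf
  · rw [hint2]
    refine le_trans ?_ hv
    rw [hset]
    have hind : ∀ S : Finset (ℤ × ℤ),
        (⋃ i ∈ S, {Z ∈ A ∩ cel R i | V i Z - v ∈ Lam}).ncard ≤
          ∑ i ∈ S, ({Z ∈ A ∩ cel R i | V i Z - v ∈ Lam}.ncard) := by
      intro S
      induction S using Finset.induction_on with
      | empty => simp
      | insert j S hj ih =>
        rw [Finset.set_biUnion_insert, Finset.sum_insert hj]
        exact (Set.ncard_union_le _ _).trans (Nat.add_le_add_left ih _)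
    exact_mod_cast hind T

end Pool.Agent.CAPU
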