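import Pool.Agent.Lib.MP_488b8a_co_U.WTot

/-! Project CAPU (MP_488b8a_co), module UpA. -/

namespace Pool.Agent.CAPU

open Complex MeasureTheory

theorem aa_sq {D : Dat} (h : Zone D) {p : ℂ} (hW : p ∈ Win D) (hG : p ∈ Gd D) :
    aa D p ^ 2 ≤ cc D p.im ^ 2 + 10 ^ 7 * k0 D ^ 2 * (Real.log (m1 D) + Tc D p) := by
  have hm1 := m1_ge h
  have hk0 := k0_pos h
  have hL := log_m1 h
  have hc0 := cc_pos h p.im
  have hceq := cc_eq h p.im
  obtain ⟨hmlo, hmhi⟩ := mc_win h hW.2.2.1 hW.2.2.2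
  obtain ⟨hT0, hT1⟩ := Tc_bd h hW hG
  have haW := aW_up h hW hG
  have hmu0 := mu_nonneg h
  have hmu1 := mu_le h
  have hmudef : mu D * m1 D ^ 2 = 10 ^ 6 * Real.log (m1 D) := by
    unfold mu
    have h1 : m1 D ≠ 0 := by linarith
    field_simp
  have hLle : Real.log (m1 D) ≤ m1 D := by
    have h1 := Real.log_le_sub_one_of_pos (show 0 < m1 D by linarith)
    linarith
  have haa : aa D p = cc D p.im + (cc D p.im * mu D + aW D p) := by
    unfold aa; ring
  set c := cc D p.im with hc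
  set m := mc D p.im with hm
  set k := k0 D with hk
  set L := Real.log (m1 D) with hLd
  set T := Tc D p with hTd
  set M := m1 D with hM
  set u := mu D with hu
  have hmpos : 0 < m := by linarith
  have hR : ∃ R : ℝ, R * m ^ 2 = 100 * T + 15000 * (1 + L) ∧ |aW D p| ≤ c * R := by
    refine ⟨(100 * T + 15000 * (1 + L)) / m ^ 2, by field_simp, ?_⟩
    rw [mul_div_assoc] at haW
    exact haW
  obtain ⟨R, hR1, hR2⟩ := hR
  have hRle : R ≤ 1 / 10 := by
    have h1 : 100 * T + 15000 * (1 + L) ≤ 1 / 10 * m ^ 2 := by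
      have h2 : M ^ 2 / 9 ≤ m ^ 2 := by nlinarith
      have h3 : 15000 * (1 + L) ≤ 30000 * M := by linarith
      have h4 : 30000 * M ≤ M ^ 2 / 9 * (1 / 20) := by nlinarith
      nlinarith
    rw [← hR1] at h1
    exact le_of_mul_le_mul_right h1 (by positivity)
  have hR0 : 0 ≤ R := by
    by_contra hneg
    have h1 : R < 0 := lt_of_not_ge hneg
    have h2 : R * m ^ 2 < 0 := mul_neg_of_neg_of_pos h1 (by positivity)
    rw [hR1] at h2
    linarith
  have he : |c * u + aW D p| ≤ c * (u + R) := by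
    have h1 : |c * u + aW D p| ≤ |c * u| + |aW D p| := abs_add_le _ _
    rw [abs_of_nonneg (mul_nonneg hc0.le hmu0)] at h1
    calc |c * u + aW D p| ≤ c * u + c * R := by linarith
      _ = c * (u + R) := by ring
  have h1 : (c * u + aW D p) ^ 2 ≤ (c * (u + R)) ^ 2 := by
    rw [← sq_abs (c * u + aW D p)]
    exact pow_le_pow_left₀ (abs_nonneg _) he 2
  have h2 : c * u + aW D p ≤ c * (u + R) := (le_abs_self _).trans he
  have h3 : aa D p ^ 2 ≤ c ^ 2 + 3 * (c ^ 2 * (u + R)) := by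
    rw [haa]
    have h4 : (c * (u + R)) ^ 2 ≤ c ^ 2 * (u + R) := by
      have h5 : (u + R) ^ 2 ≤ u + R := by nlinarith
      calc (c * (u + R)) ^ 2 = c ^ 2 * (u + R) ^ 2 := by ring
        _ ≤ c ^ 2 * (u + R) := mul_le_mul_of_nonneg_left h5 (by positivity)
    have h6 : c * (c * u + aW D p) ≤ c * (c * (u + R)) := mul_le_mul_of_nonneg_left h2 hc0.le
    nlinarith
  have h4 : m ^ 2 * u ≤ 1.03 * 10 ^ 6 * L := by
    have h5 : m ^ 2 ≤ (1.01 * M) ^ 2 := pow_le_pow_left₀ hmpos.le hmhi 2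
    have h6 : m ^ 2 * u ≤ (1.01 * M) ^ 2 * u := mul_le_mul_of_nonneg_right h5 hmu0
    have h7 : (1.01 * M) ^ 2 * u = 1.0201 * (u * M ^ 2) := by ring
    rw [h7, hmudef] at h6
    linarith
  have h5 : c ^ 2 * (u + R) ≤ k ^ 2 * (1.03 * 10 ^ 6 * L + (100 * T + 15000 * (1 + L))) := by
    rw [hceq]
    have h6 : (k * m) ^ 2 * (u + R) = k ^ 2 * (m ^ 2 * u + R * m ^ 2) := by ring
    rw [h6, hR1]
    exact mul_le_mul_of_nonneg_left (by linarith) (by positivity)
  have h6 : k ^ 2 * (3 * (1.03 * 10 ^ 6 * L + (100 * T + 15000 * (1 + L)))) ≤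
      k ^ 2 * (10 ^ 7 * (L + T)) := by
    refine mul_le_mul_of_nonneg_left ?_ (by positivity)
    linarith
  calc aa D p ^ 2 ≤ c ^ 2 + 3 * (c ^ 2 * (u + R)) := h3
    _ ≤ c ^ 2 + 3 * (k ^ 2 * (1.03 * 10 ^ 6 * L + (100 * T + 15000 * (1 + L)))) := by linarith
    _ ≤ c ^ 2 + k ^ 2 * (10 ^ 7 * (L + T)) := by linarith
    _ = c ^ 2 + 10 ^ 7 * k ^ 2 * (L + T) := by ring

end Pool.Agent.CAPU
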