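import Pool.Agent.Lib.MP_488b8a_co_U.Key
import Pool.Agent.Lib.MP_488b8a_co_U.UpA
import Pool.Agent.Lib.MP_488b8a_co_U.Rep
import Pool.Agent.Lib.MP_488b8a_co_U.IntC
import Pool.Agent.Lib.MP_488b8a_co_U.IntT
import Pool.Agent.Lib.MP_488b8a_co_U.Tile
import Pool.Agent.Lib.MP_488b8a_co_U.LocC

/-! Project CAPU (MP_488b8a_co), module Cnt. -/

namespace Pool.Agent.CAPU

open Complex MeasureTheory

private theorem nu_meas (M : ℕ) : Measurable (nu M) := by
  unfold nu chi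
  have h1 : Measurable Real.log := Real.measurable_log
  fun_prop

private theorem aa_meas (D : Dat) : Measurable (aa D) := by
  unfold aa aW cc
  have h1 : ∀ M, Measurable (nu M) := nu_meas
  have hcosh : Measurable Real.cosh := Real.continuous_cosh.measurable
  have h2 : Measurable fun Z : ℂ => 1 / (D.ρ * Real.cosh Z.im) * (1 + mu D) := by
    have : Measurable fun Z : ℂ => Real.cosh Z.im := hcosh.comp Complex.measurable_im
    fun_prop
  refine h2.add ?_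
  refine Finset.measurable_fun_sum _ fun M _ => Finset.measurable_fun_sum _ fun j _ => ?_
  refine Measurable.const_mul ?_ _
  refine (h1 M).comp ?_
  fun_prop

private theorem fact {D : Dat} (h : Zone D) {p : ℂ} (hW : p ∈ Win D) (hG : p ∈ Gd D) :
    ‖bb D p‖ ≤ aa D p := by
  obtain ⟨L, hL0, hL, hl, h1, h2, h3⟩ := key h hW hG
  have := cc_pos h p.im
  have := norm_nonneg (bb D p)
  linarith

private theorem int_aa {D : Dat} (h : Zone D) :
    IntegrableOn (fun Z => aa D Z ^ 2) (Bx D ∩ Gd D) ∧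
    ∫ Z in Bx D ∩ Gd D, aa D Z ^ 2 ≤
      2 * Real.pi * (Real.tanh D.y₂ - Real.tanh D.y₁) / D.ρ ^ 2 + 10 * D.K ^ 2 +
        10 ^ 7 * k0 D ^ 2 * (60 * Real.log (m1 D)) := by
  obtain ⟨hi1, hb1⟩ := int_cc h
  obtain ⟨hi2, hb2⟩ := int_Tc h
  obtain ⟨hm, hbd, hvol⟩ := vol_Bx h
  have hA : MeasurableSet (Bx D ∩ Gd D) := hm.inter (Gd_meas D)
  have hlog := log_m1 h
  have hk0 := k0_pos h
  have hvA : volume (Bx D ∩ Gd D) ≤ ENNReal.ofReal 10 :=
    (measure_mono Set.inter_subset_left).trans hvol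
  have hvAfin : volume (Bx D ∩ Gd D) ≠ ⊤ := ne_top_of_le_ne_top ENNReal.ofReal_ne_top hvA
  have hic : IntegrableOn (fun Z : ℂ => cc D Z.im ^ 2) (Bx D ∩ Gd D) :=
    hi1.mono_set Set.inter_subset_left
  have hil : IntegrableOn (fun _ : ℂ => Real.log (m1 D)) (Bx D ∩ Gd D) := by
    rw [integrableOn_const_iff]
    right
    exact lt_top_iff_ne_top.2 hvAfin
  have hig : IntegrableOn (fun Z : ℂ => cc D Z.im ^ 2 +
      10 ^ 7 * k0 D ^ 2 * (Real.log (m1 D) + Tc D Z)) (Bx D ∩ Gd D) :=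
    hic.add ((hil.add hi2).const_mul _)
  have hle : ∀ Z ∈ Bx D ∩ Gd D, aa D Z ^ 2 ≤ cc D Z.im ^ 2 +
      10 ^ 7 * k0 D ^ 2 * (Real.log (m1 D) + Tc D Z) := fun Z hZ => aa_sq h (Bx_sub h hZ.1) hZ.2
  have hia : IntegrableOn (fun Z => aa D Z ^ 2) (Bx D ∩ Gd D) := by
    refine Integrable.mono' hig ((aa_meas D).pow_const 2).aestronglyMeasurable ?_
    rw [ae_restrict_iff' hA]
    refine Filter.Eventually.of_forall fun Z hZ => ?_
    rw [Real.norm_eq_abs, abs_of_nonneg (by positivity)]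
    exact hle Z hZ
  refine ⟨hia, ?_⟩
  have h1 : ∫ Z in Bx D ∩ Gd D, aa D Z ^ 2 ≤ ∫ Z in Bx D ∩ Gd D, (cc D Z.im ^ 2 +
      10 ^ 7 * k0 D ^ 2 * (Real.log (m1 D) + Tc D Z)) :=
    setIntegral_mono_on hia hig hA hle
  refine h1.trans ?_
  have h2 : ∫ Z in Bx D ∩ Gd D, (cc D Z.im ^ 2 +
      10 ^ 7 * k0 D ^ 2 * (Real.log (m1 D) + Tc D Z)) =
      (∫ Z in Bx D ∩ Gd D, cc D Z.im ^ 2) + 10 ^ 7 * k0 D ^ 2 *
        ((∫ _Z in Bx D ∩ Gd D, Real.log (m1 D)) + ∫ Z in Bx D ∩ Gd D, Tc D Z) := by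
    rw [← integral_add hil hi2, ← integral_const_mul]
    exact integral_add hic ((hil.add hi2).const_mul _)
  rw [h2]
  have h3 : ∫ Z in Bx D ∩ Gd D, cc D Z.im ^ 2 ≤ ∫ Z in Bx D, cc D Z.im ^ 2 := by
    apply setIntegral_mono_set hi1
    · exact Filter.Eventually.of_forall fun Z => by positivity
    · exact (Set.inter_subset_left).eventuallyLE
  have h4 : (∫ _Z in Bx D ∩ Gd D, Real.log (m1 D)) ≤ 10 * Real.log (m1 D) := by
    rw [setIntegral_const, smul_eq_mul]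
    have h5 : volume.real (Bx D ∩ Gd D) ≤ 10 := by
      rw [Measure.real]
      exact ENNReal.toReal_le_of_le_ofReal (by norm_num) hvA
    gcongr
  have h6 : 10 ^ 7 * k0 D ^ 2 * ((∫ _Z in Bx D ∩ Gd D, Real.log (m1 D)) +
      ∫ Z in Bx D ∩ Gd D, Tc D Z) ≤ 10 ^ 7 * k0 D ^ 2 * (60 * Real.log (m1 D)) := by
    apply mul_le_mul_of_nonneg_left _ (by positivity)
    linarith
  linarith

theorem count_pts {D : Dat} (h : Zone D) : ∃ v : ℂ, {Z ∈ Bx D ∩ Gd D | U D Z - v ∈ Lam}.Finite ∧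
    (({Z ∈ Bx D ∩ Gd D | U D Z - v ∈ Lam}.ncard : ℕ) : ℝ) ≤
      4 * Real.pi / (3 * Real.sqrt 3) * (Real.tanh D.y₂ - Real.tanh D.y₁) / D.ρ ^ 2 +
        10 ^ 9 * D.K ^ 2 * Real.log (m1 D) := by
  obtain ⟨hm, hbd, hvol⟩ := vol_Bx h
  have hA : MeasurableSet (Bx D ∩ Gd D) := hm.inter (Gd_meas D)
  obtain ⟨hia, hib⟩ := int_aa h
  have hc1 := cc_pos h D.y₁
  have hR : 0 < 3 / cc D D.y₁ := by positivity
  have hkap := kap_pos h
  have hk0 := k0_pos h
  have hK := K_pos h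
  have hKk := K_k0 h
  have hlog := log_m1 h
  obtain ⟨v, hv1, hv2⟩ := tile hA (hbd.subset Set.inter_subset_left) hR (U D) (aa D) (bb D)
    (fun Z hZ => fact h (Bx_sub h hZ.1) hZ.2) hia (by
      intro p hp
      have hW := Bx_sub h hp.1
      obtain ⟨V, hV⟩ := rep h hW hp.2
      obtain ⟨L, hL0, hL, hl, h1, h2, h3⟩ := key h hW hp.2
      have hcp := cc_pos h p.im
      have hsub : Metric.closedBall p (3 / cc D D.y₁) ⊆ Metric.closedBall p (4 / cc D p.im) := by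
        apply Metric.closedBall_subset_closedBall
        rw [div_le_div_iff₀ hc1 hcp]
        have h4 := mc_up h (y := p.im) hW.2.2.1
        rw [cc_eq h, cc_eq h]
        have h5 : mc D D.y₁ = m1 D := rfl
        rw [h5]
        have hm1 := m1_ge h
        nlinarith
      refine ⟨V, ?_, fun Z hZ => hV Z (hsub hZ)⟩
      have hinj : Set.InjOn V (Metric.closedBall p (4 / cc D p.im)) := by
        refine lin_inj (A := fun Z => (aa D Z : ℂ)) (B := bb D) (L := L) hL0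
          (fun Z hZ => (hV Z hZ).1) hl ?_
        have h4 : ‖((aa D p : ℝ) : ℂ)‖ = aa D p := by
          rw [Complex.norm_real, Real.norm_eq_abs, abs_of_nonneg (by linarith)]
        show ‖bb D p‖ + L * (4 / cc D p.im) < ‖((aa D p : ℝ) : ℂ)‖
        rw [h4]
        have h5 : L * (4 / cc D p.im) ≤ cc D p.im / 25 := by
          rw [mul_div_assoc', div_le_div_iff₀ hcp (by norm_num)]
          nlinarith
        linarith
      exact hinj.mono hsub)
  refine ⟨v, hv1, hv2.trans ?_⟩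
  have h3a : (1.7 : ℝ) ≤ Real.sqrt 3 := by
    apply Real.le_sqrt_of_sq_le
    norm_num
  have h3pos : 0 < Real.sqrt 3 := by positivity
  have hcoef : 2 / (3 * Real.sqrt 3) ≤ 1 := by
    rw [div_le_one (by positivity)]
    linarith
  have hcoef0 : 0 ≤ 2 / (3 * Real.sqrt 3) := by positivity
  have h1 : 2 / (3 * Real.sqrt 3) * ∫ Z in Bx D ∩ Gd D, aa D Z ^ 2 ≤
      2 / (3 * Real.sqrt 3) * (2 * Real.pi * (Real.tanh D.y₂ - Real.tanh D.y₁) / D.ρ ^ 2 +
        10 * D.K ^ 2 + 10 ^ 7 * k0 D ^ 2 * (60 * Real.log (m1 D))) := by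
    gcongr
  refine h1.trans ?_
  have h2 : 2 / (3 * Real.sqrt 3) * (2 * Real.pi * (Real.tanh D.y₂ - Real.tanh D.y₁) / D.ρ ^ 2 +
        10 * D.K ^ 2 + 10 ^ 7 * k0 D ^ 2 * (60 * Real.log (m1 D))) =
      4 * Real.pi / (3 * Real.sqrt 3) * (Real.tanh D.y₂ - Real.tanh D.y₁) / D.ρ ^ 2 +
      2 / (3 * Real.sqrt 3) * (10 * D.K ^ 2 + 10 ^ 7 * k0 D ^ 2 * (60 * Real.log (m1 D))) := by
    ring
  rw [h2]
  have hk : k0 D ≤ D.K := by
    unfold k0
    rw [div_le_iff₀ (by positivity)]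
    have h4 : Real.sqrt 3 ≤ 2 := by
      rw [Real.sqrt_le_left (by norm_num)]
      norm_num
    have h5 := Real.pi_gt_three
    nlinarith
  have h5 : k0 D ^ 2 ≤ D.K ^ 2 := by gcongr
  have h6 : 10 * (D.K : ℝ) ^ 2 + 10 ^ 7 * k0 D ^ 2 * (60 * Real.log (m1 D)) ≤
      10 ^ 9 * D.K ^ 2 * Real.log (m1 D) := by
    have h7 : 10 ^ 7 * k0 D ^ 2 * (60 * Real.log (m1 D)) ≤
      10 ^ 7 * D.K ^ 2 * (60 * Real.log (m1 D)) := by gcongr
    have h8 : (0 : ℝ) < (D.K : ℝ) ^ 2 := by positivity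
    nlinarith
  have h9 : 2 / (3 * Real.sqrt 3) * (10 * (D.K : ℝ) ^ 2 +
      10 ^ 7 * k0 D ^ 2 * (60 * Real.log (m1 D))) ≤ 1 * (10 ^ 9 * D.K ^ 2 * Real.log (m1 D)) := by
    gcongr
  linarith

/-- every good point of the zone is close to a point of the pattern -/
theorem cover_pts {D : Dat} (h : Zone D) (v : ℂ) {p : ℂ} (hB : p ∈ Win D) (hG : p ∈ Gd D) :
    ∃ q : ℂ, U D q - v ∈ Lam ∧ ‖p - q‖ ≤ 1 / cc D p.im := by
  obtain ⟨V, hV⟩ := rep h hB hG
  obtain ⟨L, hL0, hL, hl, h1, h2, h3⟩ := key h hB hG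
  have hcp := cc_pos h p.im
  have h4 : ‖((aa D p : ℝ) : ℂ)‖ = aa D p := by
    rw [Complex.norm_real, Real.norm_eq_abs, abs_of_nonneg (by linarith)]
  obtain ⟨q, hq1, hq2, hq3⟩ := loc_cover (V := V) (A := fun Z => (aa D Z : ℂ)) (B := bb D)
    (p := p) (v := v) (c := cc D p.im) (L := L) hcp hL0 (fun Z hZ => (hV Z hZ).1) hl
    (by show cc D p.im ≤ ‖((aa D p : ℝ) : ℂ)‖; rw [h4]; exact h1) h2 hL
  refine ⟨q, ?_, ?_⟩
  · have hqb : q ∈ Metric.closedBall p (4 / cc D p.im) := by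
      rw [Metric.mem_closedBall, dist_eq_norm]
      exact hq1
    have h5 := Lam_sub hq2 (hV q hqb).2
    have h6 : V q - v - (V q - U D q) = U D q - v := by ring
    rwa [h6] at h5
  · have h7 : aa D p * ‖q - p‖ ≤ 1 + 4 * ‖bb D p‖ ^ 2 / cc D p.im ^ 2 + 5 * L / cc D p.im ^ 2 := by
      have := hq3
      simp only [h4] at this
      exact this
    have haa : 0 < aa D p := by linarith
    rw [norm_sub_rev, le_div_iff₀ hcp]
    have h8 : cc D p.im * (aa D p * ‖q - p‖) ≤ aa D p := by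
      calc cc D p.im * (aa D p * ‖q - p‖) ≤
          cc D p.im * (1 + 4 * ‖bb D p‖ ^ 2 / cc D p.im ^ 2 + 5 * L / cc D p.im ^ 2) := by gcongr
        _ ≤ aa D p := h3
    by_contra hneg
    push Not at hneg
    have : aa D p * 1 < aa D p * (‖q - p‖ * cc D p.im) := by
      apply mul_lt_mul_of_pos_left hneg haa
    nlinarith

end Pool.Agent.CAPU
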