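import Pool.Agent.Lib.MP_488b8a_co_U.SinB

/-! Project CAPU (MP_488b8a_co), module CotL. -/

namespace Pool.Agent.CAPU

open Complex MeasureTheory

private theorem CotL_sin_le {z : ℂ} (hz : ‖z‖ ≤ 1) : ‖sin z‖ ≤ 2 * ‖z‖ := by
  have h1 : ‖exp (-z * I) - 1‖ ≤ 2 * ‖z‖ := by
    have := Complex.norm_exp_sub_one_le (x := -z * I) (by simpa using hz)
    simpa using this
  have h2 : ‖exp (z * I) - 1‖ ≤ 2 * ‖z‖ := by
    have := Complex.norm_exp_sub_one_le (x := z * I) (by simpa using hz)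
    simpa using this
  have e1 : sin z = ((exp (-z * I) - 1) - (exp (z * I) - 1)) * (I / 2) := by
    unfold Complex.sin
    ring
  rw [e1, norm_mul]
  have h3 : ‖(I / 2 : ℂ)‖ = 1 / 2 := by simp
  rw [h3]
  have h4 := norm_sub_le (exp (-z * I) - 1) (exp (z * I) - 1)
  linarith

private theorem CotL_cot_sub {w w' : ℂ} (h : sin w ≠ 0) (h' : sin w' ≠ 0) :
    cot w - cot w' = sin (w' - w) / (sin w * sin w') := by
  rw [Complex.cot_eq_cos_div_sin, Complex.cot_eq_cos_div_sin, Complex.sin_sub]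
  field_simp

private theorem CotL_one {w w' : ℂ} {s δ : ℝ} (hs : 0 < s) (h : s / 2 ≤ ‖sin w‖)
    (h' : s / 2 ≤ ‖sin w'‖) (hd : ‖w' - w‖ ≤ δ) (hδ : δ ≤ 1) :
    ‖cot w - cot w'‖ ≤ 8 * δ * (1 / s ^ 2) := by
  have n1 : 0 < ‖sin w‖ := lt_of_lt_of_le (by positivity) h
  have n2 : 0 < ‖sin w'‖ := lt_of_lt_of_le (by positivity) h'
  have hw : sin w ≠ 0 := norm_pos_iff.mp n1
  have hw' : sin w' ≠ 0 := norm_pos_iff.mp n2
  have hδ0 : 0 ≤ δ := (norm_nonneg _).trans hd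
  rw [CotL_cot_sub hw hw', norm_div, norm_mul, div_le_iff₀ (by positivity)]
  have h1 : ‖sin (w' - w)‖ ≤ 2 * δ := (CotL_sin_le (hd.trans hδ)).trans (by linarith)
  have h2 : s / 2 * (s / 2) ≤ ‖sin w‖ * ‖sin w'‖ := by
    apply mul_le_mul h h' (by positivity) n1.le
  have h3 : 8 * δ * (1 / s ^ 2) * (s / 2 * (s / 2)) = 2 * δ := by
    field_simp
    ring
  have h4 : 8 * δ * (1 / s ^ 2) * (s / 2 * (s / 2)) ≤
      8 * δ * (1 / s ^ 2) * (‖sin w‖ * ‖sin w'‖) :=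
    mul_le_mul_of_nonneg_left h2 (by positivity)
  linarith

theorem bF_lip {D : Dat} (h : Zone D) {p : ℂ} (hW : p ∈ Win D) (hG : p ∈ Gd D) {Z Z' : ℂ}
    (hZ : Z ∈ Metric.closedBall p (4 / cc D p.im))
    (hZ' : Z' ∈ Metric.closedBall p (4 / cc D p.im)) :
    ‖bF D Z - bF D Z'‖ ≤ 2 * k0 D * D.K * S2 D p * ‖Z - Z'‖ := by
  have hK := K_pos h
  have hk0 := k0_pos h
  have hcc := cc_pos h p.im
  -- the increment is small
  have hd : ‖Z - Z'‖ ≤ 8 / cc D p.im := by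
    have h1 : ‖Z - p‖ ≤ 4 / cc D p.im := by
      rw [← dist_eq_norm]
      exact hZ
    have h2 : ‖Z' - p‖ ≤ 4 / cc D p.im := by
      rw [← dist_eq_norm]
      exact hZ'
    calc ‖Z - Z'‖ = ‖(Z - p) - (Z' - p)‖ := by
          congr 1
          ring
      _ ≤ ‖Z - p‖ + ‖Z' - p‖ := norm_sub_le _ _
      _ ≤ 4 / cc D p.im + 4 / cc D p.im := add_le_add h1 h2
      _ = 8 / cc D p.im := by ring
  have hinv : 100 / cc D p.im ≤ kap D := inv_cc h hW.2.2.1 hW.2.2.2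
  have hKd : D.K / 2 * ‖Z - Z'‖ ≤ 1 := by
    have h1 : 8 / cc D p.im ≤ 8 / 100 * kap D := by
      have : 8 / cc D p.im = 8 / 100 * (100 / cc D p.im) := by ring
      rw [this]
      exact mul_le_mul_of_nonneg_left hinv (by norm_num)
    have h2 : D.K / 2 * ‖Z - Z'‖ ≤ D.K / 2 * (8 / 100 * kap D) :=
      mul_le_mul_of_nonneg_left (hd.trans h1) (by positivity)
    have h3 : (D.K : ℝ) / 2 * (8 / 100 * kap D) = 8 / 100 * Real.pi := by
      unfold kap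
      field_simp
    have h4 := Real.pi_lt_four
    linarith
  have hone : ∀ M ∈ MM D, ‖cot (wM D M Z) - cot (wM D M Z')‖ ≤
      4 * D.K * ‖Z - Z'‖ * (1 / ‖sin (wM D M p)‖ ^ 2) := by
    intro M hM
    obtain ⟨hs0, hs1⟩ := sin_ball h hW hG hM hZ
    obtain ⟨_, hs2⟩ := sin_ball h hW hG hM hZ'
    have hs : 0 < ‖sin (wM D M p)‖ := norm_pos_iff.mpr hs0
    have key : ∀ q : ℂ, ‖q / sin (wM D M p) - 1‖ ≤ 1 / 2 → ‖sin (wM D M p)‖ / 2 ≤ ‖q‖ := by
      intro q hq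
      have h1 : ‖(1 : ℂ)‖ ≤ ‖q / sin (wM D M p)‖ + ‖q / sin (wM D M p) - 1‖ := by
        calc ‖(1 : ℂ)‖ = ‖q / sin (wM D M p) - (q / sin (wM D M p) - 1)‖ := by
              congr 1
              ring
          _ ≤ _ := norm_sub_le _ _
      rw [norm_one] at h1
      have h2 : 1 / 2 ≤ ‖q‖ / ‖sin (wM D M p)‖ := by
        rw [← norm_div]
        linarith
      rw [le_div_iff₀ hs] at h2
      linarith
    have hww : ‖wM D M Z' - wM D M Z‖ = D.K / 2 * ‖Z - Z'‖ := by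
      have e1 : wM D M Z' - wM D M Z = ((D.K / 2 : ℝ) : ℂ) * (starRingEnd ℂ) (Z' - Z) := by
        unfold wM
        rw [map_sub]
        push_cast
        ring
      rw [e1, norm_mul, RCLike.norm_conj, Complex.norm_real,
        Real.norm_of_nonneg (by positivity), norm_sub_rev]
    have h5 := CotL_one hs (key _ hs1) (key _ hs2) hww.le hKd
    calc ‖cot (wM D M Z) - cot (wM D M Z')‖
        ≤ 8 * (D.K / 2 * ‖Z - Z'‖) * (1 / ‖sin (wM D M p)‖ ^ 2) := h5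
      _ = 4 * D.K * ‖Z - Z'‖ * (1 / ‖sin (wM D M p)‖ ^ 2) := by ring
  have e2 : bF D Z - bF D Z' = I * ((k0 D / 2 : ℝ) : ℂ) *
      ∑ M ∈ MM D, (cot (wM D M Z) - cot (wM D M Z')) := by
    unfold bF
    rw [Finset.sum_sub_distrib]
    ring
  rw [e2, norm_mul, norm_mul, Complex.norm_I, one_mul, Complex.norm_real,
    Real.norm_of_nonneg (by positivity)]
  have h6 : ‖∑ M ∈ MM D, (cot (wM D M Z) - cot (wM D M Z'))‖ ≤
      4 * D.K * ‖Z - Z'‖ * S2 D p := by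
    refine (norm_sum_le _ _).trans ?_
    unfold S2
    rw [Finset.mul_sum]
    exact Finset.sum_le_sum hone
  calc k0 D / 2 * ‖∑ M ∈ MM D, (cot (wM D M Z) - cot (wM D M Z'))‖
      ≤ k0 D / 2 * (4 * D.K * ‖Z - Z'‖ * S2 D p) :=
        mul_le_mul_of_nonneg_left h6 (by positivity)
    _ = 2 * k0 D * D.K * S2 D p * ‖Z - Z'‖ := by ring

end Pool.Agent.CAPU
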