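import Pool.Agent.Lib.MP_488b8a_co_U.Defs

/-! Project CAPU (MP_488b8a_co), module SinId. -/

namespace Pool.Agent.CAPU

open Complex MeasureTheory

private lemma sinId_re (a b : ℝ) : ((a : ℂ) + (b : ℂ) * I).re = a ∧ ((a : ℂ) + (b : ℂ) * I).im = b := by
  constructor <;> simp

private lemma sinId_sin_re_im (w : ℂ) :
    (sin w).re = Real.sin w.re * Real.cosh w.im ∧ (sin w).im = Real.cos w.re * Real.sinh w.im := by
  have h : sin w = ((Real.sin w.re * Real.cosh w.im : ℝ) : ℂ)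
      + ((Real.cos w.re * Real.sinh w.im : ℝ) : ℂ) * I := by
    rw [Complex.sin_eq]; push_cast; ring
  rw [h]
  exact sinId_re _ _

private lemma sinId_cos_re_im (w : ℂ) :
    (cos w).re = Real.cos w.re * Real.cosh w.im ∧ (cos w).im = -(Real.sin w.re * Real.sinh w.im) := by
  have h : cos w = ((Real.cos w.re * Real.cosh w.im : ℝ) : ℂ)
      + ((-(Real.sin w.re * Real.sinh w.im) : ℝ) : ℂ) * I := by
    rw [Complex.cos_eq]; push_cast; ring
  rw [h]
  exact sinId_re _ _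

theorem norm_sin_sq (w : ℂ) : ‖sin w‖ ^ 2 = Real.sin w.re ^ 2 + Real.sinh w.im ^ 2 := by
  rw [Complex.sq_norm, Complex.normSq_apply, (sinId_sin_re_im w).1, (sinId_sin_re_im w).2]
  have h1 := Real.cosh_sq w.im
  have h2 := Real.sin_sq_add_cos_sq w.re
  nlinarith [h1, h2, mul_comm (Real.sin w.re ^ 2) (Real.cosh w.im ^ 2),
    congrArg (fun t => Real.sin w.re ^ 2 * t) h1, congrArg (fun t => t * Real.sinh w.im ^ 2) h2]

private lemma sinId_norm_cos_sq (w : ℂ) :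
    ‖cos w‖ ^ 2 = Real.cos w.re ^ 2 + Real.sinh w.im ^ 2 := by
  rw [Complex.sq_norm, Complex.normSq_apply, (sinId_cos_re_im w).1, (sinId_cos_re_im w).2]
  have h1 := Real.cosh_sq w.im
  have h2 := Real.sin_sq_add_cos_sq w.re
  nlinarith [h1, h2, congrArg (fun t => Real.cos w.re ^ 2 * t) h1,
    congrArg (fun t => t * Real.sinh w.im ^ 2) h2]

theorem cot_sub_I {w : ℂ} (h : sin w ≠ 0) : ‖cot w - I‖ = Real.exp w.im / ‖sin w‖ := by
  have h1 : cot w - I = exp (-(w * I)) / sin w := by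
    rw [Complex.cot_eq_cos_div_sin, eq_div_iff h, sub_mul, div_mul_cancel₀ _ h]
    have := Complex.exp_mul_I (-w)
    rw [neg_mul] at this
    rw [this, Complex.cos_neg, Complex.sin_neg]
    ring
  rw [h1, norm_div, Complex.norm_exp]
  congr 2
  simp

theorem cot_add_I {w : ℂ} (h : sin w ≠ 0) : ‖cot w + I‖ = Real.exp (-w.im) / ‖sin w‖ := by
  have h1 : cot w + I = exp (w * I) / sin w := by
    rw [Complex.cot_eq_cos_div_sin, eq_div_iff h, add_mul, div_mul_cancel₀ _ h,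
      Complex.exp_mul_I]
    ring
  rw [h1, norm_div, Complex.norm_exp]
  congr 2
  simp

theorem sin_lower {w : ℂ} {n : ℤ} (h : |w.re - n * Real.pi| ≤ Real.pi / 2) :
    2 / Real.pi * ‖w - n * Real.pi‖ ≤ ‖sin w‖ := by
  have hpi := Real.pi_pos
  have hpi3 := Real.pi_gt_three
  have hk : (0 : ℝ) < 2 / Real.pi := by positivity
  have hk1 : 2 / Real.pi ≤ 1 := by
    rw [div_le_one hpi]; linarith
  have h1 : 2 / Real.pi * |w.re - n * Real.pi| ≤ |Real.sin w.re| := by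
    have h2 := Real.mul_abs_le_abs_sin h
    have h3 : |Real.sin (w.re - n * Real.pi)| = |Real.sin w.re| := by
      rw [Real.sin_sub_int_mul_pi, abs_mul, abs_zpow, abs_neg, abs_one, one_zpow, one_mul]
    rwa [h3] at h2
  have h4 : |w.im| ≤ |Real.sinh w.im| := by
    rw [Real.abs_sinh]
    exact Real.self_le_sinh_iff.2 (abs_nonneg _)
  have h5 : 2 / Real.pi * |w.im| ≤ |Real.sinh w.im| :=
    le_trans (by nlinarith [abs_nonneg w.im]) h4
  have h6 : (2 / Real.pi * ‖w - n * Real.pi‖) ^ 2 ≤ ‖sin w‖ ^ 2 := by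
    rw [norm_sin_sq, mul_pow, Complex.sq_norm, Complex.normSq_apply]
    have e1 : (w - n * Real.pi : ℂ).re = w.re - n * Real.pi := by simp
    have e2 : (w - n * Real.pi : ℂ).im = w.im := by simp
    rw [e1, e2]
    have a1 : (2 / Real.pi * |w.re - n * Real.pi|) ^ 2 ≤ |Real.sin w.re| ^ 2 :=
      pow_le_pow_left₀ (by positivity) h1 2
    have a2 : (2 / Real.pi * |w.im|) ^ 2 ≤ |Real.sinh w.im| ^ 2 :=
      pow_le_pow_left₀ (by positivity) h5 2
    rw [mul_pow, sq_abs, sq_abs] at a1 a2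
    nlinarith [a1, a2]
  exact le_of_sq_le_sq h6 (norm_nonneg _)
where
  le_of_sq_le_sq {a b : ℝ} (h : a ^ 2 ≤ b ^ 2) (hb : 0 ≤ b) : a ≤ b :=
    abs_le_of_sq_le_sq' h hb |>.2

theorem cot_le {w : ℂ} (h : sin w ≠ 0) : ‖cot w‖ ≤ 1 + 1 / ‖sin w‖ := by
  have hs : 0 < ‖sin w‖ := norm_pos_iff.2 h
  rw [Complex.cot_eq_cos_div_sin, norm_div]
  have h1 : ‖cos w‖ ≤ ‖sin w‖ + 1 := by
    have h2 : ‖cos w‖ ^ 2 ≤ (‖sin w‖ + 1) ^ 2 := by
      rw [sinId_norm_cos_sq]
      have h3 := norm_sin_sq w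
      have h4 := Real.sin_sq_add_cos_sq w.re
      nlinarith [sq_nonneg (Real.sin w.re)]
    exact (abs_le_of_sq_le_sq' h2 (by positivity)).2
  rw [div_le_iff₀ hs]
  have h5 : (1 + 1 / ‖sin w‖) * ‖sin w‖ = ‖sin w‖ + 1 := by
    field_simp
  rw [h5]
  exact h1

end Pool.Agent.CAPU
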