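import Pool.Agent.Lib.MP_488b8a_co_U.Sep
import Pool.Agent.Lib.MP_488b8a_co_U.SinId

/-! Project CAPU (MP_488b8a_co), module CotS. -/

namespace Pool.Agent.CAPU

open Complex MeasureTheory

open Classical in
private theorem cotS_count {D : Dat} (h : Zone D) {x : ℝ} (h1 : mc D D.y₂ ≤ x) (h2 : x ≤ m1 D) :
    |((⌊mc D D.y₂ + 1 / 2⌋ : ℤ) : ℝ) +
      (((MM D).filter (fun M : ℕ => (M : ℝ) - 1 / 2 < x)).card : ℝ) - x| ≤ 1 := by
  have hm2 : 0 ≤ mc D D.y₂ + 1 / 2 := by
    have := h.hm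
    linarith
  have hset : (MM D).filter (fun M : ℕ => (M : ℝ) - 1 / 2 < x) =
      Finset.Ioo ⌊mc D D.y₂ + 1 / 2⌋₊ ⌈x + 1 / 2⌉₊ := by
    ext M
    rw [Finset.mem_filter, mem_MM, Finset.mem_Ioo, Nat.floor_lt hm2, Nat.lt_ceil]
    constructor
    · rintro ⟨⟨a, b⟩, c⟩
      constructor <;> linarith
    · rintro ⟨a, b⟩
      refine ⟨⟨by linarith, by linarith⟩, by linarith⟩
  rw [hset, Nat.card_Ioo]
  have hfl : ((⌊mc D D.y₂ + 1 / 2⌋ : ℤ) : ℝ) = (⌊mc D D.y₂ + 1 / 2⌋₊ : ℝ) := by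
    exact (natCast_floor_eq_intCast_floor hm2).symm
  rw [hfl]
  set a : ℕ := ⌊mc D D.y₂ + 1 / 2⌋₊ with ha
  set b : ℕ := ⌈x + 1 / 2⌉₊ with hb
  have ha1 : (a : ℝ) ≤ mc D D.y₂ + 1 / 2 := Nat.floor_le hm2
  have ha2 : mc D D.y₂ + 1 / 2 < a + 1 := Nat.lt_floor_add_one _
  have hb1 : x + 1 / 2 ≤ b := Nat.le_ceil _
  have hb2 : (b : ℝ) < x + 1 / 2 + 1 := Nat.ceil_lt_add_one (by linarith)
  rcases Nat.lt_or_ge a b with hab | hab
  · have e : ((b - a - 1 : ℕ) : ℝ) = b - a - 1 := by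
      have h3 : b - a - 1 + (a + 1) = b := by omega
      have h4 : ((b - a - 1 : ℕ) : ℝ) + (a + 1) = b := by exact_mod_cast h3
      linarith
    rw [e, abs_le]
    constructor <;> linarith
  · have e : b - a - 1 = 0 := by omega
    rw [e, abs_le]
    have h5 : (b : ℝ) ≤ a := by exact_mod_cast hab
    push_cast
    constructor <;> linarith

open Classical in
private theorem cotS_P {D : Dat} (h : Zone D) {Z : ℂ} (hW : Z ∈ Win D) :
    |((⌊mc D D.y₂ + 1 / 2⌋ : ℤ) : ℝ) +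
      (((MM D).filter (fun M : ℕ => Z.im < yM D M)).card : ℝ) - mc D Z.im| ≤ 2 := by
  obtain ⟨-, -, hy1, hy2⟩ := hW
  have hkap := kap_pos h
  have hkm := kap_m1 h
  have hpi := Real.pi_lt_d2
  have hm1 : 0 ≤ m1 D := le_trans (by norm_num) (m1_ge h)
  have h12 := h.h12
  have h0 := h.h0
  have hm12 : mc D D.y₂ ≤ m1 D := (mc_anti h h0 h12).le
  by_cases hc2 : D.y₂ < Z.im
  · have hP : (MM D).filter (fun M : ℕ => Z.im < yM D M) =
        (MM D).filter (fun M : ℕ => (M : ℝ) - 1 / 2 < mc D D.y₂) := by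
      ext M
      rw [Finset.mem_filter, Finset.mem_filter]
      constructor
      · rintro ⟨a, b⟩
        exact absurd ((yM_mem h a).2.trans hc2) (not_lt.2 b.le)
      · rintro ⟨a, b⟩
        exact absurd (mem_MM.1 a).1 (not_lt.2 b.le)
    rw [hP]
    have e1 := cotS_count h (le_refl (mc D D.y₂)) hm12
    have e2 := mc_lip h (y := D.y₂) (y' := Z.im) (by linarith) hy1
    have e3 : |D.y₂ - Z.im| ≤ kap D := by
      rw [abs_le]
      constructor <;> linarith
    have e4 : 1.1 * m1 D * |D.y₂ - Z.im| ≤ 1.1 * m1 D * kap D :=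
      mul_le_mul_of_nonneg_left e3 (by positivity)
    rw [abs_le] at e1 e2 ⊢
    constructor <;> nlinarith
  · rw [not_lt] at hc2
    by_cases hc1 : Z.im < D.y₁
    · have hP : (MM D).filter (fun M : ℕ => Z.im < yM D M) =
          (MM D).filter (fun M : ℕ => (M : ℝ) - 1 / 2 < m1 D) := by
        ext M
        rw [Finset.mem_filter, Finset.mem_filter]
        constructor
        · rintro ⟨a, -⟩
          exact ⟨a, (mem_MM.1 a).2⟩
        · rintro ⟨a, -⟩
          exact ⟨a, hc1.trans (yM_mem h a).1⟩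
      rw [hP]
      have e1 := cotS_count h hm12 (le_refl (m1 D))
      have e2 := mc_lip h (y := D.y₁) (y' := Z.im) (by linarith) hy1
      have e3 : |D.y₁ - Z.im| ≤ kap D := by
        rw [abs_le]
        constructor <;> linarith
      have e4 : 1.1 * m1 D * |D.y₁ - Z.im| ≤ 1.1 * m1 D * kap D :=
        mul_le_mul_of_nonneg_left e3 (by positivity)
      have e5 : mc D D.y₁ = m1 D := rfl
      rw [e5] at e2
      rw [abs_le] at e1 e2 ⊢
      constructor <;> nlinarith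
    · rw [not_lt] at hc1
      have hZ0 : 0 ≤ Z.im := h0.trans hc1
      have hP : (MM D).filter (fun M : ℕ => Z.im < yM D M) =
          (MM D).filter (fun M : ℕ => (M : ℝ) - 1 / 2 < mc D Z.im) := by
        ext M
        rw [Finset.mem_filter, Finset.mem_filter]
        constructor
        · rintro ⟨a, b⟩
          refine ⟨a, ?_⟩
          rw [← mc_yM h a]
          exact mc_anti h hZ0 b
        · rintro ⟨a, b⟩
          refine ⟨a, ?_⟩
          rw [← mc_yM h a] at b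
          by_contra hc
          rw [not_lt] at hc
          rcases hc.lt_or_eq with h6 | h6
          · have h7 := mc_anti h (h0.trans (yM_mem h a).1.le) h6
            linarith
          · rw [h6] at b
            exact lt_irrefl _ b
      rw [hP]
      have h8 : mc D D.y₂ ≤ mc D Z.im := by
        rcases hc2.lt_or_eq with h9 | h9
        · exact (mc_anti h hZ0 h9).le
        · rw [h9]
      have h10 : mc D Z.im ≤ m1 D := by
        rcases hc1.lt_or_eq with h9 | h9
        · exact (mc_anti h h0 h9).le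
        · rw [← h9]
          exact le_refl (m1 D)
      have e1 := cotS_count h h8 h10
      linarith

private theorem cotS_term {D : Dat} (h : Zone D) {Z : ℂ} {M : ℕ}
    (hs : sin (wM D M Z) ≠ 0) :
    ‖I * cot (wM D M Z) - (if Z.im < yM D M then (1 : ℂ) else -1)‖ =
      Real.exp (-|(wM D M Z).im|) * (1 / ‖sin (wM D M Z)‖) := by
  have hK := K_pos h
  have him := wM_im (D := D) M Z
  split_ifs with hlt
  · have h1 : 0 ≤ (wM D M Z).im := by
      rw [him]
      exact mul_nonneg (by positivity) (by linarith)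
    have e : I * cot (wM D M Z) - 1 = I * (cot (wM D M Z) + I) := by
      rw [mul_add, I_mul_I]
      ring
    rw [e, norm_mul, norm_I, one_mul, cot_add_I hs, abs_of_nonneg h1]
    ring
  · have h1 : (wM D M Z).im ≤ 0 := by
      rw [him]
      exact mul_nonpos_of_nonneg_of_nonpos (by positivity) (by linarith)
    have e : I * cot (wM D M Z) - -1 = I * (cot (wM D M Z) - I) := by
      rw [mul_sub, I_mul_I]
    rw [e, norm_mul, norm_I, one_mul, cot_sub_I hs, abs_of_nonpos h1, neg_neg]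
    ring

open Classical in
private theorem cotS_sign {D : Dat} {Z : ℂ} :
    ∑ M ∈ MM D, (if Z.im < yM D M then (1 : ℂ) else -1) =
      2 * (((MM D).filter (fun M : ℕ => Z.im < yM D M)).card : ℂ) - ((MM D).card : ℂ) := by
  have h1 : ∀ M ∈ MM D, (if Z.im < yM D M then (1 : ℂ) else -1) =
      2 * (if Z.im < yM D M then (1 : ℂ) else 0) - 1 := by
    intro M _
    split_ifs <;> norm_num
  rw [Finset.sum_congr rfl h1, Finset.sum_sub_distrib, ← Finset.mul_sum, Finset.sum_boole]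
  simp

theorem bF_bound {D : Dat} (h : Zone D) {Z : ℂ} (hW : Z ∈ Win D)
    (hs : ∀ M ∈ MM D, sin (wM D M Z) ≠ 0) :
    ‖((b1 D - cc D Z.im : ℝ) : ℂ) + bF D Z‖ ≤ k0 D * (2 + Real.sqrt (S2 D Z)) := by
  classical
  have hk0 := k0_pos h
  set P : ℕ := ((MM D).filter (fun M : ℕ => Z.im < yM D M)).card with hP
  have hcount := cotS_P h hW
  set err : ℂ := ∑ M ∈ MM D, (I * cot (wM D M Z) - (if Z.im < yM D M then (1 : ℂ) else -1))
    with herr
  have hsum : ∑ M ∈ MM D, I * cot (wM D M Z) = err + (2 * (P : ℂ) - ((MM D).card : ℂ)) := by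
    rw [herr, Finset.sum_sub_distrib, cotS_sign]
    ring
  have hbF : bF D Z = ((k0 D / 2 : ℝ) : ℂ) * (err + (2 * (P : ℂ) - ((MM D).card : ℂ))) := by
    rw [← hsum, ← Finset.mul_sum, bF]
    ring
  have hmain : ((b1 D - cc D Z.im : ℝ) : ℂ) + bF D Z =
      ((k0 D * (((⌊mc D D.y₂ + 1 / 2⌋ : ℤ) : ℝ) + (P : ℝ) - mc D Z.im) : ℝ) : ℂ) +
        ((k0 D / 2 : ℝ) : ℂ) * err := by
    rw [hbF, b1, cc_eq h]
    push_cast
    ring
  have herr1 : ‖err‖ ≤ ∑ M ∈ MM D, Real.exp (-|(wM D M Z).im|) * (1 / ‖sin (wM D M Z)‖) := by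
    rw [herr]
    refine (norm_sum_le _ _).trans (le_of_eq ?_)
    exact Finset.sum_congr rfl fun M hM => cotS_term h (hs M hM)
  have hcs := Real.sum_mul_le_sqrt_mul_sqrt (MM D) (fun M => Real.exp (-|(wM D M Z).im|))
    (fun M => 1 / ‖sin (wM D M Z)‖)
  have h3 : ∑ M ∈ MM D, Real.exp (-|(wM D M Z).im|) ^ 2 ≤ 3 := by
    refine le_trans (le_of_eq ?_) (sum_exp h hW)
    refine Finset.sum_congr rfl fun M _ => ?_
    rw [← Real.exp_nat_mul]
    congr 1
    push_cast
    ring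
  have h4 : ∑ M ∈ MM D, (1 / ‖sin (wM D M Z)‖) ^ 2 = S2 D Z := by
    rw [S2]
    refine Finset.sum_congr rfl fun M _ => ?_
    rw [div_pow, one_pow]
  have h5 : Real.sqrt (∑ M ∈ MM D, Real.exp (-|(wM D M Z).im|) ^ 2) ≤ 2 := by
    rw [Real.sqrt_le_left (by norm_num)]
    linarith
  have h6 : ‖err‖ ≤ 2 * Real.sqrt (S2 D Z) := by
    refine herr1.trans (hcs.trans ?_)
    rw [h4]
    exact mul_le_mul_of_nonneg_right h5 (Real.sqrt_nonneg _)
  rw [hmain]
  refine (norm_add_le _ _).trans ?_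
  have h7 : ‖((k0 D * (((⌊mc D D.y₂ + 1 / 2⌋ : ℤ) : ℝ) + (P : ℝ) - mc D Z.im) : ℝ) : ℂ)‖ ≤
      k0 D * 2 := by
    rw [norm_real, Real.norm_eq_abs, abs_mul, abs_of_pos hk0]
    exact mul_le_mul_of_nonneg_left hcount hk0.le
  have h8 : ‖((k0 D / 2 : ℝ) : ℂ) * err‖ ≤ k0 D / 2 * (2 * Real.sqrt (S2 D Z)) := by
    rw [norm_mul, norm_real, Real.norm_eq_abs, abs_of_pos (by positivity)]
    exact mul_le_mul_of_nonneg_left h6 (by positivity)
  calc _ ≤ k0 D * 2 + k0 D / 2 * (2 * Real.sqrt (S2 D Z)) := add_le_add h7 h8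
    _ = _ := by ring

end Pool.Agent.CAPU
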