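import Mathlib

/-! Project CAPU (MP_488b8a_co): definitions.

Mercator coordinate `Z = φ + i y`, point of the sphere `Sp Z`. In a zone `y₁ ≤ y ≤ y₂` the centres of
the caps are the solutions of `U Z - v ∈ Lam` (hexagonal lattice of circumradius one). `U = B + F + W`:
`B` stretches the parallels, `F` is a sum of logarithms of sines (arrays of dislocations on the
parallels `yM M`, `M ∈ MM`), `W` is a radial correction near the cores. `aa` and `bb` are the two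
components of the derivative of `U`. -/

namespace Pool.Agent.CAPU

open Complex MeasureTheory

noncomputable section

/-- the hexagonal lattice whose Delaunay triangles have circumradius one -/
def Lam : Set ℂ := {w | ∃ j k : ℤ, w = ⟨Real.sqrt 3 * (j + k / 2), 3 / 2 * k⟩}

/-- the real-linear map `v ↦ a v + b conj v` -/
def lin (a b : ℂ) : ℂ →L[ℝ] ℂ :=
  ContinuousLinearMap.mul ℝ ℂ a + (ContinuousLinearMap.mul ℝ ℂ b).comp (conjCLE : ℂ →L[ℝ] ℂ)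

/-- point of the unit sphere with Mercator coordinate `Z` -/
def Sp (Z : ℂ) : EuclideanSpace ℝ (Fin 3) :=
  !₂[Real.cos Z.re / Real.cosh Z.im, Real.sin Z.re / Real.cosh Z.im, Real.tanh Z.im]

/-- data: lattice scale, number of cells on a parallel, the two ends of the zone -/
structure Dat where
  ρ : ℝ
  K : ℕ
  y₁ : ℝ
  y₂ : ℝ

variable (D : Dat)

/-- width of a cell -/
def kap : ℝ := 2 * Real.pi / D.K

def k0 : ℝ := Real.sqrt 3 * D.K / (2 * Real.pi)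

/-- number of lattice units per unit of the Mercator plane -/
def cc (y : ℝ) : ℝ := 1 / (D.ρ * Real.cosh y)

/-- ideal number of columns in a cell -/
def mc (y : ℝ) : ℝ := cc D y / k0 D

def m1 : ℝ := mc D D.y₁

/-- height of the interface between `M` and `M - 1` columns -/
def yM (M : ℕ) : ℝ := Real.arsinh (Real.sqrt ((1 / (D.ρ * k0 D * (M - 1 / 2))) ^ 2 - 1))

/-- the interfaces of the zone -/
def MM : Finset ℕ := by
  classical
  exact Finset.filter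
      (fun M : ℕ => mc D D.y₂ < (M : ℝ) - 1 / 2 ∧ (M : ℝ) - 1 / 2 < m1 D)
      (Finset.range (⌈m1 D⌉₊ + 2))

def JJ : Finset ℤ := Finset.Icc (-2) (D.K + 2)

/-- uniform compression -/
def mu : ℝ := 10 ^ 6 * Real.log (m1 D) / m1 D ^ 2

def b1 : ℝ := k0 D * (⌊mc D D.y₂ + 1 / 2⌋ + (MM D).card / 2)

/-- scale at an interface -/
def cM (M : ℕ) : ℝ := k0 D * (M - 1 / 2)

/-- the cores of the dislocations -/
def core (M : ℕ) (j : ℤ) : ℂ := ⟨kap D * j, yM D M⟩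

def wM (M : ℕ) (Z : ℂ) : ℂ := D.K / 2 * ((starRingEnd ℂ) Z + I * yM D M)

/-- support radius of the radial correction, in lattice units -/
def Dm (M : ℕ) : ℝ := Real.sqrt 3 * (M - 1 / 2) / 8

def chi (x : ℝ) : ℝ := max (1 - x) 0

/-- radial profile -/
def psi (M : ℕ) (s : ℝ) : ℝ := 100 * (Real.log s / s) * chi (s / Dm M ^ 2) ^ 3

/-- its derivative -/
def psd (M : ℕ) (s : ℝ) : ℝ :=
  100 * ((1 - Real.log s) / s ^ 2 * chi (s / Dm M ^ 2) ^ 3 -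
    3 * (Real.log s / s) * chi (s / Dm M ^ 2) ^ 2 / Dm M ^ 2)

/-- derivative of `s psi s` -/
def nu (M : ℕ) (s : ℝ) : ℝ :=
  100 * (chi (s / Dm M ^ 2) ^ 3 / s - 3 * Real.log s * chi (s / Dm M ^ 2) ^ 2 / Dm M ^ 2)

def W0 (M : ℕ) (ζ : ℂ) : ℂ := ζ * (psi M (‖ζ‖ ^ 2) : ℂ)

/-- the radial corrections -/
def W (Z : ℂ) : ℂ := ∑ M ∈ MM D, ∑ j ∈ JJ D, W0 M ((cM D M : ℂ) * (Z - core D M j))

/-- the arrays of dislocations -/
def F (Z : ℂ) : ℂ := ∑ M ∈ MM D, I * ((Real.sqrt 3 / (2 * Real.pi) : ℝ) : ℂ) * log (sin (wM D M Z))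

/-- the stretching of the parallels -/
def B (Z : ℂ) : ℂ :=
  ((b1 D * Z.re : ℝ) : ℂ) +
    I * ((2 * (1 + mu D) / D.ρ * Real.arctan (Real.sinh Z.im) - b1 D * Z.im : ℝ) : ℂ)

def U (Z : ℂ) : ℂ := B D Z + F D Z + W D Z

def aW (Z : ℂ) : ℝ :=
  ∑ M ∈ MM D, ∑ j ∈ JJ D, cM D M * nu M (‖(cM D M : ℂ) * (Z - core D M j)‖ ^ 2)

def bW (Z : ℂ) : ℂ :=
  ∑ M ∈ MM D, ∑ j ∈ JJ D, (cM D M : ℂ) * (((cM D M : ℂ) * (Z - core D M j)) ^ 2 *
    (psd M (‖(cM D M : ℂ) * (Z - core D M j)‖ ^ 2) : ℂ))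

def bF (Z : ℂ) : ℂ := I * ((k0 D / 2 : ℝ) : ℂ) * ∑ M ∈ MM D, cot (wM D M Z)

/-- the holomorphic component of the derivative of `U` (it is real) -/
def aa (Z : ℂ) : ℝ := cc D Z.im * (1 + mu D) + aW D Z

/-- the antiholomorphic component of the derivative of `U` -/
def bb (Z : ℂ) : ℂ := ((b1 D - cc D Z.im * (1 + mu D) : ℝ) : ℂ) + bF D Z + bW D Z

def S2 (Z : ℂ) : ℝ := ∑ M ∈ MM D, 1 / ‖sin (wM D M Z)‖ ^ 2

def Tc (Z : ℂ) : ℝ := by
  classical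
  exact ∑ M ∈ MM D, ∑ j ∈ JJ D,
    if ‖Z - core D M j‖ < kap D / 8 then (kap D / ‖Z - core D M j‖) ^ 2 else 0

/-- the hypotheses on the data -/
structure Zone : Prop where
  hρ : 0 < D.ρ
  h0 : 0 ≤ D.y₁
  h12 : D.y₁ < D.y₂
  h1 : D.y₂ ≤ D.y₁ + 1
  hK : 8 * m1 D ≤ D.K
  hm : 10 ^ 10 ≤ mc D D.y₂

/-- the window -/
def Win : Set ℂ := {Z | -kap D ≤ Z.re ∧ Z.re ≤ 2 * Real.pi + kap D ∧
  D.y₁ - kap D ≤ Z.im ∧ Z.im ≤ D.y₂ + kap D}

/-- the box in which the points are counted -/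
def Bx : Set ℂ := {Z | -(1 / cc D D.y₂) ≤ Z.re ∧ Z.re ≤ 2 * Real.pi + 1 / cc D D.y₂ ∧
  D.y₁ - 1 / cc D D.y₂ ≤ Z.im ∧ Z.im ≤ D.y₂ + 1 / cc D D.y₂}

/-- points at lattice distance at least `10 ^ 6` from all cores -/
def Gd : Set ℂ := {Z | ∀ M ∈ MM D, ∀ j : ℤ, 10 ^ 6 ≤ cM D M * ‖Z - core D M j‖}

end

end Pool.Agent.CAPU
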