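import Pool.Agent.Lib.MP_488b8a_co_U.Sep
import Pool.Agent.Lib.MP_488b8a_co_U.SinId

/-! Project CAPU (MP_488b8a_co), module S2T. -/

namespace Pool.Agent.CAPU

open Complex MeasureTheory

variable {D : Dat}

/-- lower bound of the sine by the distance to the nearest core -/
theorem sin_core (h : Zone D) {Z : ℂ} (M : ℕ) :
    2 * ‖Z - core D M (round (Z.re / kap D))‖ / kap D ≤ ‖sin (wM D M Z)‖ := by
  have hk := kap_pos h
  have hK := K_pos h
  have hkK : kap D * D.K = 2 * Real.pi := by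
    unfold kap
    field_simp
  have hpi := Real.pi_pos
  set n : ℤ := round (Z.re / kap D) with hn
  have h1 : |Z.re / kap D - n| ≤ 1 / 2 := abs_sub_round _
  have h2 : |(wM D M Z).re - n * Real.pi| ≤ Real.pi / 2 := by
    have e : (wM D M Z).re - n * Real.pi = Real.pi * (Z.re / kap D - n) := by
      rw [wM_re]
      have : (D.K : ℝ) / 2 = Real.pi / kap D := by
        rw [div_eq_div_iff (by norm_num) hk.ne']
        linarith
      rw [this]
      field_simp
    rw [e, abs_mul, abs_of_pos hpi]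
    nlinarith
  have h3 := sin_lower h2
  have h4 : ‖wM D M Z - n * Real.pi‖ = D.K / 2 * ‖Z - core D M n‖ := by
    have e : wM D M Z - n * Real.pi = ((D.K / 2 : ℝ) : ℂ) * (starRingEnd ℂ) (Z - core D M n) := by
      have e1 : (starRingEnd ℂ) (core D M n) = (kap D : ℂ) * n - I * yM D M := by
        apply Complex.ext
        · simp [core]
        · simp [core]
      have e2 : ((kap D : ℝ) : ℂ) * (D.K : ℂ) = 2 * (Real.pi : ℂ) := by exact_mod_cast hkK
      rw [map_sub, e1]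
      unfold wM
      push_cast
      linear_combination ((n : ℂ) / 2) * e2
    rw [e, norm_mul, RCLike.norm_conj, Complex.norm_real, Real.norm_eq_abs,
      abs_of_pos (by positivity)]
  rw [h4] at h3
  have h5 : 2 / Real.pi * (D.K / 2 * ‖Z - core D M n‖) = 2 * ‖Z - core D M n‖ / kap D := by
    rw [eq_div_iff hk.ne']
    have : (D.K : ℝ) = 2 * Real.pi / kap D := by
      rw [eq_div_iff hk.ne']
      linarith
    rw [this]
    field_simp
  rw [← h5]
  exact h3

private theorem S2T_term (h : Zone D) {Z : ℂ} {M : ℕ}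
    (hs : Z ≠ core D M (round (Z.re / kap D))) :
    1 / ‖sin (wM D M Z)‖ ^ 2 ≤ 16 + 1 / 4 *
      (if ‖Z - core D M (round (Z.re / kap D))‖ < kap D / 8 then
        (kap D / ‖Z - core D M (round (Z.re / kap D))‖) ^ 2 else 0) := by
  have hk := kap_pos h
  have h1 := sin_core h (Z := Z) M
  have hd : 0 < ‖Z - core D M (round (Z.re / kap D))‖ := norm_pos_iff.2 (sub_ne_zero.2 hs)
  set d : ℝ := ‖Z - core D M (round (Z.re / kap D))‖ with hdd
  split_ifs with hc
  · have h2 : 0 < 2 * d / kap D := by positivity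
    have h3 : (2 * d / kap D) ^ 2 ≤ ‖sin (wM D M Z)‖ ^ 2 := pow_le_pow_left₀ h2.le h1 2
    have h4 : 1 / ‖sin (wM D M Z)‖ ^ 2 ≤ 1 / (2 * d / kap D) ^ 2 :=
      one_div_le_one_div_of_le (by positivity) h3
    have h5 : 1 / (2 * d / kap D) ^ 2 = 1 / 4 * (kap D / d) ^ 2 := by
      field_simp
      norm_num
    linarith
  · have hc' := not_lt.1 hc
    have h2 : 1 / 4 ≤ 2 * d / kap D := by
      rw [le_div_iff₀ hk]
      linarith
    have h3 : (1 / 4 : ℝ) ^ 2 ≤ ‖sin (wM D M Z)‖ ^ 2 :=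
      pow_le_pow_left₀ (by norm_num) (h2.trans h1) 2
    have h4 : 1 / ‖sin (wM D M Z)‖ ^ 2 ≤ 1 / (1 / 4 : ℝ) ^ 2 :=
      one_div_le_one_div_of_le (by norm_num) h3
    norm_num at h4 ⊢
    linarith

theorem S2_le (h : Zone D) {Z : ℂ} (hW : Z ∈ Win D)
    (hs : ∀ M ∈ MM D, ∀ j : ℤ, Z ≠ core D M j) : S2 D Z ≤ 40 + Tc D Z / 4 := by
  classical
  set n : ℤ := round (Z.re / kap D) with hn
  have hk := kap_pos h
  have hx : 0 < mc D Z.im := by
    unfold mc
    exact div_pos (cc_pos h _) (k0_pos h)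
  -- the far part
  have hfar : ∑ M ∈ (MM D).filter (fun M : ℕ => 1 ≤ |mc D Z.im - ((M : ℝ) - 1 / 2)|),
      1 / ‖sin (wM D M Z)‖ ^ 2 ≤ 1 := by
    refine le_trans (Finset.sum_le_sum fun M hM => ?_) (sum_far h hW)
    rw [Finset.mem_filter] at hM
    have h1 := sep h hW hM.1
    have h2 : 0 < |(wM D M Z).im| := by
      have : 0 < |mc D Z.im - ((M : ℝ) - 1 / 2)| := by linarith [hM.2]
      nlinarith
    have h3 : Real.sinh (wM D M Z).im ≠ 0 := Real.sinh_ne_zero.2 (abs_pos.1 h2)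
    refine one_div_le_one_div_of_le (by positivity) ?_
    rw [norm_sin_sq]
    linarith [sq_nonneg (Real.sin (wM D M Z).re)]
  -- the near part
  have hcard : ((MM D).filter
      (fun M : ℕ => ¬ 1 ≤ |mc D Z.im - ((M : ℝ) - 1 / 2)|)).card ≤ 2 := by
    have hsub : (MM D).filter (fun M : ℕ => ¬ 1 ≤ |mc D Z.im - ((M : ℝ) - 1 / 2)|) ⊆
        {⌊mc D Z.im + 1 / 2⌋₊, ⌊mc D Z.im + 1 / 2⌋₊ + 1} := by
      intro M hM
      rw [Finset.mem_filter, not_le, abs_lt] at hM
      have h1 := Nat.floor_le (show 0 ≤ mc D Z.im + 1 / 2 by linarith)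
      have h2 := Nat.lt_floor_add_one (mc D Z.im + 1 / 2)
      have h3 : (⌊mc D Z.im + 1 / 2⌋₊ : ℝ) < (M : ℝ) + 1 := by linarith [hM.2.2]
      have h4 : (M : ℝ) < (⌊mc D Z.im + 1 / 2⌋₊ : ℝ) + 2 := by linarith [hM.2.1]
      have h5 : ⌊mc D Z.im + 1 / 2⌋₊ < M + 1 := by exact_mod_cast h3
      have h6 : M < ⌊mc D Z.im + 1 / 2⌋₊ + 2 := by exact_mod_cast h4
      rw [Finset.mem_insert, Finset.mem_singleton]
      omega
    exact (Finset.card_le_card hsub).trans Finset.card_le_two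
  have hT0 : ∀ (M : ℕ) (j : ℤ), 0 ≤ (if ‖Z - core D M j‖ < kap D / 8 then
      (kap D / ‖Z - core D M j‖) ^ 2 else 0) := by
    intro M j
    split_ifs
    · positivity
    · exact le_rfl
  have hnear : ∑ M ∈ (MM D).filter (fun M : ℕ => ¬ 1 ≤ |mc D Z.im - ((M : ℝ) - 1 / 2)|),
      1 / ‖sin (wM D M Z)‖ ^ 2 ≤ 32 + Tc D Z / 4 := by
    have h1 : ∑ M ∈ (MM D).filter (fun M : ℕ => ¬ 1 ≤ |mc D Z.im - ((M : ℝ) - 1 / 2)|),
        1 / ‖sin (wM D M Z)‖ ^ 2 ≤
        ∑ M ∈ (MM D).filter (fun M : ℕ => ¬ 1 ≤ |mc D Z.im - ((M : ℝ) - 1 / 2)|),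
        (16 + 1 / 4 * (if ‖Z - core D M n‖ < kap D / 8 then
          (kap D / ‖Z - core D M n‖) ^ 2 else 0)) := by
      refine Finset.sum_le_sum fun M hM => ?_
      rw [Finset.mem_filter] at hM
      exact S2T_term h (hs M hM.1 _)
    rw [Finset.sum_add_distrib, Finset.sum_const, nsmul_eq_mul, ← Finset.mul_sum] at h1
    have h2 : ((((MM D).filter
        (fun M : ℕ => ¬ 1 ≤ |mc D Z.im - ((M : ℝ) - 1 / 2)|)).card : ℝ)) ≤ 2 := by
      exact_mod_cast hcard
    have h3 : ∑ M ∈ (MM D).filter (fun M : ℕ => ¬ 1 ≤ |mc D Z.im - ((M : ℝ) - 1 / 2)|),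
        (if ‖Z - core D M n‖ < kap D / 8 then
          (kap D / ‖Z - core D M n‖) ^ 2 else 0) ≤ Tc D Z := by
      have h4 : ∀ M ∈ MM D, (if ‖Z - core D M n‖ < kap D / 8 then
          (kap D / ‖Z - core D M n‖) ^ 2 else 0) ≤
          ∑ j ∈ JJ D, if ‖Z - core D M j‖ < kap D / 8 then
            (kap D / ‖Z - core D M j‖) ^ 2 else 0 := by
        intro M hM
        by_cases hc : ‖Z - core D M n‖ < kap D / 8
        · have hJ : n ∈ JJ D := core_JJ h hW (M := M) (by linarith)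
          exact Finset.single_le_sum (f := fun j : ℤ => if ‖Z - core D M j‖ < kap D / 8 then
            (kap D / ‖Z - core D M j‖) ^ 2 else 0) (fun j _ => hT0 M j) hJ
        · rw [if_neg hc]
          exact Finset.sum_nonneg fun j _ => hT0 M j
      refine (Finset.sum_le_sum_of_subset_of_nonneg (Finset.filter_subset _ _)
        (fun M _ _ => hT0 M n)).trans ?_
      exact Finset.sum_le_sum h4
    nlinarith
  have hsplit : S2 D Z =
      ∑ M ∈ (MM D).filter (fun M : ℕ => 1 ≤ |mc D Z.im - ((M : ℝ) - 1 / 2)|),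
        1 / ‖sin (wM D M Z)‖ ^ 2 +
      ∑ M ∈ (MM D).filter (fun M : ℕ => ¬ 1 ≤ |mc D Z.im - ((M : ℝ) - 1 / 2)|),
        1 / ‖sin (wM D M Z)‖ ^ 2 := by
    unfold S2
    exact (Finset.sum_filter_add_sum_filter_not _ _ _).symm
  rw [hsplit]
  linarith

end Pool.Agent.CAPU
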