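import Pool.Agent.Lib.MP_488b8a_co_U.Psi

/-! Project CAPU (MP_488b8a_co), module PsiL. -/

namespace Pool.Agent.CAPU

open Complex MeasureTheory

private theorem PsiL_max (n : ℕ) (x : ℝ) :
    HasDerivAt (fun y : ℝ => (max y 0) ^ (n + 2)) ((n + 2 : ℕ) * (max x 0) ^ (n + 1)) x := by
  rcases lt_trichotomy x 0 with h | h | h
  · have e : (fun y : ℝ => (max y 0) ^ (n + 2)) =ᶠ[nhds x] fun _ => 0 := by
      filter_upwards [eventually_lt_nhds h] with y hy
      rw [max_eq_right hy.le]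
      simp
    rw [max_eq_right h.le]
    have h1 := (hasDerivAt_const x (0 : ℝ)).congr_of_eventuallyEq e
    simpa using h1
  · subst h
    have h1 : HasDerivWithinAt (fun y : ℝ => (max y 0) ^ (n + 2)) 0 (Set.Iic 0) 0 := by
      refine (hasDerivWithinAt_const (0 : ℝ) (Set.Iic 0) (0 : ℝ)).congr (fun y hy => ?_) (by simp)
      have hy' : y ≤ 0 := hy
      simp [max_eq_right hy']
    have h2 : HasDerivWithinAt (fun y : ℝ => (max y 0) ^ (n + 2)) 0 (Set.Ici 0) 0 := by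
      have h3 : HasDerivAt (fun y : ℝ => y ^ (n + 2)) 0 0 := by
        simpa using hasDerivAt_pow (n + 2) (0 : ℝ)
      refine h3.hasDerivWithinAt.congr (fun y hy => ?_) (by simp)
      have hy' : 0 ≤ y := hy
      simp [max_eq_left hy']
    have h4 := h1.union h2
    rw [Set.Iic_union_Ici, hasDerivWithinAt_univ] at h4
    simpa using h4
  · have e : (fun y : ℝ => (max y 0) ^ (n + 2)) =ᶠ[nhds x] fun y => y ^ (n + 2) := by
      filter_upwards [eventually_gt_nhds h] with y hy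
      rw [max_eq_left hy.le]
    rw [max_eq_left h.le]
    exact (hasDerivAt_pow (n + 2) x).congr_of_eventuallyEq e

private theorem PsiL_chi (n : ℕ) (d s : ℝ) :
    HasDerivAt (fun y : ℝ => chi (y / d) ^ (n + 2))
      (-((n + 2 : ℕ) * chi (s / d) ^ (n + 1) / d)) s := by
  have h1 : HasDerivAt (fun y : ℝ => 1 - y / d) (-(1 / d)) s := by
    simpa using ((hasDerivAt_id s).div_const d).const_sub 1
  have h2 := HasDerivAt.comp s (PsiL_max n (1 - s / d)) h1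
  have h3 : HasDerivAt (fun y : ℝ => chi (y / d) ^ (n + 2)) _ s := h2
  convert h3 using 1
  unfold chi
  ring

private theorem PsiL_psd (M : ℕ) {s : ℝ} (hs : 0 < s) :
    HasDerivAt (psd M)
      (100 * ((2 * Real.log s - 3) / s ^ 3 * chi (s / Dm M ^ 2) ^ 3 -
        6 * ((1 - Real.log s) / s ^ 2) * (chi (s / Dm M ^ 2) ^ 2 / Dm M ^ 2) +
        6 * (Real.log s / s) * (chi (s / Dm M ^ 2) / Dm M ^ 2 / Dm M ^ 2))) s := by
  have hl := Real.hasDerivAt_log hs.ne'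
  have h1 : HasDerivAt (fun y : ℝ => (1 - Real.log y) / y ^ 2) _ s :=
    (hl.const_sub 1).div (hasDerivAt_pow 2 s) (by positivity)
  have h2 : HasDerivAt (fun y : ℝ => Real.log y / y) _ s :=
    hl.div (hasDerivAt_id s) hs.ne'
  have h3 := PsiL_chi 1 (Dm M ^ 2) s
  have h4 := PsiL_chi 0 (Dm M ^ 2) s
  have h5 := ((h1.mul h3).sub (((h2.const_mul 3).mul h4).div_const (Dm M ^ 2))).const_mul 100
  have h6 : HasDerivAt (psd M) _ s := h5
  convert h6 using 1
  have hs0 := hs.ne'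
  try simp only [id]
  field_simp
  push_cast
  ring

private theorem PsiL_nu (M : ℕ) {s : ℝ} (hs : 0 < s) :
    HasDerivAt (nu M)
      (100 * (-(1 / s ^ 2 * chi (s / Dm M ^ 2) ^ 3) -
        6 * (1 / s) * (chi (s / Dm M ^ 2) ^ 2 / Dm M ^ 2) +
        6 * Real.log s * (chi (s / Dm M ^ 2) / Dm M ^ 2 / Dm M ^ 2))) s := by
  have hl := Real.hasDerivAt_log hs.ne'
  have h3 := PsiL_chi 1 (Dm M ^ 2) s
  have h4 := PsiL_chi 0 (Dm M ^ 2) s
  have h5 := ((h3.div (hasDerivAt_id s) hs.ne').sub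
    (((hl.const_mul 3).mul h4).div_const (Dm M ^ 2))).const_mul 100
  have h6 : HasDerivAt (nu M) _ s := h5
  convert h6 using 1
  have hs0 := hs.ne'
  try simp only [id]
  field_simp
  push_cast
  ring

private theorem PsiL_bd {M : ℕ} (hM : 1 ≤ M) {s : ℝ} (hs : 1 ≤ s) :
    (0 ≤ chi (s / Dm M ^ 2) ^ 3 ∧ chi (s / Dm M ^ 2) ^ 3 ≤ 1) ∧
    (0 ≤ chi (s / Dm M ^ 2) ^ 2 / Dm M ^ 2 ∧ chi (s / Dm M ^ 2) ^ 2 / Dm M ^ 2 ≤ 1 / s) ∧
    (0 ≤ chi (s / Dm M ^ 2) / Dm M ^ 2 / Dm M ^ 2 ∧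
      chi (s / Dm M ^ 2) / Dm M ^ 2 / Dm M ^ 2 ≤ 1 / s ^ 2) := by
  have hD : 0 < Dm M ^ 2 := by
    unfold Dm
    have : (1 : ℝ) ≤ M := by exact_mod_cast hM
    have h3 : 0 < Real.sqrt 3 := by positivity
    have : 0 < Real.sqrt 3 * (M - 1 / 2) / 8 := by
      have : (0 : ℝ) < M - 1 / 2 := by linarith
      positivity
    positivity
  set D := Dm M ^ 2 with hDdef
  have hs0 : 0 < s := by linarith
  have hc0 : 0 ≤ chi (s / D) := le_max_right _ _
  have hc1 : chi (s / D) ≤ 1 := by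
    unfold chi
    refine max_le ?_ (by norm_num)
    have : 0 ≤ s / D := by positivity
    linarith
  have hkey : chi (s / D) = 0 ∨ 1 / D ≤ 1 / s := by
    by_cases h : s < D
    · right
      exact one_div_le_one_div_of_le hs0 h.le
    · left
      unfold chi
      refine max_eq_right ?_
      have : 1 ≤ s / D := by
        rw [le_div_iff₀ hD]
        linarith
      linarith
  refine ⟨⟨by positivity, pow_le_one₀ hc0 hc1⟩, ⟨by positivity, ?_⟩, ⟨by positivity, ?_⟩⟩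
  · rcases hkey with h | h
    · rw [h]
      simp only [ne_eq, OfNat.ofNat_ne_zero, not_false_eq_true, zero_pow, zero_div]
      positivity
    · calc chi (s / D) ^ 2 / D ≤ 1 / D := by
            refine div_le_div_of_nonneg_right (pow_le_one₀ hc0 hc1) hD.le
        _ ≤ 1 / s := h
  · rcases hkey with h | h
    · rw [h]
      simp only [zero_div]
      positivity
    · calc chi (s / D) / D / D = chi (s / D) * (1 / D * (1 / D)) := by ring
        _ ≤ 1 * (1 / s * (1 / s)) := by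
            refine mul_le_mul hc1 ?_ (by positivity) (by norm_num)
            exact mul_le_mul h h (by positivity) (by positivity)
        _ = 1 / s ^ 2 := by
            field_simp

private theorem PsiL_log {s₀ s : ℝ} (h0 : 1 ≤ s₀) (hs : s₀ ≤ s) :
    1 + Real.log s ≤ (1 + Real.log s₀) * (s / s₀) := by
  have hp : 0 < s₀ := by linarith
  have hq : 0 < s := by linarith
  have h1 : Real.log (s / s₀) ≤ s / s₀ - 1 := Real.log_le_sub_one_of_pos (by positivity)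
  rw [Real.log_div hq.ne' hp.ne'] at h1
  have h2 : 0 ≤ Real.log s₀ := Real.log_nonneg h0
  have h3 : 1 ≤ s / s₀ := by
    rw [le_div_iff₀ hp]
    linarith
  nlinarith

theorem psd_lip {M : ℕ} (hM : 1 ≤ M) {s₀ s s' : ℝ} (h0 : 1 ≤ s₀) (hs : s₀ ≤ s) (hs' : s₀ ≤ s') :
    |psd M s - psd M s'| ≤ 2000 * (1 + Real.log s₀) / s₀ ^ 3 * |s - s'| := by
  have hp : 0 < s₀ := by linarith
  have hl0 : 0 ≤ Real.log s₀ := Real.log_nonneg h0
  have key := Convex.norm_image_sub_le_of_norm_hasDerivWithin_le (f := psd M)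
    (f' := fun s => 100 * ((2 * Real.log s - 3) / s ^ 3 * chi (s / Dm M ^ 2) ^ 3 -
        6 * ((1 - Real.log s) / s ^ 2) * (chi (s / Dm M ^ 2) ^ 2 / Dm M ^ 2) +
        6 * (Real.log s / s) * (chi (s / Dm M ^ 2) / Dm M ^ 2 / Dm M ^ 2)))
    (s := Set.Ici s₀) (x := s') (y := s) (C := 2000 * (1 + Real.log s₀) / s₀ ^ 3)
    (fun x hx => (PsiL_psd M (lt_of_lt_of_le hp hx)).hasDerivWithinAt) (fun x hx => ?_)
    (convex_Ici _) hs' hs
  · simpa [Real.norm_eq_abs] using key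
  · have hx0 : s₀ ≤ x := hx
    have hx1 : 1 ≤ x := h0.trans hx0
    have hxp : 0 < x := by linarith
    obtain ⟨⟨a0, a1⟩, ⟨b0, b1⟩, ⟨c0, c1⟩⟩ := PsiL_bd hM hx1
    set a := chi (x / Dm M ^ 2) ^ 3
    set b := chi (x / Dm M ^ 2) ^ 2 / Dm M ^ 2
    set c := chi (x / Dm M ^ 2) / Dm M ^ 2 / Dm M ^ 2
    have hl : 0 ≤ Real.log x := Real.log_nonneg hx1
    rw [Real.norm_eq_abs]
    have e1 : |(2 * Real.log x - 3) / x ^ 3 * a| ≤ (3 + 2 * Real.log x) / x ^ 3 := by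
      rw [abs_mul, abs_div, abs_of_nonneg a0, abs_of_nonneg (by positivity : (0 : ℝ) ≤ x ^ 3)]
      have : |2 * Real.log x - 3| ≤ 3 + 2 * Real.log x := by
        rw [abs_le]
        constructor <;> linarith
      calc |2 * Real.log x - 3| / x ^ 3 * a ≤ (3 + 2 * Real.log x) / x ^ 3 * 1 := by
            refine mul_le_mul ?_ a1 a0 (by positivity)
            exact div_le_div_of_nonneg_right this (by positivity)
        _ = _ := by ring
    have e2 : |6 * ((1 - Real.log x) / x ^ 2) * b| ≤ 6 * (1 + Real.log x) / x ^ 3 := by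
      rw [abs_mul, abs_mul, abs_div, abs_of_nonneg b0,
        abs_of_nonneg (by positivity : (0 : ℝ) ≤ x ^ 2), abs_of_nonneg (by norm_num : (0 : ℝ) ≤ 6)]
      have : |1 - Real.log x| ≤ 1 + Real.log x := by
        rw [abs_le]
        constructor <;> linarith
      calc 6 * (|1 - Real.log x| / x ^ 2) * b ≤ 6 * ((1 + Real.log x) / x ^ 2) * (1 / x) := by
            refine mul_le_mul ?_ b1 b0 (by positivity)
            exact mul_le_mul_of_nonneg_left (div_le_div_of_nonneg_right this (by positivity))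
              (by norm_num)
        _ = _ := by
            field_simp
    have e3 : |6 * (Real.log x / x) * c| ≤ 6 * Real.log x / x ^ 3 := by
      rw [abs_mul, abs_mul, abs_div, abs_of_nonneg c0, abs_of_nonneg hxp.le, abs_of_nonneg hl,
        abs_of_nonneg (by norm_num : (0 : ℝ) ≤ 6)]
      calc 6 * (Real.log x / x) * c ≤ 6 * (Real.log x / x) * (1 / x ^ 2) :=
            mul_le_mul_of_nonneg_left c1 (by positivity)
        _ = _ := by
            field_simp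
    have e4 : |(2 * Real.log x - 3) / x ^ 3 * a - 6 * ((1 - Real.log x) / x ^ 2) * b +
        6 * (Real.log x / x) * c| ≤ 14 * ((1 + Real.log x) / x ^ 3) := by
      calc _ ≤ |(2 * Real.log x - 3) / x ^ 3 * a| + |6 * ((1 - Real.log x) / x ^ 2) * b| +
            |6 * (Real.log x / x) * c| :=
            (abs_add_le _ _).trans (add_le_add_left (abs_sub _ _) _)
        _ ≤ (3 + 2 * Real.log x) / x ^ 3 + 6 * (1 + Real.log x) / x ^ 3 +
            6 * Real.log x / x ^ 3 := add_le_add (add_le_add e1 e2) e3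
        _ = (9 + 14 * Real.log x) / x ^ 3 := by ring
        _ ≤ (14 * (1 + Real.log x)) / x ^ 3 :=
            div_le_div_of_nonneg_right (by linarith) (by positivity)
        _ = _ := by ring
    have e5 : (1 + Real.log x) / x ^ 3 ≤ (1 + Real.log s₀) / s₀ ^ 3 := by
      calc (1 + Real.log x) / x ^ 3 ≤ ((1 + Real.log s₀) * (x / s₀)) / x ^ 3 :=
            div_le_div_of_nonneg_right (PsiL_log h0 hx0) (by positivity)
        _ = (1 + Real.log s₀) / s₀ / x ^ 2 := by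
            field_simp
        _ ≤ (1 + Real.log s₀) / s₀ / s₀ ^ 2 := by
            refine div_le_div_of_nonneg_left (by positivity) (by positivity) ?_
            exact pow_le_pow_left₀ hp.le hx0 2
        _ = _ := by
            field_simp
    rw [abs_mul, abs_of_nonneg (by norm_num : (0 : ℝ) ≤ 100)]
    calc _ ≤ 100 * (14 * ((1 + Real.log x) / x ^ 3)) :=
          mul_le_mul_of_nonneg_left e4 (by norm_num)
      _ ≤ 100 * (14 * ((1 + Real.log s₀) / s₀ ^ 3)) := by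
          refine mul_le_mul_of_nonneg_left (mul_le_mul_of_nonneg_left e5 ?_) ?_ <;> norm_num
      _ ≤ 2000 * (1 + Real.log s₀) / s₀ ^ 3 := by
          have : 0 ≤ (1 + Real.log s₀) / s₀ ^ 3 := by positivity
          have e6 : 2000 * (1 + Real.log s₀) / s₀ ^ 3 = 2000 * ((1 + Real.log s₀) / s₀ ^ 3) := by
            ring
          rw [e6]
          linarith

theorem nu_lip {M : ℕ} (hM : 1 ≤ M) {s₀ s s' : ℝ} (h0 : 1 ≤ s₀) (hs : s₀ ≤ s) (hs' : s₀ ≤ s') :
    |nu M s - nu M s'| ≤ 1300 * (1 + Real.log s₀) / s₀ ^ 2 * |s - s'| := by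
  have hp : 0 < s₀ := by linarith
  have hl0 : 0 ≤ Real.log s₀ := Real.log_nonneg h0
  have key := Convex.norm_image_sub_le_of_norm_hasDerivWithin_le (f := nu M)
    (f' := fun s => 100 * (-(1 / s ^ 2 * chi (s / Dm M ^ 2) ^ 3) -
        6 * (1 / s) * (chi (s / Dm M ^ 2) ^ 2 / Dm M ^ 2) +
        6 * Real.log s * (chi (s / Dm M ^ 2) / Dm M ^ 2 / Dm M ^ 2)))
    (s := Set.Ici s₀) (x := s') (y := s) (C := 1300 * (1 + Real.log s₀) / s₀ ^ 2)
    (fun x hx => (PsiL_nu M (lt_of_lt_of_le hp hx)).hasDerivWithinAt) (fun x hx => ?_)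
    (convex_Ici _) hs' hs
  · simpa [Real.norm_eq_abs] using key
  · have hx0 : s₀ ≤ x := hx
    have hx1 : 1 ≤ x := h0.trans hx0
    have hxp : 0 < x := by linarith
    obtain ⟨⟨a0, a1⟩, ⟨b0, b1⟩, ⟨c0, c1⟩⟩ := PsiL_bd hM hx1
    set a := chi (x / Dm M ^ 2) ^ 3
    set b := chi (x / Dm M ^ 2) ^ 2 / Dm M ^ 2
    set c := chi (x / Dm M ^ 2) / Dm M ^ 2 / Dm M ^ 2
    have hl : 0 ≤ Real.log x := Real.log_nonneg hx1
    rw [Real.norm_eq_abs]
    have f1 : 1 / x ^ 2 * a ≤ 1 / x ^ 2 * 1 := mul_le_mul_of_nonneg_left a1 (by positivity)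
    have f1' : 0 ≤ 1 / x ^ 2 * a := by positivity
    have f2 : 6 * (1 / x) * b ≤ 6 * (1 / x) * (1 / x) :=
      mul_le_mul_of_nonneg_left b1 (by positivity)
    have f2' : 0 ≤ 6 * (1 / x) * b := by positivity
    have f3 : 6 * Real.log x * c ≤ 6 * Real.log x * (1 / x ^ 2) :=
      mul_le_mul_of_nonneg_left c1 (by positivity)
    have f3' : 0 ≤ 6 * Real.log x * c := by positivity
    have f4 : 1 / x ^ 2 * 1 + 6 * (1 / x) * (1 / x) + 6 * Real.log x * (1 / x ^ 2) ≤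
        13 * ((1 + Real.log x) / x ^ 2) := by
      have : 1 / x ^ 2 * 1 + 6 * (1 / x) * (1 / x) + 6 * Real.log x * (1 / x ^ 2) =
          (7 + 6 * Real.log x) / x ^ 2 := by
        field_simp
        ring
      rw [this]
      calc (7 + 6 * Real.log x) / x ^ 2 ≤ (13 * (1 + Real.log x)) / x ^ 2 :=
            div_le_div_of_nonneg_right (by linarith) (by positivity)
        _ = _ := by ring
    have e4 : |-(1 / x ^ 2 * a) - 6 * (1 / x) * b + 6 * Real.log x * c| ≤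
        13 * ((1 + Real.log x) / x ^ 2) := by
      rw [abs_le]
      constructor <;> linarith
    have e5 : (1 + Real.log x) / x ^ 2 ≤ (1 + Real.log s₀) / s₀ ^ 2 := by
      calc (1 + Real.log x) / x ^ 2 ≤ ((1 + Real.log s₀) * (x / s₀)) / x ^ 2 :=
            div_le_div_of_nonneg_right (PsiL_log h0 hx0) (by positivity)
        _ = (1 + Real.log s₀) / s₀ / x := by
            field_simp
        _ ≤ (1 + Real.log s₀) / s₀ / s₀ :=
            div_le_div_of_nonneg_left (by positivity) (by positivity) hx0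
        _ = _ := by
            field_simp
    rw [abs_mul, abs_of_nonneg (by norm_num : (0 : ℝ) ≤ 100)]
    calc _ ≤ 100 * (13 * ((1 + Real.log x) / x ^ 2)) :=
          mul_le_mul_of_nonneg_left e4 (by norm_num)
      _ ≤ 100 * (13 * ((1 + Real.log s₀) / s₀ ^ 2)) := by
          refine mul_le_mul_of_nonneg_left (mul_le_mul_of_nonneg_left e5 ?_) ?_ <;> norm_num
      _ = 1300 * (1 + Real.log s₀) / s₀ ^ 2 := by ring

/-- Lipschitz bound for the two components of the derivative of `W0` -/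
theorem W0_lip {M : ℕ} (hM : 1 ≤ M) {t : ℝ} (ht : 1 ≤ t) {ζ ζ' : ℂ} (h1 : t ≤ ‖ζ‖)
    (h2 : ‖ζ‖ ≤ 2 * t) (h3 : t ≤ ‖ζ'‖) (h4 : ‖ζ'‖ ≤ 2 * t) :
    |nu M (‖ζ‖ ^ 2) - nu M (‖ζ'‖ ^ 2)| +
      ‖ζ ^ 2 * (psd M (‖ζ‖ ^ 2) : ℂ) - ζ' ^ 2 * (psd M (‖ζ'‖ ^ 2) : ℂ)‖ ≤
      40000 * (1 + 2 * Real.log t) / t ^ 3 * ‖ζ - ζ'‖ := by
  have hp : 0 < t := by linarith
  have hlt : 0 ≤ Real.log t := Real.log_nonneg ht
  have ht2 : (1 : ℝ) ≤ t ^ 2 := one_le_pow₀ ht
  have hlog : Real.log (t ^ 2) = 2 * Real.log t := by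
    rw [Real.log_pow]
    norm_num
  have hs : t ^ 2 ≤ ‖ζ‖ ^ 2 := pow_le_pow_left₀ hp.le h1 2
  have hs' : t ^ 2 ≤ ‖ζ'‖ ^ 2 := pow_le_pow_left₀ hp.le h3 2
  set δ := ‖ζ - ζ'‖ with hδ
  have hδ0 : 0 ≤ δ := norm_nonneg _
  set L := 1 + 2 * Real.log t with hL
  have hL0 : 0 ≤ L := by positivity
  have hsub : |‖ζ‖ - ‖ζ'‖| ≤ δ := abs_norm_sub_norm_le ζ ζ'
  have hd : |‖ζ‖ ^ 2 - ‖ζ'‖ ^ 2| ≤ 4 * t * δ := by
    have e : ‖ζ‖ ^ 2 - ‖ζ'‖ ^ 2 = (‖ζ‖ + ‖ζ'‖) * (‖ζ‖ - ‖ζ'‖) := by ring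
    rw [e, abs_mul, abs_of_nonneg (by positivity)]
    exact mul_le_mul (by linarith) hsub (abs_nonneg _) (by positivity)
  -- first term
  have g1 : |nu M (‖ζ‖ ^ 2) - nu M (‖ζ'‖ ^ 2)| ≤ 5200 * L / t ^ 3 * δ := by
    have := nu_lip hM ht2 hs hs'
    rw [hlog] at this
    calc _ ≤ 1300 * L / (t ^ 2) ^ 2 * |‖ζ‖ ^ 2 - ‖ζ'‖ ^ 2| := this
      _ ≤ 1300 * L / (t ^ 2) ^ 2 * (4 * t * δ) :=
          mul_le_mul_of_nonneg_left hd (by positivity)
      _ = 5200 * L / t ^ 3 * δ := by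
          field_simp
          ring
  have g2 : ‖ζ‖ ^ 2 * |psd M (‖ζ‖ ^ 2) - psd M (‖ζ'‖ ^ 2)| ≤ 32000 * L / t ^ 3 * δ := by
    have := psd_lip hM ht2 hs hs'
    rw [hlog] at this
    have h5 : ‖ζ‖ ^ 2 ≤ (2 * t) ^ 2 := pow_le_pow_left₀ (norm_nonneg _) h2 2
    calc _ ≤ (2 * t) ^ 2 * (2000 * L / (t ^ 2) ^ 3 * |‖ζ‖ ^ 2 - ‖ζ'‖ ^ 2|) :=
          mul_le_mul h5 this (abs_nonneg _) (by positivity)
      _ ≤ (2 * t) ^ 2 * (2000 * L / (t ^ 2) ^ 3 * (4 * t * δ)) :=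
          mul_le_mul_of_nonneg_left (mul_le_mul_of_nonneg_left hd (by positivity)) (by positivity)
      _ = 32000 * L / t ^ 3 * δ := by
          field_simp
          ring
  have g3 : |psd M (‖ζ'‖ ^ 2)| ≤ 500 * L / t ^ 4 := by
    have h6 := psd_bd hM (ht2.trans hs')
    have h7 := PsiL_log ht2 hs'
    rw [hlog] at h7
    have hz : 0 < ‖ζ'‖ ^ 2 := lt_of_lt_of_le (by positivity) hs'
    have hz' : 0 < ‖ζ'‖ := by linarith
    calc _ ≤ 500 * (1 + Real.log (‖ζ'‖ ^ 2)) / (‖ζ'‖ ^ 2) ^ 2 := h6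
      _ ≤ 500 * (L * (‖ζ'‖ ^ 2 / t ^ 2)) / (‖ζ'‖ ^ 2) ^ 2 := by
          refine div_le_div_of_nonneg_right ?_ (by positivity)
          exact mul_le_mul_of_nonneg_left h7 (by norm_num)
      _ = 500 * L / t ^ 2 / ‖ζ'‖ ^ 2 := by
          field_simp
      _ ≤ 500 * L / t ^ 2 / t ^ 2 :=
          div_le_div_of_nonneg_left (by positivity) (by positivity) hs'
      _ = 500 * L / t ^ 4 := by
          field_simp
  have g4 : ‖ζ ^ 2 - ζ' ^ 2‖ ≤ 4 * t * δ := by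
    have e : ζ ^ 2 - ζ' ^ 2 = (ζ + ζ') * (ζ - ζ') := by ring
    rw [e, norm_mul]
    refine mul_le_mul ?_ le_rfl (norm_nonneg _) (by positivity)
    exact (norm_add_le _ _).trans (by linarith)
  have g5 : ‖ζ ^ 2 * (psd M (‖ζ‖ ^ 2) : ℂ) - ζ' ^ 2 * (psd M (‖ζ'‖ ^ 2) : ℂ)‖ ≤
      32000 * L / t ^ 3 * δ + 2000 * L / t ^ 3 * δ := by
    have e : ζ ^ 2 * (psd M (‖ζ‖ ^ 2) : ℂ) - ζ' ^ 2 * (psd M (‖ζ'‖ ^ 2) : ℂ) =
        ζ ^ 2 * ((psd M (‖ζ‖ ^ 2) - psd M (‖ζ'‖ ^ 2) : ℝ) : ℂ) +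
          (ζ ^ 2 - ζ' ^ 2) * (psd M (‖ζ'‖ ^ 2) : ℂ) := by
      push_cast
      ring
    rw [e]
    refine (norm_add_le _ _).trans (add_le_add ?_ ?_)
    · rw [norm_mul, norm_pow, Complex.norm_real, Real.norm_eq_abs]
      exact g2
    · rw [norm_mul, Complex.norm_real, Real.norm_eq_abs]
      calc ‖ζ ^ 2 - ζ' ^ 2‖ * |psd M (‖ζ'‖ ^ 2)| ≤ 4 * t * δ * (500 * L / t ^ 4) :=
            mul_le_mul g4 g3 (abs_nonneg _) (by positivity)
        _ = 2000 * L / t ^ 3 * δ := by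
            field_simp
            ring
  have h8 : 0 ≤ L / t ^ 3 * δ := by positivity
  calc _ ≤ 5200 * L / t ^ 3 * δ + (32000 * L / t ^ 3 * δ + 2000 * L / t ^ 3 * δ) :=
        add_le_add g1 g5
    _ = 39200 * (L / t ^ 3 * δ) := by ring
    _ ≤ 40000 * (L / t ^ 3 * δ) := by linarith
    _ = _ := by ring

end Pool.Agent.CAPU
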