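import Pool.Agent.Lib.MP_488b8a_co_U.WOne
import Pool.Agent.Lib.MP_488b8a_co_U.PsiL

/-! Project CAPU (MP_488b8a_co), module WLip. -/

namespace Pool.Agent.CAPU

open Complex MeasureTheory

private theorem WLip_Tc_nonneg (D : Dat) (p : ℂ) : 0 ≤ Tc D p := by
  classical
  unfold Tc
  refine Finset.sum_nonneg fun M _ => Finset.sum_nonneg fun j _ => ?_
  split_ifs
  · positivity
  · exact le_refl _

private theorem WLip_log_le {t T L : ℝ} (hT : 0 < T) (ht : T ≤ t) (hL : Real.log T ≤ L) :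
    Real.log t ≤ L + t / T - 1 := by
  have ht0 : 0 < t := lt_of_lt_of_le hT ht
  have h1 := Real.log_le_sub_one_of_pos (div_pos ht0 hT)
  rw [Real.log_div ht0.ne' hT.ne'] at h1
  linarith

private theorem WLip_log_ten (n : ℕ) : Real.log ((10 : ℝ) ^ n) ≤ n * 2.302586 := by
  rw [Real.log_pow]
  have h2 := Real.log_two_lt_d9
  have h5 : Real.log 10 ≤ 2.302586 := by
    have h3 : Real.log 10 = (10 * Real.log 2 + Real.log (10 ^ 3 / 2 ^ 10)) / 3 := by
      rw [Real.log_div (by positivity) (by positivity), Real.log_pow, Real.log_pow]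
      push_cast
      ring
    have h4 := Real.log_le_sub_one_of_pos (show (0 : ℝ) < 10 ^ 3 / 2 ^ 10 by positivity)
    have h6 : Real.log ((10 : ℝ) ^ 3 / 2 ^ 10) ≤ -0.0237165 := by
      -- log (1000/1024) = - log (1.024)
      have h7 : ((10 : ℝ) ^ 3 / 2 ^ 10) = (1.024)⁻¹ := by norm_num
      rw [h7, Real.log_inv]
      have h8 : (0.0237165 : ℝ) ≤ Real.log 1.024 := by
        rw [Real.le_log_iff_exp_le (by norm_num)]
        have h9 := Real.exp_bound' (x := 0.0237165) (by norm_num) (by norm_num) (n := 4)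
          (by norm_num)
        refine h9.trans ?_
        norm_num [Finset.sum_range_succ, Nat.factorial]
      linarith
    rw [h3]
    linarith
  have h0 : (0 : ℝ) ≤ n := Nat.cast_nonneg n
  exact mul_le_mul_of_nonneg_left h5 h0

private theorem WLip_caseA1 {t : ℝ} (ht : 990000 ≤ t) :
    40000 * (1 + 2 * Real.log t) ≤ 2.94 * t := by
  have h1 : Real.log (990000 : ℝ) ≤ 6 * 2.302586 := by
    have h2 := WLip_log_ten 6
    have h3 : Real.log (990000 : ℝ) ≤ Real.log ((10 : ℝ) ^ 6) :=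
      Real.log_le_log (by norm_num) (by norm_num)
    refine (h3.trans h2).trans (le_of_eq ?_)
    norm_num
  have h4 := WLip_log_le (by norm_num) ht h1
  linarith

private theorem WLip_caseA2 {t : ℝ} (ht : 2 * 10 ^ 9 ≤ t) :
    40000 * (1 + 2 * Real.log t) ≤ t := by
  have h1 : Real.log (2 * 10 ^ 9 : ℝ) ≤ 10 * 2.302586 := by
    have h2 := WLip_log_ten 10
    have h3 : Real.log (2 * 10 ^ 9 : ℝ) ≤ Real.log ((10 : ℝ) ^ 10) :=
      Real.log_le_log (by norm_num) (by norm_num)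
    refine (h3.trans h2).trans (le_of_eq ?_)
    norm_num
  have h4 := WLip_log_le (by norm_num) ht h1
  linarith

/-- the case of a core near `p` or near `Z` -/
private theorem WLip_near {D : Dat} (h : Zone D) {p : ℂ} (hG : p ∈ Gd D) {Z : ℂ} {M : ℕ}
    {j : ℤ} (hM : M ∈ MM D) (hj : j ∈ JJ D) (hp : ‖p - core D M j‖ < kap D / 4)
    (hz : ‖Z - core D M j‖ < kap D / 4) (hr : cc D p.im * ‖Z - p‖ ≤ 4) :
    |aW D Z - aW D p| + ‖bW D Z - bW D p‖ ≤ k0 D ^ 2 * (30 + Tc D p) * ‖Z - p‖ := by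
  obtain ⟨a1, b1, t1⟩ := W_one h hM hj hp
  obtain ⟨a2, b2, -⟩ := W_one h hM hj hz
  have hc : 0 < cM D M := cM_pos h hM
  have hcc := (cM_cc h hM hp.le).1
  have hk0 : 0 < k0 D := k0_pos h
  have hkap : 0 < kap D := kap_pos h
  have hkk := k0_kap h
  have hX : (10 : ℝ) ^ 10 ≤ (M : ℝ) - 1 / 2 := h.hm.trans ((mem_MM.1 hM).1).le
  have hM1 : 1 ≤ M := by
    have : (1 : ℝ) ≤ M := by linarith
    exact_mod_cast this
  set C := core D M j with hC
  set c := cM D M with hcdef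
  set ζ : ℂ := (c : ℂ) * (Z - C) with hζ
  set ζp : ℂ := (c : ℂ) * (p - C) with hζp
  have hd : ‖ζ - ζp‖ = c * ‖Z - p‖ := by
    rw [hζ, hζp, ← mul_sub, norm_mul, Complex.norm_real, Real.norm_eq_abs, abs_of_pos hc]
    congr 2
    ring
  have htp : ‖ζp‖ = c * ‖p - C‖ := by
    rw [hζp, norm_mul, Complex.norm_real, Real.norm_eq_abs, abs_of_pos hc]
  have hbig : (10 : ℝ) ^ 6 ≤ ‖ζp‖ := by
    rw [htp]
    exact hG M hM j
  have hnn : 0 ≤ ‖Z - p‖ := norm_nonneg _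
  have hsm : ‖ζ - ζp‖ ≤ 5 := by
    rw [hd]
    have h1 : 99 / 100 * c * ‖Z - p‖ ≤ 4 := (mul_le_mul_of_nonneg_right hcc hnn).trans hr
    linarith
  have hlow : ‖ζp‖ - 5 ≤ ‖ζ‖ := by
    have h1 : ‖ζp‖ ≤ ‖ζ‖ + ‖ζ - ζp‖ := by
      have h2 := norm_sub_le ζ (ζ - ζp)
      rwa [sub_sub_cancel] at h2
    linarith
  have hup : ‖ζ‖ ≤ ‖ζp‖ + 5 := by
    have h1 : ‖ζ‖ ≤ ‖ζp‖ + ‖ζ - ζp‖ := by
      have h2 := norm_add_le ζp (ζ - ζp)
      rwa [add_sub_cancel] at h2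
    linarith
  set t : ℝ := 99 / 100 * ‖ζp‖ with ht
  have ht9 : 990000 ≤ t := by
    rw [ht]
    linarith
  have ht0 : 0 < t := by linarith
  have hlip := W0_lip hM1 (t := t) (by linarith) (ζ := ζ) (ζ' := ζp) (by rw [ht]; linarith)
    (by rw [ht]; linarith) (by rw [ht]; linarith) (by rw [ht]; linarith)
  clear_value ζ ζp
  have hL : |aW D Z - aW D p| + ‖bW D Z - bW D p‖ =
      c * (|nu M (‖ζ‖ ^ 2) - nu M (‖ζp‖ ^ 2)| +
      ‖ζ ^ 2 * (psd M (‖ζ‖ ^ 2) : ℂ) - ζp ^ 2 * (psd M (‖ζp‖ ^ 2) : ℂ)‖) := by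
    have hcn : ∀ w : ℂ, ‖(c : ℂ) * w‖ = c * ‖w‖ := fun w => by
      rw [norm_mul, Complex.norm_real, Real.norm_eq_abs, abs_of_pos hc]
    rw [a1, a2, b1, b2, ← mul_sub, ← mul_sub, abs_mul, hcn (_ - _), abs_of_pos hc, mul_add]
  rw [hL]
  have hL2 : c * (|nu M (‖ζ‖ ^ 2) - nu M (‖ζp‖ ^ 2)| +
      ‖ζ ^ 2 * (psd M (‖ζ‖ ^ 2) : ℂ) - ζp ^ 2 * (psd M (‖ζp‖ ^ 2) : ℂ)‖) ≤
      c ^ 2 * (40000 * (1 + 2 * Real.log t) / t ^ 3) * ‖Z - p‖ := by
    calc _ ≤ c * (40000 * (1 + 2 * Real.log t) / t ^ 3 * ‖ζ - ζp‖) :=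
          mul_le_mul_of_nonneg_left hlip hc.le
      _ = _ := by rw [hd]; ring
  refine hL2.trans (mul_le_mul_of_nonneg_right ?_ hnn)
  have hTc := WLip_Tc_nonneg D p
  have hk2 : 0 ≤ k0 D ^ 2 := by positivity
  have hdpos : 0 < ‖p - C‖ := by
    by_contra hcon
    have h0 : ‖p - C‖ = 0 := le_antisymm (not_lt.1 hcon) (norm_nonneg _)
    rw [h0, mul_zero] at htp
    rw [htp] at hbig
    norm_num at hbig
  by_cases hA : ‖p - C‖ < kap D / 8
  · -- A1
    have hT := t1 hA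
    have hk : k0 D ^ 2 * Tc D p = 3 / ‖p - C‖ ^ 2 := by
      rw [hT, div_pow]
      have h3 : (k0 D * kap D) ^ 2 = 3 := by
        rw [hkk, Real.sq_sqrt (by norm_num)]
      rw [← mul_div_assoc, ← mul_pow, h3]
    have hmain : c ^ 2 * (40000 * (1 + 2 * Real.log t) / t ^ 3) ≤ 3 / ‖p - C‖ ^ 2 := by
      have h1 := WLip_caseA1 ht9
      have h2 : 40000 * (1 + 2 * Real.log t) / t ^ 3 ≤ 2.94 / t ^ 2 := by
        rw [div_le_div_iff₀ (by positivity) (by positivity)]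
        have h3 : 40000 * (1 + 2 * Real.log t) * t ^ 2 ≤ 2.94 * t * t ^ 2 :=
          mul_le_mul_of_nonneg_right h1 (by positivity)
        calc _ ≤ 2.94 * t * t ^ 2 := h3
          _ = 2.94 * t ^ 3 := by ring
      have h4 : c ^ 2 * (2.94 / t ^ 2) ≤ 3 / ‖p - C‖ ^ 2 := by
        have ht2 : t ^ 2 = (99 / 100) ^ 2 * (c ^ 2 * ‖p - C‖ ^ 2) := by
          rw [ht, htp]
          ring
        rw [ht2]
        have h5 : c ^ 2 * (2.94 / ((99 / 100) ^ 2 * (c ^ 2 * ‖p - C‖ ^ 2))) =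
            (2.94 / (99 / 100) ^ 2) / ‖p - C‖ ^ 2 := by
          field_simp
        rw [h5]
        gcongr
        norm_num
      exact (mul_le_mul_of_nonneg_left h2 (by positivity)).trans h4
    refine hmain.trans ?_
    rw [← hk]
    refine mul_le_mul_of_nonneg_left ?_ hk2
    linarith
  · -- A2
    have hA' : kap D / 8 ≤ ‖p - C‖ := not_lt.1 hA
    set X : ℝ := (M : ℝ) - 1 / 2 with hXd
    have hXpos : 0 < X := by
      have : (0 : ℝ) < 10 ^ 10 := by norm_num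
      linarith
    have hcX : c = k0 D * X := by
      rw [hcdef, cM]
    have hs3 : (1.732 : ℝ) ≤ Real.sqrt 3 := by
      apply Real.le_sqrt_of_sq_le
      norm_num
    have hckap : c * kap D = Real.sqrt 3 * X := by
      rw [hcX]
      calc k0 D * X * kap D = (k0 D * kap D) * X := by ring
        _ = _ := by rw [hkk]
    have htX : 0.2 * X ≤ t := by
      rw [ht, htp]
      have h1 : c * (kap D / 8) ≤ c * ‖p - C‖ := mul_le_mul_of_nonneg_left hA' hc.le
      have h2 : c * (kap D / 8) = Real.sqrt 3 * X / 8 := by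
        rw [← hckap]
        ring
      have h3 : 1.732 * X ≤ Real.sqrt 3 * X := mul_le_mul_of_nonneg_right hs3 hXpos.le
      linarith
    have ht2 : 2 * 10 ^ 9 ≤ t := by
      have : (0.2 : ℝ) * 10 ^ 10 ≤ 0.2 * X := mul_le_mul_of_nonneg_left hX (by norm_num)
      norm_num at this ⊢
      linarith
    have h1 := WLip_caseA2 ht2
    have h2 : 40000 * (1 + 2 * Real.log t) / t ^ 3 ≤ 1 / t ^ 2 := by
      rw [div_le_div_iff₀ (by positivity) (by positivity)]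
      have h3 : 40000 * (1 + 2 * Real.log t) * t ^ 2 ≤ t * t ^ 2 :=
        mul_le_mul_of_nonneg_right h1 (by positivity)
      calc _ ≤ t * t ^ 2 := h3
        _ = 1 * t ^ 3 := by ring
    have h4 : c ^ 2 * (1 / t ^ 2) ≤ k0 D ^ 2 * 25 := by
      rw [mul_one_div, div_le_iff₀ (by positivity), hcX]
      have h5 : (0.2 * X) ^ 2 ≤ t ^ 2 := pow_le_pow_left₀ (by positivity) htX 2
      have h6 : k0 D ^ 2 * (25 * (0.2 * X) ^ 2) ≤ k0 D ^ 2 * (25 * t ^ 2) := by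
        refine mul_le_mul_of_nonneg_left ?_ hk2
        linarith
      calc (k0 D * X) ^ 2 = k0 D ^ 2 * (25 * (0.2 * X) ^ 2) := by ring
        _ ≤ k0 D ^ 2 * (25 * t ^ 2) := h6
        _ = k0 D ^ 2 * 25 * t ^ 2 := by ring
    calc c ^ 2 * (40000 * (1 + 2 * Real.log t) / t ^ 3) ≤ c ^ 2 * (1 / t ^ 2) :=
          mul_le_mul_of_nonneg_left h2 (by positivity)
      _ ≤ k0 D ^ 2 * 25 := h4
      _ ≤ k0 D ^ 2 * (30 + Tc D p) := by
          refine mul_le_mul_of_nonneg_left ?_ hk2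
          linarith

theorem W_lip {D : Dat} (h : Zone D) {p : ℂ} (hW : p ∈ Win D) (hG : p ∈ Gd D) {Z : ℂ}
    (hZ : Z ∈ Metric.closedBall p (4 / cc D p.im)) :
    |aW D Z - aW D p| + ‖bW D Z - bW D p‖ ≤ k0 D ^ 2 * (30 + Tc D p) * ‖Z - p‖ := by
  have hcp : 0 < cc D p.im := cc_pos h p.im
  have hZ' : ‖Z - p‖ ≤ 4 / cc D p.im := by
    rw [Metric.mem_closedBall, dist_eq_norm] at hZ
    exact hZ
  have hr : cc D p.im * ‖Z - p‖ ≤ 4 := by
    rw [le_div_iff₀ hcp] at hZ'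
    linarith
  have hinv := inv_cc h hW.2.2.1 hW.2.2.2
  have hsmall : ‖Z - p‖ ≤ kap D / 25 := by
    have h1 : 4 / cc D p.im = 100 / cc D p.im / 25 := by ring
    rw [h1] at hZ'
    linarith
  have hkap := kap_pos h
  by_cases hex : ∃ M ∈ MM D, ∃ j ∈ JJ D, ‖p - core D M j‖ < kap D / 8 ∨
      ‖Z - core D M j‖ < kap D / 8
  · obtain ⟨M, hM, j, hj, hor⟩ := hex
    have h1 : ‖Z - core D M j‖ ≤ ‖Z - p‖ + ‖p - core D M j‖ := by
      have := norm_add_le (Z - p) (p - core D M j)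
      rwa [sub_add_sub_cancel] at this
    have h2 : ‖p - core D M j‖ ≤ ‖Z - p‖ + ‖Z - core D M j‖ := by
      have := norm_add_le (p - Z) (Z - core D M j)
      rwa [sub_add_sub_cancel, norm_sub_rev p Z] at this
    refine WLip_near h hG hM hj ?_ ?_ hr
    · rcases hor with h3 | h3 <;> linarith
    · rcases hor with h3 | h3 <;> linarith
  · push Not at hex
    obtain ⟨e1, e2, -⟩ := W_out h (Z := p) (fun M hM j hj => (hex M hM j hj).1)
    obtain ⟨e3, e4, -⟩ := W_out h (Z := Z) (fun M hM j hj => (hex M hM j hj).2)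
    rw [e1, e2, e3, e4]
    simp only [sub_self, abs_zero, norm_zero, add_zero]
    have hTc := WLip_Tc_nonneg D p
    positivity

end Pool.Agent.CAPU
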