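import Pool.Agent.Lib.MP_488b8a_co_U.WOne

/-! Project CAPU (MP_488b8a_co), module WTot. -/

namespace Pool.Agent.CAPU

open Complex MeasureTheory

variable {D : Dat}

/-- the two cases: all radial terms vanish, or exactly one core contributes -/
private theorem WTot_core (h : Zone D) {p : ℂ} (hG : p ∈ Gd D) :
    (aW D p = 0 ∧ bW D p = 0 ∧ Tc D p = 0) ∨
    ∃ (M : ℕ) (X t : ℝ), X = (M : ℝ) - 1 / 2 ∧ 10 ≤ M ∧ 10 ^ 10 ≤ X ∧ X < m1 D ∧ 10 ^ 6 ≤ t ∧
      t ^ 2 ≤ Dm M ^ 2 ∧ aW D p = k0 D * X * nu M (t ^ 2) ∧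
      ‖bW D p‖ = k0 D * X * (t ^ 2 * |psd M (t ^ 2)|) ∧ Tc D p = 3 * X ^ 2 / t ^ 2 ∧
      99 / 100 * X ≤ mc D p.im ∧ mc D p.im ≤ 101 / 100 * X := by
  by_cases hf : ∀ M ∈ MM D, ∀ j ∈ JJ D, kap D / 8 ≤ ‖p - core D M j‖
  · exact Or.inl (W_out h hf)
  right
  push Not at hf
  obtain ⟨M, hM, j, hj, hd⟩ := hf
  have hk0 := k0_pos h
  have hkap := kap_pos h
  have hkk := k0_kap h
  obtain ⟨ha, hb, hT⟩ := W_one h hM hj (lt_trans hd (by linarith))
  have hT := hT hd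
  have hcM := cM_pos h hM
  have hg := hG M hM j
  have hcc := cM_cc h hM (le_of_lt (lt_trans hd (by linarith)))
  have hX1 := (mem_MM.mp hM)
  have h10 := h.hm
  set d := ‖p - core D M j‖ with hddef
  have hnorm : ‖(cM D M : ℂ) * (p - core D M j)‖ = cM D M * d := by
    rw [norm_mul, Complex.norm_real, Real.norm_eq_abs, abs_of_pos hcM]
  have hcMX : cM D M = k0 D * ((M : ℝ) - 1 / 2) := rfl
  have hX10 : (10 : ℝ) ^ 10 ≤ (M : ℝ) - 1 / 2 := by linarith [hX1.1]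
  have hdpos : 0 < d := by
    by_contra hcon
    have h0 : d = 0 := le_antisymm (not_lt.mp hcon) (norm_nonneg _)
    rw [h0] at hg
    norm_num at hg
  have hs3 : Real.sqrt 3 ^ 2 = 3 := Real.sq_sqrt (by norm_num)
  have hs3p : 0 < Real.sqrt 3 := Real.sqrt_pos.mpr (by norm_num)
  refine ⟨M, (M : ℝ) - 1 / 2, cM D M * d, rfl, ?_, hX10, hX1.2, hg, ?_, ?_, ?_, ?_, ?_, ?_⟩
  · have : (10 : ℝ) ≤ (M : ℝ) := by linarith [hX10]
    exact_mod_cast this
  · -- t^2 ≤ Dm^2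
    have h1 : cM D M * d ≤ Dm M := by
      have h2 : cM D M * d ≤ cM D M * (kap D / 8) := by
        exact mul_le_mul_of_nonneg_left hd.le hcM.le
      have h3 : cM D M * (kap D / 8) = Dm M := by
        rw [Dm, ← cM_kap h M]; ring
      linarith
    exact pow_le_pow_left₀ (by positivity) h1 2
  · rw [ha, hnorm, hcMX]
  · rw [hb, hnorm]
    rw [norm_mul, norm_mul, norm_pow, hnorm, Complex.norm_real, Complex.norm_real, Real.norm_eq_abs,
      Real.norm_eq_abs, abs_of_pos hcM, hcMX]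
  · rw [hT]
    have hkapeq : kap D = Real.sqrt 3 / k0 D := by
      field_simp
      linarith [hkk]
    rw [hkapeq, hcMX]
    have hXp : (0 : ℝ) < (M : ℝ) - 1 / 2 := by linarith [hX10]
    have e1 : (Real.sqrt 3 / k0 D / d) ^ 2 = Real.sqrt 3 ^ 2 / (k0 D * d) ^ 2 := by
      field_simp
    rw [e1, hs3]
    generalize (M : ℝ) - 1 / 2 = X at hXp ⊢
    field_simp
  · have h1 := hcc.1
    rw [cc_eq h, hcMX] at h1
    have h2 : k0 D * (99 / 100 * ((M : ℝ) - 1 / 2)) ≤ k0 D * mc D p.im := by linarith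
    exact le_of_mul_le_mul_left h2 hk0
  · have h1 := hcc.2
    rw [cc_eq h, hcMX] at h1
    have h2 : k0 D * mc D p.im ≤ k0 D * (101 / 100 * ((M : ℝ) - 1 / 2)) := by linarith
    exact le_of_mul_le_mul_left h2 hk0

private theorem WTot_log {t : ℝ} (ht : 10 ^ 6 ≤ t) : 5000 * (1 + 2 * Real.log t) ≤ 17 / 10 * t := by
  have hp : (0 : ℝ) < t := lt_of_lt_of_le (by norm_num) ht
  have h1 : Real.log t ≤ t / 10 ^ 6 + 13 := by
    have h2 := Real.log_le_sub_one_of_pos (show 0 < t / 10 ^ 6 by positivity)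
    rw [Real.log_div hp.ne' (by norm_num)] at h2
    have h3 : Real.log (10 ^ 6 : ℝ) ≤ 14 := by
      have h4 : (10 : ℝ) ^ 6 ≤ Real.exp 14 := by
        have h5 : (2.7182818283 : ℝ) < Real.exp 1 := Real.exp_one_gt_d9
        have h6 : Real.exp 14 = Real.exp 1 ^ 14 := by
          rw [← Real.exp_nat_mul]; norm_num
        rw [h6]
        calc (10 : ℝ) ^ 6 ≤ 2.7182818283 ^ 14 := by norm_num
          _ ≤ Real.exp 1 ^ 14 := pow_le_pow_left₀ (by norm_num) h5.le 14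
      calc Real.log (10 ^ 6 : ℝ) ≤ Real.log (Real.exp 14) := Real.log_le_log (by norm_num) h4
        _ = 14 := Real.log_exp 14
    generalize Real.log (10 ^ 6 : ℝ) = L at h2 h3
    linarith
  have h7 : t / 10 ^ 6 = t * (1 / 10 ^ 6) := by ring
  nlinarith [h1, h7]

theorem bW_bound (h : Zone D) {p : ℂ} (hW : p ∈ Win D) (hG : p ∈ Gd D) :
    ‖bW D p‖ ≤ k0 D / 10 * Real.sqrt (Tc D p) := by
  have hk0 := k0_pos h
  rcases WTot_core h hG with ⟨-, h2, h3⟩ | ⟨M, X, t, hX, hM, hX10, hXm, ht, htD, ha, hb, hT, hl, hu⟩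
  · rw [h2, h3]; simp
  have htp : (0 : ℝ) < t := lt_of_lt_of_le (by norm_num) ht
  have hXp : (0 : ℝ) < X := lt_of_lt_of_le (by norm_num) hX10
  rw [hb, hT]
  have hsq : Real.sqrt (3 * X ^ 2 / t ^ 2) = Real.sqrt 3 * X / t := by
    rw [show 3 * X ^ 2 / t ^ 2 = 3 * (X / t) ^ 2 by ring, Real.sqrt_mul (by norm_num),
      Real.sqrt_sq (by positivity)]
    ring
  rw [hsq]
  have hs1 : (1 : ℝ) ≤ t ^ 2 := by nlinarith
  have h1 := psd_bd (M := M) (by omega) hs1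
  have h2 : t ^ 2 * |psd M (t ^ 2)| ≤ 500 * (1 + 2 * Real.log t) / t ^ 2 := by
    calc t ^ 2 * |psd M (t ^ 2)| ≤ t ^ 2 * (500 * (1 + Real.log (t ^ 2)) / (t ^ 2) ^ 2) := by
          exact mul_le_mul_of_nonneg_left h1 (by positivity)
      _ = 500 * (1 + 2 * Real.log t) / t ^ 2 := by
          rw [Real.log_pow]; field_simp; push_cast; ring
  have h3 : (17 / 10 : ℝ) ≤ Real.sqrt 3 := by
    apply Real.le_sqrt_of_sq_le; norm_num
  have h4 := WTot_log ht
  have h5 : 500 * (1 + 2 * Real.log t) / t ^ 2 ≤ Real.sqrt 3 / (10 * t) := by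
    rw [div_le_div_iff₀ (by positivity) (by positivity)]
    have h6 : 17 / 10 * t ≤ Real.sqrt 3 * t := mul_le_mul_of_nonneg_right h3 htp.le
    have h7 : 5000 * (1 + 2 * Real.log t) * t ≤ Real.sqrt 3 * t * t :=
      mul_le_mul_of_nonneg_right (le_trans h4 h6) htp.le
    nlinarith [h7]
  calc k0 D * X * (t ^ 2 * |psd M (t ^ 2)|) ≤ k0 D * X * (Real.sqrt 3 / (10 * t)) :=
        mul_le_mul_of_nonneg_left (le_trans h2 h5) (by positivity)
    _ = k0 D / 10 * (Real.sqrt 3 * X / t) := by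
        field_simp

/-- lower and upper bounds for the contribution of one core -/
private theorem WTot_aW (h : Zone D) {M : ℕ} {X t : ℝ} (hX : X = (M : ℝ) - 1 / 2) (hM : 10 ≤ M)
    (hX10 : 10 ^ 10 ≤ X) (hXm : X < m1 D) (ht : 10 ^ 6 ≤ t) (htD : t ^ 2 ≤ Dm M ^ 2) :
    k0 D / X * (33 * (3 * X ^ 2 / t ^ 2) - 6400 - 12800 * Real.log (m1 D)) ≤
      k0 D * X * nu M (t ^ 2) ∧
    k0 D * X * nu M (t ^ 2) ≤ k0 D / X * (34 * (3 * X ^ 2 / t ^ 2)) := by
  have hk0 := k0_pos h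
  have htp : (0 : ℝ) < t := lt_of_lt_of_le (by norm_num) ht
  have hXp : (0 : ℝ) < X := lt_of_lt_of_le (by norm_num) hX10
  have hs1 : (1 : ℝ) ≤ t ^ 2 := by nlinarith
  have hDm : Dm M = Real.sqrt 3 * X / 8 := by rw [hX]; rfl
  have hs3 : Real.sqrt 3 ^ 2 = 3 := Real.sq_sqrt (by norm_num)
  have hs3p : 0 < Real.sqrt 3 := Real.sqrt_pos.mpr (by norm_num)
  have hs3u : Real.sqrt 3 ≤ 2 := by
    rw [Real.sqrt_le_left (by norm_num)]; norm_num
  have hDp : 0 < Dm M := by rw [hDm]; positivity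
  have hD2 : Dm M ^ 2 = 3 * X ^ 2 / 64 := by
    rw [hDm, div_pow, mul_pow, hs3]; norm_num
  have hlog : Real.log (Dm M) ≤ Real.log (m1 D) := by
    apply Real.log_le_log hDp
    rw [hDm]
    have : Real.sqrt 3 * X ≤ 2 * X := mul_le_mul_of_nonneg_right hs3u hXp.le
    linarith
  constructor
  · have h1 := nu_low hM hs1 htD
    have h2 : k0 D * X * (100 / t ^ 2 - 100 * (3 + 6 * Real.log (Dm M)) / Dm M ^ 2) ≤
        k0 D * X * nu M (t ^ 2) := mul_le_mul_of_nonneg_left h1 (by positivity)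
    refine le_trans ?_ h2
    rw [hD2]
    have e1 : k0 D * X * (100 / t ^ 2 - 100 * (3 + 6 * Real.log (Dm M)) / (3 * X ^ 2 / 64)) =
        k0 D / X * (100 / 3 * (3 * X ^ 2 / t ^ 2) - 6400 - 12800 * Real.log (Dm M)) := by
      field_simp
      ring
    rw [e1]
    apply mul_le_mul_of_nonneg_left _ (by positivity)
    have h3 : 0 ≤ 3 * X ^ 2 / t ^ 2 := by positivity
    linarith
  · have h1 := nu_up (M := M) hs1
    have h2 : k0 D * X * nu M (t ^ 2) ≤ k0 D * X * (100 / t ^ 2) :=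
      mul_le_mul_of_nonneg_left h1 (by positivity)
    refine le_trans h2 ?_
    have e1 : k0 D * X * (100 / t ^ 2) = k0 D / X * (100 / 3 * (3 * X ^ 2 / t ^ 2)) := by
      field_simp
    rw [e1]
    apply mul_le_mul_of_nonneg_left _ (by positivity)
    have h3 : 0 ≤ 3 * X ^ 2 / t ^ 2 := by positivity
    linarith

theorem aW_low (h : Zone D) {p : ℂ} (hW : p ∈ Win D) (hG : p ∈ Gd D) :
    cc D p.im * (25 * Tc D p - 15000 * (1 + Real.log (m1 D))) / mc D p.im ^ 2 ≤ aW D p := by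
  have hk0 := k0_pos h
  have hcc := cc_pos h p.im
  have hlm := log_m1 h
  rcases WTot_core h hG with ⟨h1, -, h3⟩ | ⟨M, X, t, hX, hM, hX10, hXm, ht, htD, ha, hb, hT, hl, hu⟩
  · rw [h1, h3]
    apply div_nonpos_of_nonpos_of_nonneg _ (by positivity)
    apply mul_nonpos_of_nonneg_of_nonpos hcc.le
    linarith
  have hXp : (0 : ℝ) < X := lt_of_lt_of_le (by norm_num) hX10
  have htp : (0 : ℝ) < t := lt_of_lt_of_le (by norm_num) ht
  have hmp : 0 < mc D p.im := lt_of_lt_of_le (by positivity) hl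
  rw [ha]
  refine le_trans ?_ (WTot_aW h hX hM hX10 hXm ht htD).1
  rw [← hT]
  have hT0 : 0 ≤ Tc D p := by rw [hT]; positivity
  rw [cc_eq h]
  have e1 : k0 D * mc D p.im * (25 * Tc D p - 15000 * (1 + Real.log (m1 D))) / mc D p.im ^ 2 =
      k0 D * ((25 * Tc D p - 15000 * (1 + Real.log (m1 D))) / mc D p.im) := by
    field_simp
  have e2 : k0 D / X * (33 * Tc D p - 6400 - 12800 * Real.log (m1 D)) =
      k0 D * ((33 * Tc D p - 6400 - 12800 * Real.log (m1 D)) / X) := by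
    ring
  rw [e1, e2]
  apply mul_le_mul_of_nonneg_left _ hk0.le
  rw [div_le_div_iff₀ hmp hXp]
  -- (25 T - 15000 (1+L)) X ≤ (33 T - 6400 - 12800 L) mc
  have hL : 0 ≤ Real.log (m1 D) := by linarith
  have q1 : 25 * Tc D p * X ≤ 33 * Tc D p * mc D p.im := by
    have := mul_le_mul_of_nonneg_left hl hT0
    nlinarith [mul_nonneg hT0 hXp.le]
  have q2 : (6400 + 12800 * Real.log (m1 D)) * mc D p.im ≤
      15000 * (1 + Real.log (m1 D)) * X := by
    have := mul_le_mul_of_nonneg_left hu (show 0 ≤ 6400 + 12800 * Real.log (m1 D) by positivity)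
    nlinarith [mul_nonneg hL hXp.le]
  nlinarith [q1, q2]

theorem aW_up (h : Zone D) {p : ℂ} (hW : p ∈ Win D) (hG : p ∈ Gd D) :
    |aW D p| ≤ cc D p.im * (100 * Tc D p + 15000 * (1 + Real.log (m1 D))) / mc D p.im ^ 2 := by
  have hk0 := k0_pos h
  have hcc := cc_pos h p.im
  have hlm := log_m1 h
  have hL : 0 ≤ Real.log (m1 D) := by linarith
  rcases WTot_core h hG with ⟨h1, -, h3⟩ | ⟨M, X, t, hX, hM, hX10, hXm, ht, htD, ha, hb, hT, hl, hu⟩
  · rw [h1, h3, abs_zero]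
    positivity
  have hXp : (0 : ℝ) < X := lt_of_lt_of_le (by norm_num) hX10
  have htp : (0 : ℝ) < t := lt_of_lt_of_le (by norm_num) ht
  have hmp : 0 < mc D p.im := lt_of_lt_of_le (by positivity) hl
  obtain ⟨g1, g2⟩ := WTot_aW h hX hM hX10 hXm ht htD
  rw [← ha, ← hT] at g1 g2
  have hT0 : 0 ≤ Tc D p := by rw [hT]; positivity
  have g3 : |aW D p| ≤ k0 D / X * (34 * Tc D p + 6400 + 12800 * Real.log (m1 D)) := by
    have hq : 0 ≤ k0 D / X := by positivity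
    rw [abs_le]
    constructor
    · refine le_trans ?_ g1
      rw [← mul_neg]
      apply mul_le_mul_of_nonneg_left _ hq
      linarith
    · refine le_trans g2 ?_
      apply mul_le_mul_of_nonneg_left _ hq
      linarith
  refine le_trans g3 ?_
  rw [cc_eq h]
  have e1 : k0 D * mc D p.im * (100 * Tc D p + 15000 * (1 + Real.log (m1 D))) / mc D p.im ^ 2 =
      k0 D * ((100 * Tc D p + 15000 * (1 + Real.log (m1 D))) / mc D p.im) := by
    field_simp
  have e2 : k0 D / X * (34 * Tc D p + 6400 + 12800 * Real.log (m1 D)) =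
      k0 D * ((34 * Tc D p + 6400 + 12800 * Real.log (m1 D)) / X) := by
    ring
  rw [e1, e2]
  apply mul_le_mul_of_nonneg_left _ hk0.le
  rw [div_le_div_iff₀ hXp hmp]
  have q1 : (34 * Tc D p + 6400 + 12800 * Real.log (m1 D)) * mc D p.im ≤
      (34 * Tc D p + 6400 + 12800 * Real.log (m1 D)) * (101 / 100 * X) :=
    mul_le_mul_of_nonneg_left hu (by positivity)
  refine le_trans q1 ?_
  nlinarith [mul_nonneg hT0 hXp.le, mul_nonneg hL hXp.le]

theorem Tc_bd (h : Zone D) {p : ℂ} (hW : p ∈ Win D) (hG : p ∈ Gd D) :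
    0 ≤ Tc D p ∧ Tc D p ≤ mc D p.im ^ 2 / 10 ^ 10 := by
  rcases WTot_core h hG with ⟨h1, -, h3⟩ | ⟨M, X, t, hX, hM, hX10, hXm, ht, htD, ha, hb, hT, hl, hu⟩
  · rw [h3]
    exact ⟨le_refl _, by positivity⟩
  have hXp : (0 : ℝ) < X := lt_of_lt_of_le (by norm_num) hX10
  have htp : (0 : ℝ) < t := lt_of_lt_of_le (by norm_num) ht
  rw [hT]
  refine ⟨by positivity, ?_⟩
  rw [div_le_div_iff₀ (by positivity) (by norm_num)]
  have h1 : (10 ^ 6 : ℝ) ^ 2 ≤ t ^ 2 := pow_le_pow_left₀ (by norm_num) ht 2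
  have h2 : (99 / 100 * X) ^ 2 ≤ mc D p.im ^ 2 := pow_le_pow_left₀ (by positivity) hl 2
  have h3 : (99 / 100 * X) ^ 2 * (10 ^ 6 : ℝ) ^ 2 ≤ mc D p.im ^ 2 * t ^ 2 :=
    mul_le_mul h2 h1 (by positivity) (by positivity)
  nlinarith [h3, sq_nonneg X]

end Pool.Agent.CAPU
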