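import Pool.Agent.Lib.MP_488b8a_co_U.CotS
import Pool.Agent.Lib.MP_488b8a_co_U.CotL
import Pool.Agent.Lib.MP_488b8a_co_U.S2T
import Pool.Agent.Lib.MP_488b8a_co_U.WTot
import Pool.Agent.Lib.MP_488b8a_co_U.WLip

/-! Project CAPU (MP_488b8a_co), module Key. -/

namespace Pool.Agent.CAPU

open Complex MeasureTheory

private theorem Key_S2_nonneg (D : Dat) (p : ℂ) : 0 ≤ S2 D p := by
  unfold S2
  exact Finset.sum_nonneg fun M _ => by positivity

/-- pure numerics: the bound for `L` -/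
private theorem Key_num_L {k m c S T : ℝ} (hk : 0 < k) (hc : c = k * m) (hm : m ≤ 0.505 * k)
    (hS : S ≤ 40 + T / 4) :
    4.01 * c + 8 * k ^ 2 * S + k ^ 2 * (30 + T) ≤ k ^ 2 * (352.1 + 3 * T) := by
  have h1 : c ≤ 0.505 * k ^ 2 := by
    rw [hc]
    have := mul_le_mul_of_nonneg_left hm hk.le
    linarith
  have h2 : 8 * k ^ 2 * S ≤ 8 * k ^ 2 * (40 + T / 4) :=
    mul_le_mul_of_nonneg_left hS (by positivity)
  have h3 : 0 ≤ k ^ 2 := by positivity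
  have e : k ^ 2 * (352.1 + 3 * T) =
      2.1 * k ^ 2 + 8 * k ^ 2 * (40 + T / 4) + k ^ 2 * (30 + T) := by ring
  rw [e]
  linarith

private theorem Key_num_bb {k m c S T μ : ℝ} (hk : 0 < k) (hc : c = k * m)
    (hS : S ≤ 40 + T / 4) (hT : 0 ≤ T) (hμ : m * μ ≤ 0.101) :
    k * (2 + Real.sqrt S) + c * μ + k / 10 * Real.sqrt T ≤ k * (8.44 + 0.6 * Real.sqrt T) := by
  have h1 : Real.sqrt S ≤ 6.33 + Real.sqrt T / 2 := by
    apply Real.sqrt_le_iff.2
    have hs := Real.sq_sqrt hT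
    have hs0 := Real.sqrt_nonneg T
    refine ⟨by positivity, ?_⟩
    have e : (6.33 + Real.sqrt T / 2) ^ 2 = 6.33 ^ 2 + 6.33 * Real.sqrt T + Real.sqrt T ^ 2 / 4 := by
      ring
    rw [e, hs]
    have : 0 ≤ 6.33 * Real.sqrt T := by positivity
    norm_num at this ⊢
    linarith
  have h2 : c * μ ≤ k * 0.101 := by
    rw [hc, mul_assoc]
    exact mul_le_mul_of_nonneg_left hμ hk.le
  have h3 : k * Real.sqrt S ≤ k * (6.33 + Real.sqrt T / 2) := mul_le_mul_of_nonneg_left h1 hk.le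
  have e : k * (8.44 + 0.6 * Real.sqrt T) = k * 2 + k * (6.33 + Real.sqrt T / 2) + k * 0.11 +
      k / 10 * Real.sqrt T := by ring
  rw [e]
  linarith

private theorem Key_num_T {m T : ℝ} (hm : 10 ^ 9 ≤ m) (hT2 : T ≤ m ^ 2 / 10 ^ 10) :
    Real.sqrt T ≤ m / 10 ^ 5 := by
  apply Real.sqrt_le_iff.2
  refine ⟨by positivity, ?_⟩
  rw [div_pow]
  norm_num at hT2 ⊢
  linarith

private theorem Key_num_fin {k m c S T μ Λ m₁ β L A : ℝ} (hk : 0 < k) (hm : 0 < m)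
    (hc : c = k * m) (hS : S ≤ 40 + T / 4) (hmk : m ≤ 0.505 * k) (hT : 0 ≤ T)
    (hL : L = 4.01 * c + 8 * k ^ 2 * S + k ^ 2 * (30 + T))
    (hβ0 : 0 ≤ β) (hβ : β ≤ k * (8.44 + 0.6 * Real.sqrt T)) (hm₁ : 0 < m₁) (hm13 : m₁ / 3 ≤ m)
    (hμ : μ = 10 ^ 6 * Λ / m₁ ^ 2) (hΛ : 20 ≤ Λ)
    (hA : c * (25 * T - 15000 * (1 + Λ)) / m ^ 2 ≤ A) :
    c * (1 + 4 * β ^ 2 / c ^ 2 + 5 * L / c ^ 2) ≤ c * (1 + μ) + A := by
  have hc0 : 0 < c := by rw [hc]; positivity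
  have h1 := Key_num_L hk hc hmk hS
  rw [← hL] at h1
  have hs := Real.sq_sqrt hT
  have hs0 := Real.sqrt_nonneg T
  have h2 : β ^ 2 ≤ k ^ 2 * (142.48 + 0.72 * T) := by
    have h3 : β ^ 2 ≤ (k * (8.44 + 0.6 * Real.sqrt T)) ^ 2 := pow_le_pow_left₀ hβ0 hβ 2
    have h4 : (8.44 + 0.6 * Real.sqrt T) ^ 2 ≤ 142.48 + 0.72 * T := by
      have h5 : 0 ≤ (8.44 - 0.6 * Real.sqrt T) ^ 2 := sq_nonneg _
      nlinarith
    calc β ^ 2 ≤ k ^ 2 * (8.44 + 0.6 * Real.sqrt T) ^ 2 := by rw [← mul_pow]; exact h3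
      _ ≤ k ^ 2 * (142.48 + 0.72 * T) := mul_le_mul_of_nonneg_left h4 (by positivity)
  have h6 : 4 * β ^ 2 / c ^ 2 + 5 * L / c ^ 2 ≤ (2331 + 18 * T) / m ^ 2 := by
    rw [← add_div, hc, mul_pow, div_le_div_iff₀ (by positivity) (by positivity)]
    have h7 : 4 * β ^ 2 + 5 * L ≤ k ^ 2 * (2331 + 18 * T) := by
      have h8 : 0 ≤ k ^ 2 := by positivity
      have h9 : 0 ≤ k ^ 2 * T := by positivity
      have e1 : k ^ 2 * (142.48 + 0.72 * T) = 142.48 * k ^ 2 + 0.72 * (k ^ 2 * T) := by ring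
      have e2 : k ^ 2 * (352.1 + 3 * T) = 352.1 * k ^ 2 + 3 * (k ^ 2 * T) := by ring
      have e3 : k ^ 2 * (2331 + 18 * T) = 2331 * k ^ 2 + 18 * (k ^ 2 * T) := by ring
      rw [e1] at h2
      rw [e2] at h1
      rw [e3]
      linarith
    calc (4 * β ^ 2 + 5 * L) * m ^ 2 ≤ (k ^ 2 * (2331 + 18 * T)) * m ^ 2 :=
          mul_le_mul_of_nonneg_right h7 (by positivity)
      _ = (2331 + 18 * T) * (k ^ 2 * m ^ 2) := by ring
  have h10 : 111111 * Λ / m ^ 2 ≤ μ := by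
    rw [hμ, div_le_div_iff₀ (by positivity) (by positivity)]
    have h11 : m₁ ^ 2 ≤ 9 * m ^ 2 := by
      have : m₁ ≤ 3 * m := by linarith
      calc m₁ ^ 2 ≤ (3 * m) ^ 2 := pow_le_pow_left₀ hm₁.le this 2
        _ = 9 * m ^ 2 := by ring
    have h12 : 111111 * Λ * m₁ ^ 2 ≤ 111111 * Λ * (9 * m ^ 2) :=
      mul_le_mul_of_nonneg_left h11 (by positivity)
    have h13 : 0 ≤ Λ * m ^ 2 := by positivity
    nlinarith
  have h14 : (2331 + 18 * T) / m ^ 2 ≤ 111111 * Λ / m ^ 2 + (25 * T - 15000 * (1 + Λ)) / m ^ 2 := by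
    rw [← add_div]
    apply div_le_div_of_nonneg_right _ (by positivity)
    linarith
  have h15 : c * (4 * β ^ 2 / c ^ 2 + 5 * L / c ^ 2) ≤
      c * (μ + (25 * T - 15000 * (1 + Λ)) / m ^ 2) :=
    mul_le_mul_of_nonneg_left (by linarith) hc0.le
  have e4 : c * (25 * T - 15000 * (1 + Λ)) / m ^ 2 = c * ((25 * T - 15000 * (1 + Λ)) / m ^ 2) := by
    ring
  rw [e4] at hA
  have e5 : c * (1 + 4 * β ^ 2 / c ^ 2 + 5 * L / c ^ 2) =
      c + c * (4 * β ^ 2 / c ^ 2 + 5 * L / c ^ 2) := by ring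
  rw [e5]
  have e6 : c * (μ + (25 * T - 15000 * (1 + Λ)) / m ^ 2) =
      c * μ + c * ((25 * T - 15000 * (1 + Λ)) / m ^ 2) := by ring
  rw [e6] at h15
  linarith

theorem key {D : Dat} (h : Zone D) {p : ℂ} (hW : p ∈ Win D) (hG : p ∈ Gd D) :
    ∃ L : ℝ, 0 ≤ L ∧ 100 * L ≤ cc D p.im ^ 2 ∧
      (∀ Z ∈ Metric.closedBall p (4 / cc D p.im),
        ‖(aa D Z : ℂ) - (aa D p : ℂ)‖ + ‖bb D Z - bb D p‖ ≤ L * ‖Z - p‖) ∧
      cc D p.im ≤ aa D p ∧ 10 * ‖bb D p‖ ≤ cc D p.im ∧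
      cc D p.im * (1 + 4 * ‖bb D p‖ ^ 2 / cc D p.im ^ 2 + 5 * L / cc D p.im ^ 2) ≤ aa D p := by
  have hm1 := m1_ge h
  have hk0 := k0_pos h
  have hk2 := k0_ge h
  have hK := K_k0 h
  have hK0 := K_pos h
  have hcc := cc_pos h p.im
  have hceq := cc_eq h p.im
  obtain ⟨hmc1, hmc2⟩ := mc_win h hW.2.2.1 hW.2.2.2
  obtain ⟨hT0, hT1⟩ := Tc_bd h hW hG
  have hμ0 := mu_nonneg h
  have hμ1 := mu_m1 h
  have hμ2 := mu_le h
  have hΛ := log_m1 h
  have hS0 := Key_S2_nonneg D p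
  have hcore : ∀ M ∈ MM D, ∀ j : ℤ, p ≠ core D M j := by
    intro M hM j he
    have h1 := hG M hM j
    rw [← he, sub_self, norm_zero, mul_zero] at h1
    norm_num at h1
  have hS := S2_le h hW hcore
  have hm9 : 10 ^ 9 ≤ mc D p.im := by linarith
  have hmk : mc D p.im ≤ 0.505 * k0 D := by linarith
  have hm0 : 0 < mc D p.im := by linarith
  have hsin : ∀ M ∈ MM D, sin (wM D M p) ≠ 0 := by
    intro M hM
    exact (sin_ball h hW hG hM (Metric.mem_closedBall_self (by positivity))).1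
  have hbF := bF_bound h hW hsin
  have hbW := bW_bound h hW hG
  -- the bound for `bb p`
  have hbb : ‖bb D p‖ ≤ k0 D * (8.44 + 0.6 * Real.sqrt (Tc D p)) := by
    have hμm : mc D p.im * mu D ≤ 0.101 := by
      have h1 : mc D p.im * mu D ≤ 1.01 * m1 D * mu D := mul_le_mul_of_nonneg_right hmc2 hμ0
      linarith
    refine le_trans ?_ (Key_num_bb hk0 hceq hS hT0 hμm)
    have e : bb D p = (((b1 D - cc D p.im : ℝ) : ℂ) + bF D p) - ((cc D p.im * mu D : ℝ) : ℂ) +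
        bW D p := by
      unfold bb
      push_cast
      ring
    rw [e]
    refine (norm_add_le _ _).trans (add_le_add ((norm_sub_le _ _).trans (add_le_add hbF ?_)) hbW)
    rw [Complex.norm_real, Real.norm_of_nonneg (by positivity)]
  have hsT := Key_num_T hm9 hT1
  set L : ℝ := 4.01 * cc D p.im + 8 * k0 D ^ 2 * S2 D p + k0 D ^ 2 * (30 + Tc D p) with hL
  have hfin : cc D p.im * (1 + 4 * ‖bb D p‖ ^ 2 / cc D p.im ^ 2 + 5 * L / cc D p.im ^ 2) ≤
      aa D p := by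
    unfold aa
    exact Key_num_fin hk0 hm0 hceq hS hmk hT0 hL (norm_nonneg _) hbb (by linarith) hmc1 rfl hΛ
      (aW_low h hW hG)
  have hL0 : 0 ≤ L := by positivity
  refine ⟨L, hL0, ?_, ?_, ?_, ?_, hfin⟩
  · -- `100 L ≤ c ^ 2`
    have h1 := Key_num_L hk0 hceq hmk hS
    rw [hceq, mul_pow]
    have h2 : 100 * (352.1 + 3 * Tc D p) ≤ mc D p.im ^ 2 := by
      have h3 : (10 : ℝ) ^ 9 * 10 ^ 9 ≤ mc D p.im * mc D p.im :=
        mul_le_mul hm9 hm9 (by norm_num) hm0.le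
      have h4 : (10 : ℝ) ^ 18 ≤ mc D p.im ^ 2 := by
        rw [sq]
        norm_num at h3 ⊢
        exact h3
      norm_num at hT1 h4 ⊢
      linarith
    have h5 : k0 D ^ 2 * (100 * (352.1 + 3 * Tc D p)) ≤ k0 D ^ 2 * mc D p.im ^ 2 :=
      mul_le_mul_of_nonneg_left h2 (by positivity)
    rw [← hL] at h1
    linarith
  · -- the Lipschitz bound
    intro Z hZ
    have hZd : ‖Z - p‖ ≤ 4 / cc D p.im := by
      rw [← dist_eq_norm]
      exact hZ
    have h1 : |Z.im - p.im| ≤ ‖Z - p‖ := by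
      rw [← Complex.sub_im]
      exact Complex.abs_im_le_norm _
    have h2 : 100 / cc D p.im ≤ kap D := inv_cc h hW.2.2.1 hW.2.2.2
    have h3 := kap_le h
    have h4 : |p.im - Z.im| ≤ 1 / 2 := by
      rw [abs_sub_comm]
      have h5 : 4 / cc D p.im = 4 / 100 * (100 / cc D p.im) := by ring
      rw [h5] at hZd
      norm_num at h3
      linarith
    have h6 := cc_lip h h4
    rw [abs_sub_comm p.im, abs_sub_comm] at h6
    have hn0 : 0 ≤ ‖Z - p‖ := norm_nonneg _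
    have h7 : |cc D Z.im - cc D p.im| ≤ 2 * cc D p.im * ‖Z - p‖ :=
      h6.trans (mul_le_mul_of_nonneg_left h1 (by positivity))
    have h8 : (1 + mu D) * |cc D Z.im - cc D p.im| ≤ 2.002 * cc D p.im * ‖Z - p‖ := by
      calc (1 + mu D) * |cc D Z.im - cc D p.im|
          ≤ (1 + 1 / 1000) * (2 * cc D p.im * ‖Z - p‖) :=
            mul_le_mul (by linarith) h7 (abs_nonneg _) (by norm_num)
        _ = 2.002 * cc D p.im * ‖Z - p‖ := by ring
    have ea : ‖(aa D Z : ℂ) - (aa D p : ℂ)‖ ≤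
        (1 + mu D) * |cc D Z.im - cc D p.im| + |aW D Z - aW D p| := by
      rw [← Complex.ofReal_sub, Complex.norm_real, Real.norm_eq_abs]
      have e : aa D Z - aa D p = (1 + mu D) * (cc D Z.im - cc D p.im) + (aW D Z - aW D p) := by
        unfold aa
        ring
      rw [e]
      refine (abs_add_le _ _).trans (add_le_add (le_of_eq ?_) le_rfl)
      rw [abs_mul, abs_of_nonneg (by positivity)]
    have hpb : p ∈ Metric.closedBall p (4 / cc D p.im) :=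
      Metric.mem_closedBall_self (by positivity)
    have hF := bF_lip h hW hG hZ hpb
    have eb : ‖bb D Z - bb D p‖ ≤
        (1 + mu D) * |cc D Z.im - cc D p.im| + ‖bF D Z - bF D p‖ + ‖bW D Z - bW D p‖ := by
      have e : bb D Z - bb D p = -(((1 + mu D) * (cc D Z.im - cc D p.im) : ℝ) : ℂ) +
          (bF D Z - bF D p) + (bW D Z - bW D p) := by
        unfold bb
        push_cast
        ring
      rw [e]
      refine (norm_add_le _ _).trans (add_le_add ((norm_add_le _ _).trans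
        (add_le_add (le_of_eq ?_) le_rfl)) le_rfl)
      rw [norm_neg, Complex.norm_real, Real.norm_eq_abs, abs_mul, abs_of_nonneg (by positivity)]
    have hWl := W_lip h hW hG hZ
    have hF2 : 2 * k0 D * D.K * S2 D p * ‖Z - p‖ ≤ 8 * k0 D ^ 2 * S2 D p * ‖Z - p‖ := by
      apply mul_le_mul_of_nonneg_right _ hn0
      apply mul_le_mul_of_nonneg_right _ hS0
      have : 2 * k0 D * D.K ≤ 2 * k0 D * (4 * k0 D) :=
        mul_le_mul_of_nonneg_left hK (by positivity)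
      linarith
    have e9 : L * ‖Z - p‖ = 4.01 * cc D p.im * ‖Z - p‖ + 8 * k0 D ^ 2 * S2 D p * ‖Z - p‖ +
        k0 D ^ 2 * (30 + Tc D p) * ‖Z - p‖ := by
      rw [hL]
      ring
    rw [e9]
    have h10 : 0 ≤ cc D p.im * ‖Z - p‖ := by positivity
    linarith
  · -- `c ≤ aa p`
    refine le_trans ?_ hfin
    have h1 : 0 ≤ 4 * ‖bb D p‖ ^ 2 / cc D p.im ^ 2 + 5 * L / cc D p.im ^ 2 := by positivity
    have h2 : 0 ≤ cc D p.im * (4 * ‖bb D p‖ ^ 2 / cc D p.im ^ 2 + 5 * L / cc D p.im ^ 2) :=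
      mul_nonneg hcc.le h1
    linarith
  · -- `10 ‖bb p‖ ≤ c`
    rw [hceq]
    have h1 : 10 * (8.44 + 0.6 * Real.sqrt (Tc D p)) ≤ mc D p.im := by
      norm_num at hsT hm9 ⊢
      linarith
    have h2 : k0 D * (10 * (8.44 + 0.6 * Real.sqrt (Tc D p))) ≤ k0 D * mc D p.im :=
      mul_le_mul_of_nonneg_left h1 hk0.le
    linarith

end Pool.Agent.CAPU
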