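import Pool.Agent.Lib.MP_488b8a_co_U.Defs

/-! CAPU, module Net: finite nets around the cores. -/

open Complex MeasureTheory

namespace Pool.Agent.CAPU

theorem nets : ∃ N : ℕ, ∀ (c : ℝ) (z : ℂ), 0 < c → ∃ Q : Finset ℂ, Q.card ≤ N ∧
    ∀ Z : ℂ, ‖Z - z‖ ≤ 10 ^ 7 / c → ∃ q ∈ Q, ‖Z - q‖ ≤ 1 / (2 * c) := by
  classical
  obtain ⟨t, -, htf, ht⟩ := (isCompact_closedBall (0 : ℂ) (10 ^ 7)).finite_cover_balls
    (e := 1 / 2) (by norm_num)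
  refine ⟨htf.toFinset.card, fun c z hc => ?_⟩
  refine ⟨htf.toFinset.image (fun w => z + w / (c : ℂ)), Finset.card_image_le, fun Z hZ => ?_⟩
  have hc' : (c : ℂ) ≠ 0 := by exact_mod_cast hc.ne'
  have hw : (c : ℂ) * (Z - z) ∈ Metric.closedBall (0 : ℂ) (10 ^ 7) := by
    rw [mem_closedBall_zero_iff, norm_mul, Complex.norm_real, Real.norm_of_nonneg hc.le]
    calc c * ‖Z - z‖ ≤ c * (10 ^ 7 / c) := mul_le_mul_of_nonneg_left hZ hc.le
      _ = 10 ^ 7 := by field_simp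
  obtain ⟨q, hq, hq2⟩ := Set.mem_iUnion₂.1 (ht hw)
  refine ⟨z + q / (c : ℂ), Finset.mem_image.2 ⟨q, htf.mem_toFinset.2 hq, rfl⟩, ?_⟩
  rw [Metric.mem_ball, dist_eq_norm] at hq2
  have h1 : Z - (z + q / (c : ℂ)) = ((c : ℂ) * (Z - z) - q) / (c : ℂ) := by
    field_simp
    ring
  rw [h1, norm_div, Complex.norm_real, Real.norm_of_nonneg hc.le, div_le_iff₀ hc]
  have h2 : 1 / (2 * c) * c = 1 / 2 := by
    field_simp
  rw [h2]
  exact hq2.le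

end Pool.Agent.CAPU
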