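import Pool.Agent.Lib.MP_488b8a_co_U.Defs

/-! Project CAPU (MP_488b8a_co), module Num1. -/

namespace Pool.Agent.CAPU

open Complex MeasureTheory

variable {D : Dat}

private theorem n1_K (h : Zone D) : (0 : ℝ) < D.K := by
  rcases Nat.eq_zero_or_pos D.K with h0 | h0
  · exfalso
    have h1 := h.hm
    have h2 : k0 D = 0 := by
      unfold k0
      rw [h0]
      simp
    unfold mc at h1
    rw [h2, div_zero] at h1
    norm_num at h1
  · exact_mod_cast h0

private theorem n1_k0 (h : Zone D) : 0 < k0 D := by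
  have := n1_K h
  unfold k0
  positivity

private theorem n1_cc (h : Zone D) (y : ℝ) : 0 < cc D y := by
  have := h.hρ
  have := Real.cosh_pos y
  unfold cc
  positivity

theorem m1_ge (h : Zone D) : 10 ^ 10 ≤ m1 D := by
  refine h.hm.trans ?_
  unfold m1 mc
  have hk := n1_k0 h
  have hρ := h.hρ
  have h1 : Real.cosh D.y₁ ≤ Real.cosh D.y₂ := by
    rw [Real.cosh_le_cosh, abs_of_nonneg h.h0, abs_of_nonneg (h.h0.trans h.h12.le)]
    exact h.h12.le
  have h2 := Real.cosh_pos D.y₁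
  unfold cc
  apply div_le_div_of_nonneg_right _ hk.le
  apply one_div_le_one_div_of_le (by positivity)
  exact mul_le_mul_of_nonneg_left h1 hρ.le

theorem K_pos (h : Zone D) : (0 : ℝ) < D.K := n1_K h

theorem k0_pos (h : Zone D) : 0 < k0 D := n1_k0 h

theorem kap_pos (h : Zone D) : 0 < kap D := by
  have := n1_K h
  unfold kap
  positivity

theorem k0_kap (h : Zone D) : k0 D * kap D = Real.sqrt 3 := by
  have := (n1_K h).ne'
  have := Real.pi_pos.ne'
  unfold k0 kap
  field_simp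

theorem cc_eq (h : Zone D) (y : ℝ) : cc D y = k0 D * mc D y := by
  have := (n1_k0 h).ne'
  unfold mc
  field_simp

theorem cc_pos (h : Zone D) (y : ℝ) : 0 < cc D y := n1_cc h y

private theorem n1_m1 (h : Zone D) : 0 < m1 D := lt_of_lt_of_le (by norm_num) (m1_ge h)

theorem kap_m1 (h : Zone D) : kap D * m1 D ≤ Real.pi / 4 := by
  have hK := n1_K h
  have h1 := h.hK
  have hpi := Real.pi_pos
  unfold kap
  rw [div_mul_eq_mul_div, div_le_div_iff₀ hK (by norm_num)]
  nlinarith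

theorem kap_le (h : Zone D) : kap D ≤ 1 / 10 ^ 9 := by
  have h1 := kap_m1 h
  have h2 := m1_ge h
  have h3 := kap_pos h
  have h4 := Real.pi_le_four
  rw [le_div_iff₀ (by norm_num)]
  nlinarith [mul_le_mul_of_nonneg_left h2 h3.le]

private theorem n1_sqrt3 : (1.73 : ℝ) ≤ Real.sqrt 3 := by
  apply Real.le_sqrt_of_sq_le
  norm_num

theorem k0_ge (h : Zone D) : 2 * m1 D ≤ k0 D := by
  have hK := n1_K h
  have h1 := h.hK
  have h2 := n1_sqrt3
  have h3 := Real.pi_lt_d2
  have h4 := Real.pi_pos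
  have h5 := n1_m1 h
  unfold k0
  rw [le_div_iff₀ (by positivity)]
  have h6 : 1.73 * (8 * m1 D) ≤ Real.sqrt 3 * D.K :=
    mul_le_mul h2 h1 (by positivity) (by positivity)
  nlinarith

theorem K_k0 (h : Zone D) : (D.K : ℝ) ≤ 4 * k0 D := by
  have hK := n1_K h
  have h2 := n1_sqrt3
  have h3 := Real.pi_lt_d2
  have h4 := Real.pi_pos
  unfold k0
  rw [← mul_div_assoc, le_div_iff₀ (by positivity)]
  nlinarith [mul_le_mul_of_nonneg_right h2 hK.le, mul_le_mul_of_nonneg_right h3.le hK.le]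

private theorem n1_exp2 : Real.exp 2 ≤ 10 := by
  have h1 := Real.exp_one_lt_d9
  have h2 : Real.exp 2 = Real.exp 1 * Real.exp 1 := by
    rw [← Real.exp_add]
    norm_num
  rw [h2]
  have h3 := Real.exp_pos 1
  nlinarith

private theorem n1_log10 : (2 : ℝ) ≤ Real.log 10 := by
  rw [Real.le_log_iff_exp_le (by norm_num)]
  exact n1_exp2

theorem log_m1 (h : Zone D) : 20 ≤ Real.log (m1 D) := by
  have h1 : Real.log ((10 : ℝ) ^ 10) ≤ Real.log (m1 D) := Real.log_le_log (by norm_num) (m1_ge h)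
  rw [Real.log_pow] at h1
  have h2 := n1_log10
  push_cast at h1
  linarith

theorem mu_nonneg (h : Zone D) : 0 ≤ mu D := by
  have h1 := log_m1 h
  have h2 := n1_m1 h
  unfold mu
  positivity

private theorem n1_log (x : ℝ) (hx : (10 : ℝ) ^ 10 ≤ x) : 10 ^ 6 * Real.log x ≤ x / 10 := by
  have hx0 : 0 < x := lt_of_lt_of_le (by norm_num) hx
  -- log x ≤ log (10^10) + (x - 10^10)/10^10
  have h1 : Real.log (x / 10 ^ 10) ≤ x / 10 ^ 10 - 1 :=
    Real.log_le_sub_one_of_pos (by positivity)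
  rw [Real.log_div hx0.ne' (by norm_num), Real.log_pow] at h1
  have h2 : Real.log 10 ≤ 10 := by
    have := Real.log_le_sub_one_of_pos (show (0 : ℝ) < 10 by norm_num)
    linarith
  push_cast at h1
  have h3 : Real.log x ≤ x / 10 ^ 10 + 99 := by linarith
  have h4 : (10 : ℝ) ^ 6 * Real.log x ≤ 10 ^ 6 * (x / 10 ^ 10 + 99) :=
    mul_le_mul_of_nonneg_left h3 (by norm_num)
  refine h4.trans ?_
  have h5 : (10 : ℝ) ^ 6 * (x / 10 ^ 10 + 99) = x / 10 ^ 4 + 99 * 10 ^ 6 := by ring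
  rw [h5]
  have h6 : (99 : ℝ) * 10 ^ 6 ≤ x / 100 := by
    rw [le_div_iff₀ (by norm_num)]
    refine le_trans (by norm_num) hx
  linarith

theorem mu_m1 (h : Zone D) : mu D * m1 D ≤ 1 / 10 := by
  have h1 := n1_log (m1 D) (m1_ge h)
  have h2 := n1_m1 h
  have h3 : mu D * m1 D = 10 ^ 6 * Real.log (m1 D) / m1 D := by
    unfold mu
    field_simp
  rw [h3, div_le_iff₀ h2]
  linarith

theorem mu_le (h : Zone D) : mu D ≤ 1 / 1000 := by
  have h1 := mu_m1 h
  have h2 := m1_ge h
  have h3 := mu_nonneg h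
  nlinarith [mul_le_mul_of_nonneg_left h2 h3]

end Pool.Agent.CAPU
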