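import Pool.Agent.Lib.MP_488b8a_co_U.Num1

/-! Project CAPU (MP_488b8a_co), module Num2. -/

namespace Pool.Agent.CAPU

open Complex MeasureTheory

variable {D : Dat}

private theorem n2_cosh (y y' : ℝ) : Real.cosh y' ≤ Real.cosh y * Real.exp |y' - y| := by
  rw [Real.cosh_eq, Real.cosh_eq]
  have e1 : Real.exp y' ≤ Real.exp y * Real.exp |y' - y| := by
    rw [← Real.exp_add]
    apply Real.exp_le_exp.2
    linarith [le_abs_self (y' - y)]
  have e2 : Real.exp (-y') ≤ Real.exp (-y) * Real.exp |y' - y| := by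
    rw [← Real.exp_add]
    apply Real.exp_le_exp.2
    linarith [neg_abs_le (y' - y)]
  have e3 : (Real.exp y + Real.exp (-y)) / 2 * Real.exp |y' - y|
      = (Real.exp y * Real.exp |y' - y| + Real.exp (-y) * Real.exp |y' - y|) / 2 := by ring
  rw [e3]
  linarith

private theorem n2_cc (h : Zone D) (y y' : ℝ) : cc D y' ≤ cc D y * Real.exp |y' - y| := by
  have hρ := h.hρ
  have c1 := Real.cosh_pos y
  have c2 := Real.cosh_pos y'
  have e := n2_cosh y' y
  rw [abs_sub_comm] at e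
  unfold cc
  have p1 : 0 < D.ρ * Real.cosh y := mul_pos hρ c1
  have p2 : 0 < D.ρ * Real.cosh y' := mul_pos hρ c2
  rw [div_mul_eq_mul_div, one_mul, div_le_div_iff₀ p2 p1]
  calc 1 * (D.ρ * Real.cosh y) = D.ρ * Real.cosh y := one_mul _
    _ ≤ D.ρ * (Real.cosh y' * Real.exp |y' - y|) := mul_le_mul_of_nonneg_left e hρ.le
    _ = Real.exp |y' - y| * (D.ρ * Real.cosh y') := by ring

private theorem n2_mc (h : Zone D) (y y' : ℝ) : mc D y' ≤ mc D y * Real.exp |y' - y| := by
  unfold mc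
  rw [div_mul_eq_mul_div]
  exact div_le_div_of_nonneg_right (n2_cc h y y') (k0_pos h).le

private theorem n2_mcpos (h : Zone D) (y : ℝ) : 0 < mc D y :=
  div_pos (cc_pos h y) (k0_pos h)

private theorem n2_exp {x : ℝ} (h0 : 0 ≤ x) (h1 : x ≤ 1 / 10 ^ 9) : Real.exp x ≤ 1.005 := by
  have e := Real.add_one_le_exp (-x)
  have e1 : Real.exp x * Real.exp (-x) = 1 := by
    rw [← Real.exp_add, add_neg_cancel, Real.exp_zero]
  have e2 := Real.exp_pos x
  by_contra hc
  rw [not_le] at hc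
  have e3 : 1.005 * (1 - 1 / 10 ^ 9 : ℝ) ≤ Real.exp x * Real.exp (-x) := by
    apply mul_le_mul hc.le (by linarith) (by norm_num) e2.le
  rw [e1] at e3
  norm_num at e3

private theorem n2_anti (h : Zone D) {y y' : ℝ} (h1 : 0 ≤ y) (h2 : y ≤ y') :
    mc D y' ≤ mc D y := by
  unfold mc cc
  apply div_le_div_of_nonneg_right _ (k0_pos h).le
  apply one_div_le_one_div_of_le (mul_pos h.hρ (Real.cosh_pos y))
  apply mul_le_mul_of_nonneg_left _ h.hρ.le
  rw [Real.cosh_le_cosh, abs_of_nonneg h1, abs_of_nonneg (h1.trans h2)]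
  exact h2

theorem mc_up (h : Zone D) {y : ℝ} (h1 : D.y₁ - kap D ≤ y) : mc D y ≤ 1.01 * m1 D := by
  have hm := m1_ge h
  rcases le_total D.y₁ y with hy | hy
  · have := n2_anti h h.h0 hy
    unfold m1 at *
    linarith
  · have e := n2_mc h D.y₁ y
    have e1 : |y - D.y₁| ≤ 1 / 10 ^ 9 := by
      rw [abs_le]
      have := kap_le h
      constructor
      · linarith
      · have : (0:ℝ) < 1 / 10 ^ 9 := by norm_num
        linarith
    have e2 := n2_exp (abs_nonneg _) e1
    unfold m1 at *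
    nlinarith [n2_mcpos h D.y₁]

/-- bounds for the number of columns in the window -/
theorem mc_win (h : Zone D) {y : ℝ} (h1 : D.y₁ - kap D ≤ y) (h2 : y ≤ D.y₂ + kap D) :
    m1 D / 3 ≤ mc D y ∧ mc D y ≤ 1.01 * m1 D := by
  refine ⟨?_, mc_up h h1⟩
  have e := n2_mc h y D.y₁
  have hk := kap_le h
  have e1 : |D.y₁ - y| ≤ 1 + 1 / 10 ^ 9 := by
    rw [abs_le]
    have := h.h1
    constructor
    · linarith
    · linarith
  have e2 : Real.exp |D.y₁ - y| ≤ 3 := by
    calc Real.exp |D.y₁ - y| ≤ Real.exp (1 + 1 / 10 ^ 9) := Real.exp_le_exp.2 e1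
      _ = Real.exp 1 * Real.exp (1 / 10 ^ 9) := Real.exp_add _ _
      _ ≤ 2.7182818286 * 1.005 := by
        apply mul_le_mul Real.exp_one_lt_d9.le (n2_exp (by norm_num) le_rfl)
          (Real.exp_pos _).le (by norm_num)
      _ ≤ 3 := by norm_num
  have e3 : mc D y * Real.exp |D.y₁ - y| ≤ mc D y * 3 :=
    mul_le_mul_of_nonneg_left e2 (n2_mcpos h y).le
  unfold m1
  linarith

private theorem n2_dcc (h : Zone D) (y : ℝ) :
    HasDerivAt (cc D) (-(cc D y * Real.tanh y)) y := by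
  have hρ := h.hρ
  have c1 := Real.cosh_pos y
  have d1 : HasDerivAt (fun y : ℝ => D.ρ * Real.cosh y) (D.ρ * Real.sinh y) y :=
    (Real.hasDerivAt_cosh y).const_mul D.ρ
  have d2 := d1.fun_inv (mul_pos hρ c1).ne'
  have e : cc D = fun y : ℝ => (D.ρ * Real.cosh y)⁻¹ := by
    funext y
    unfold cc
    rw [one_div]
  rw [e]
  refine d2.congr_deriv ?_
  rw [Real.tanh_eq_sinh_div_cosh]
  field_simp

private theorem n2_tanh (y : ℝ) : |Real.tanh y| ≤ 1 := by
  rw [abs_le]
  exact ⟨(Real.neg_one_lt_tanh y).le, (Real.tanh_lt_one y).le⟩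

theorem mc_lip (h : Zone D) {y y' : ℝ} (h1 : D.y₁ - kap D ≤ y) (h2 : D.y₁ - kap D ≤ y') :
    |mc D y - mc D y'| ≤ 1.1 * m1 D * |y - y'| := by
  have hm := m1_ge h
  have key := Convex.norm_image_sub_le_of_norm_hasDerivWithin_le (f := mc D)
    (f' := fun y => -(cc D y * Real.tanh y) / k0 D) (C := 1.1 * m1 D)
    (s := Set.Ici (D.y₁ - kap D)) (x := y') (y := y)
    (fun x _ => ((n2_dcc h x).div_const (k0 D)).hasDerivWithinAt)
    (fun x hx => by
      have e1 := mc_up h (y := x) hx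
      have e2 : -(cc D x * Real.tanh x) / k0 D = -(mc D x * Real.tanh x) := by
        unfold mc
        ring
      rw [e2, norm_neg, norm_mul, Real.norm_eq_abs, Real.norm_eq_abs,
        abs_of_pos (n2_mcpos h x)]
      have e3 : mc D x * |Real.tanh x| ≤ mc D x * 1 :=
        mul_le_mul_of_nonneg_left (n2_tanh x) (n2_mcpos h x).le
      linarith)
    (convex_Ici _) h2 h1
  rw [Real.norm_eq_abs, Real.norm_eq_abs] at key
  exact key

theorem mc_anti (h : Zone D) {y y' : ℝ} (h1 : 0 ≤ y) (h2 : y < y') : mc D y' < mc D y := by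
  unfold mc cc
  apply div_lt_div_of_pos_right _ (k0_pos h)
  apply one_div_lt_one_div_of_lt (mul_pos h.hρ (Real.cosh_pos y))
  apply mul_lt_mul_of_pos_left _ h.hρ
  rw [Real.cosh_lt_cosh, abs_of_nonneg h1, abs_of_nonneg (h1.trans h2.le)]
  exact h2

theorem cc_lip (h : Zone D) {y y' : ℝ} (h1 : |y - y'| ≤ 1 / 2) :
    |cc D y - cc D y'| ≤ 2 * cc D y * |y - y'| := by
  have hp := cc_pos h y
  have e5 : Real.exp (1 / 2) ≤ 2 := by
    have e1 : Real.exp (1 / 2) * Real.exp (1 / 2) = Real.exp 1 := by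
      rw [← Real.exp_add]
      norm_num
    have e2 := Real.exp_one_lt_d9
    have e3 := Real.exp_pos (1 / 2)
    by_contra hc
    rw [not_le] at hc
    nlinarith
  have key := Convex.norm_image_sub_le_of_norm_hasDerivWithin_le (f := cc D)
    (f' := fun y => -(cc D y * Real.tanh y)) (C := 2 * cc D y)
    (s := Set.Icc (y - 1 / 2) (y + 1 / 2)) (x := y') (y := y)
    (fun x _ => (n2_dcc h x).hasDerivWithinAt)
    (fun x hx => by
      have e1 := n2_cc h y x
      have e0 : |x - y| ≤ 1 / 2 := by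
        rw [abs_le]
        exact ⟨by linarith [hx.1], by linarith [hx.2]⟩
      have e2 : Real.exp |x - y| ≤ 2 := (Real.exp_le_exp.2 e0).trans e5
      rw [norm_neg, norm_mul, Real.norm_eq_abs, Real.norm_eq_abs, abs_of_pos (cc_pos h x)]
      have e3 : cc D x * |Real.tanh x| ≤ cc D x * 1 :=
        mul_le_mul_of_nonneg_left (n2_tanh x) (cc_pos h x).le
      have e4 : cc D y * Real.exp |x - y| ≤ cc D y * 2 :=
        mul_le_mul_of_nonneg_left e2 hp.le
      linarith)
    (convex_Icc _ _)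
    (by
      rw [abs_le] at h1
      exact ⟨by linarith [h1.2], by linarith [h1.1]⟩)
    ⟨by linarith, by linarith⟩
  rw [Real.norm_eq_abs, Real.norm_eq_abs] at key
  exact key

theorem inv_cc (h : Zone D) {y : ℝ} (h1 : D.y₁ - kap D ≤ y) (h2 : y ≤ D.y₂ + kap D) :
    100 / cc D y ≤ kap D := by
  have hp := cc_pos h y
  rw [div_le_iff₀ hp]
  have e1 := (mc_win h h1 h2).1
  have e2 := m1_ge h
  have e3 := k0_kap h
  have e4 : kap D * cc D y = Real.sqrt 3 * mc D y := by
    rw [cc_eq h, ← e3]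
    ring
  rw [e4]
  have e5 : 1 ≤ Real.sqrt 3 := by
    rw [Real.one_le_sqrt]
    norm_num
  have e6 : (100 : ℝ) ≤ mc D y := by
    have : (100 : ℝ) ≤ 10 ^ 10 / 3 := by norm_num
    linarith
  nlinarith

theorem Bx_sub (h : Zone D) : Bx D ⊆ Win D := by
  have hk := kap_pos h
  have e1 := inv_cc h (y := D.y₂) (by linarith [h.h12]) (by linarith)
  have hp := cc_pos h D.y₂
  have e2 : 1 / cc D D.y₂ ≤ kap D := by
    have : 1 / cc D D.y₂ ≤ 100 / cc D D.y₂ := div_le_div_of_nonneg_right (by norm_num) hp.le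
    linarith
  rintro Z ⟨z1, z2, z3, z4⟩
  exact ⟨by linarith, by linarith, by linarith, by linarith⟩

end Pool.Agent.CAPU
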