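import Pool.Agent.Lib.MP_488b8a_co_U.Defs

/-! Project CAPU (MP_488b8a_co), module Pol. -/

namespace Pool.Agent.CAPU

open Complex MeasureTheory

private lemma Pol_cos (r : ℝ) (h0 : 0 < r) (h1 : r ≤ 1) : Real.cos r ≤ 1 - r ^ 2 / 8 := by
  have h := Real.cos_bound (x := r) (by rw [abs_of_pos h0]; exact h1)
  rw [abs_of_pos h0] at h
  have h2 := (abs_le.1 h).2
  have h3 : r ^ 4 ≤ r ^ 2 := pow_le_pow_of_le_one h0.le h1 (by norm_num)
  nlinarith

theorem polar (C₁ : ℝ) : ∃ N : ℕ, ∀ r : ℝ, 0 < r → r ≤ 1 →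
    ∃ Q : Finset (EuclideanSpace ℝ (Fin 3)), (∀ q ∈ Q, ‖q‖ = 1) ∧ Q.card ≤ N ∧
    ∀ x : EuclideanSpace ℝ (Fin 3), ‖x‖ = 1 → 1 - x 2 ≤ C₁ * r ^ 2 →
      ∃ q ∈ Q, Real.cos r ≤ inner ℝ x q := by
  classical
  set e : EuclideanSpace ℝ (Fin 3) := EuclideanSpace.single 2 1 with he
  have hne : ‖e‖ = 1 := by simp [he]
  have hxe : ∀ x : EuclideanSpace ℝ (Fin 3), inner ℝ x e = x 2 := by
    intro x
    rw [he, real_inner_comm, EuclideanSpace.inner_single_left]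
    simp
  set a : ℝ := Real.sqrt (2 * C₁) with ha
  have hcomp : IsCompact (Metric.closedBall (0 : EuclideanSpace ℝ (Fin 3)) a) :=
    isCompact_closedBall 0 a
  obtain ⟨t, _, htf, htc⟩ := hcomp.finite_cover_balls (e := 1 / 4) (by norm_num)
  set Q0 : Finset (EuclideanSpace ℝ (Fin 3)) := htf.toFinset with hQ0
  refine ⟨Q0.card, fun r hr0 hr1 => ?_⟩
  have hch : ∀ c : EuclideanSpace ℝ (Fin 3), ∃ q : EuclideanSpace ℝ (Fin 3), ‖q‖ = 1 ∧
      ((∃ x : EuclideanSpace ℝ (Fin 3), ‖x‖ = 1 ∧ ‖x - (e + r • c)‖ ≤ r / 4) →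
        ‖q - (e + r • c)‖ ≤ r / 4) := by
    intro c
    by_cases h : ∃ x : EuclideanSpace ℝ (Fin 3), ‖x‖ = 1 ∧ ‖x - (e + r • c)‖ ≤ r / 4
    · obtain ⟨x, hx1, hx2⟩ := h
      exact ⟨x, hx1, fun _ => hx2⟩
    · exact ⟨e, hne, fun h' => absurd h' h⟩
  choose f hf1 hf2 using hch
  refine ⟨Q0.image f, ?_, Finset.card_image_le, ?_⟩
  · intro q hq
    obtain ⟨c, _, rfl⟩ := Finset.mem_image.1 hq
    exact hf1 c
  · intro x hx hx2
    have hnn : ‖x - e‖ ^ 2 = 2 - 2 * x 2 := by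
      rw [norm_sub_sq_real, hx, hne, hxe]
      ring
    have hC : 0 ≤ C₁ * r ^ 2 := by
      have : 0 ≤ 1 - x 2 := by nlinarith [sq_nonneg ‖x - e‖]
      linarith
    have hC1 : 0 ≤ C₁ := by
      by_contra h
      push Not at h
      have : C₁ * r ^ 2 < 0 := mul_neg_of_neg_of_pos h (by positivity)
      linarith
    have hle : ‖x - e‖ ≤ a * r := by
      have h1 : ‖x - e‖ ^ 2 ≤ (a * r) ^ 2 := by
        rw [mul_pow, ha, Real.sq_sqrt (by linarith), hnn]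
        linarith
      exact (abs_le_of_sq_le_sq' h1 (mul_nonneg (Real.sqrt_nonneg _) hr0.le)).2
    have hmem : r⁻¹ • (x - e) ∈ Metric.closedBall (0 : EuclideanSpace ℝ (Fin 3)) a := by
      rw [mem_closedBall_zero_iff, norm_smul, norm_inv, Real.norm_of_nonneg hr0.le,
        inv_mul_le_iff₀ hr0]
      linarith [mul_comm a r]
    obtain ⟨c, hc, hcd⟩ := Set.mem_iUnion₂.1 (htc hmem)
    rw [Metric.mem_ball, dist_eq_norm] at hcd
    have hxc : ‖x - (e + r • c)‖ ≤ r / 4 := by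
      have h1 : x - (e + r • c) = r • (r⁻¹ • (x - e) - c) := by
        rw [smul_sub, smul_smul, mul_inv_cancel₀ hr0.ne', one_smul]
        abel
      rw [h1, norm_smul, Real.norm_of_nonneg hr0.le]
      nlinarith
    have hq := hf2 c ⟨x, hx, hxc⟩
    refine ⟨f c, Finset.mem_image_of_mem f (htf.mem_toFinset.2 hc), ?_⟩
    have hd : ‖x - f c‖ ≤ r / 2 := by
      have h1 : x - f c = (x - (e + r • c)) - (f c - (e + r • c)) := by abel
      rw [h1]
      refine le_trans (norm_sub_le _ _) ?_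
      linarith
    have hin : inner ℝ x (f c) = 1 - ‖x - f c‖ ^ 2 / 2 := by
      rw [norm_sub_sq_real, hx, hf1 c]
      ring
    rw [hin]
    refine le_trans (Pol_cos r hr0 hr1) ?_
    have : ‖x - f c‖ ^ 2 ≤ (r / 2) ^ 2 := by
      exact pow_le_pow_left₀ (norm_nonneg _) hd 2
    nlinarith

end Pool.Agent.CAPU
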