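import Pool.Agent.Lib.MP_488b8a_co_U.Defs

/-! Project CAPU (MP_488b8a_co), module Psi. -/

namespace Pool.Agent.CAPU

open Complex MeasureTheory

private theorem psi_chi_nonneg (x : ℝ) : 0 ≤ chi x := le_max_right _ _

private theorem psi_chi_le_one {x : ℝ} (hx : 0 ≤ x) : chi x ≤ 1 :=
  max_le (by linarith) zero_le_one

private theorem psi_chi_eq {x : ℝ} (hx : x ≤ 1) : chi x = 1 - x :=
  max_eq_left (by linarith)

private theorem psi_chi_zero {x : ℝ} (hx : 1 ≤ x) : chi x = 0 :=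
  max_eq_right (by linarith)

private theorem psi_chi_cube (x : ℝ) : HasDerivAt (fun y => chi y ^ 3) (-3 * chi x ^ 2) x := by
  rcases lt_trichotomy x 1 with hx | hx | hx
  · have h1 : HasDerivAt (fun y : ℝ => (1 - y) ^ 3) (-3 * (1 - x) ^ 2) x := by
      have h := ((hasDerivAt_id' x).const_sub 1).pow 3
      refine h.congr_deriv ?_
      push_cast
      ring
    rw [psi_chi_eq hx.le]
    refine h1.congr_of_eventuallyEq ?_
    filter_upwards [Iio_mem_nhds hx] with y hy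
    rw [psi_chi_eq (le_of_lt hy)]
  · subst hx
    rw [psi_chi_zero le_rfl]
    have h2 : HasFDerivAt (fun y : ℝ => chi y ^ 3) (0 : ℝ →L[ℝ] ℝ) 1 := by
      refine Asymptotics.IsBigO.hasFDerivAt (n := 3) ?_ (by norm_num)
      refine Asymptotics.IsBigO.of_bound 1 (Filter.Eventually.of_forall fun y => ?_)
      rw [one_mul, norm_pow, norm_pow, norm_norm]
      refine pow_le_pow_left₀ (norm_nonneg _) ?_ 3
      rw [Real.norm_eq_abs, Real.norm_eq_abs, abs_of_nonneg (psi_chi_nonneg y)]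
      refine max_le ?_ (abs_nonneg _)
      rw [abs_sub_comm]
      exact le_abs_self _
    have h3 := h2.hasDerivAt
    refine h3.congr_deriv ?_
    simp
  · rw [psi_chi_zero hx.le]
    have h1 : HasDerivAt (fun _ : ℝ => (0 : ℝ)) 0 x := hasDerivAt_const x 0
    refine (h1.congr_deriv (by ring)).congr_of_eventuallyEq ?_
    filter_upwards [Ioi_mem_nhds hx] with y hy
    rw [psi_chi_zero (le_of_lt hy)]
    ring

private theorem psi_Dm_ne (M : ℕ) : Dm M ≠ 0 := by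
  unfold Dm
  have h3 : Real.sqrt 3 ≠ 0 := by positivity
  have hM : (M : ℝ) - 1 / 2 ≠ 0 := by
    intro h
    have h1 : (2 * M : ℝ) = 1 := by linarith
    have h2 : (2 * M : ℕ) = 1 := by exact_mod_cast h1
    omega
  exact div_ne_zero (mul_ne_zero h3 hM) (by norm_num)

private theorem psi_Dm_sq (M : ℕ) : 0 < Dm M ^ 2 := by
  have := psi_Dm_ne M
  positivity

theorem psi_der (M : ℕ) {s : ℝ} (hs : 0 < s) : HasDerivAt (psi M) (psd M s) s := by
  have hD := psi_Dm_ne M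
  have h1 : HasDerivAt (fun y : ℝ => chi (y / Dm M ^ 2) ^ 3)
      (-3 * chi (s / Dm M ^ 2) ^ 2 * (1 / Dm M ^ 2)) s := by
    have h := (psi_chi_cube (s / Dm M ^ 2)).comp s ((hasDerivAt_id' s).div_const (Dm M ^ 2))
    exact h
  have h2 : HasDerivAt (fun y : ℝ => Real.log y / y) ((1 - Real.log s) / s ^ 2) s := by
    have h := (Real.hasDerivAt_log hs.ne').div (hasDerivAt_id' s) hs.ne'
    refine h.congr_deriv ?_
    field_simp
  have h3 := (h2.const_mul 100).mul h1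
  have h4 : HasDerivAt (psi M) (100 * ((1 - Real.log s) / s ^ 2) * chi (s / Dm M ^ 2) ^ 3 +
      100 * (Real.log s / s) * (-3 * chi (s / Dm M ^ 2) ^ 2 * (1 / Dm M ^ 2))) s := h3
  refine h4.congr_deriv ?_
  unfold psd
  ring

theorem nu_eq (M : ℕ) {s : ℝ} (hs : 0 < s) : nu M s = psi M s + s * psd M s := by
  have hD := psi_Dm_ne M
  unfold nu psi psd
  field_simp
  ring

theorem out_zero {M : ℕ} (hM : 1 ≤ M) {s : ℝ} (hs : Dm M ^ 2 ≤ s) :
    psi M s = 0 ∧ psd M s = 0 ∧ nu M s = 0 := by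
  have hD := psi_Dm_sq M
  have h : chi (s / Dm M ^ 2) = 0 := psi_chi_zero ((one_le_div hD).2 hs)
  refine ⟨?_, ?_, ?_⟩
  · unfold psi; rw [h]; ring
  · unfold psd; rw [h]; ring
  · unfold nu; rw [h]; ring

theorem psd_bd {M : ℕ} (hM : 1 ≤ M) {s : ℝ} (hs : 1 ≤ s) :
    |psd M s| ≤ 500 * (1 + Real.log s) / s ^ 2 := by
  have hD := psi_Dm_sq M
  have hs0 : 0 < s := by linarith
  have hl : 0 ≤ Real.log s := Real.log_nonneg hs
  rcases le_total (Dm M ^ 2) s with h | h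
  · rw [(out_zero hM h).2.1, abs_zero]
    positivity
  · have hc0 := psi_chi_nonneg (s / Dm M ^ 2)
    have hc1 := psi_chi_le_one (x := s / Dm M ^ 2) (by positivity)
    have hinv : 1 / Dm M ^ 2 ≤ 1 / s := one_div_le_one_div_of_le hs0 h
    have hc3 : chi (s / Dm M ^ 2) ^ 3 ≤ 1 := pow_le_one₀ hc0 hc1
    have hc2 : chi (s / Dm M ^ 2) ^ 2 ≤ 1 := pow_le_one₀ hc0 hc1
    have hc3' : 0 ≤ chi (s / Dm M ^ 2) ^ 3 := pow_nonneg hc0 3
    have hc2' : 0 ≤ chi (s / Dm M ^ 2) ^ 2 := pow_nonneg hc0 2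
    have hA : |(1 - Real.log s) / s ^ 2 * chi (s / Dm M ^ 2) ^ 3| ≤ (1 + Real.log s) / s ^ 2 := by
      rw [abs_mul, abs_div, abs_of_nonneg hc3', abs_of_pos (by positivity : (0 : ℝ) < s ^ 2)]
      have h1 : |1 - Real.log s| ≤ 1 + Real.log s := by
        rw [abs_le]; constructor <;> linarith
      calc |1 - Real.log s| / s ^ 2 * chi (s / Dm M ^ 2) ^ 3
          ≤ (1 + Real.log s) / s ^ 2 * 1 :=
            mul_le_mul (div_le_div_of_nonneg_right h1 (by positivity)) hc3 hc3' (by positivity)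
        _ = (1 + Real.log s) / s ^ 2 := mul_one _
    have hB : |3 * (Real.log s / s) * chi (s / Dm M ^ 2) ^ 2 / Dm M ^ 2| ≤
        3 * Real.log s / s ^ 2 := by
      rw [abs_of_nonneg (by positivity)]
      calc 3 * (Real.log s / s) * chi (s / Dm M ^ 2) ^ 2 / Dm M ^ 2
          = 3 * (Real.log s / s) * chi (s / Dm M ^ 2) ^ 2 * (1 / Dm M ^ 2) := by ring
        _ ≤ 3 * (Real.log s / s) * 1 * (1 / s) := by gcongr
        _ = 3 * Real.log s / s ^ 2 := by ring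
    unfold psd
    rw [abs_mul, abs_of_pos (by norm_num : (0 : ℝ) < 100)]
    have hC := abs_sub ((1 - Real.log s) / s ^ 2 * chi (s / Dm M ^ 2) ^ 3)
      (3 * (Real.log s / s) * chi (s / Dm M ^ 2) ^ 2 / Dm M ^ 2)
    have hD' : 100 * ((1 + Real.log s) / s ^ 2 + 3 * Real.log s / s ^ 2) ≤
        500 * (1 + Real.log s) / s ^ 2 := by
      have h2 : 0 ≤ (400 + 100 * Real.log s) / s ^ 2 := by positivity
      have h3 : 500 * (1 + Real.log s) / s ^ 2 -
          100 * ((1 + Real.log s) / s ^ 2 + 3 * Real.log s / s ^ 2) =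
          (400 + 100 * Real.log s) / s ^ 2 := by ring
      linarith
    linarith

theorem nu_up {M : ℕ} {s : ℝ} (hs : 1 ≤ s) : nu M s ≤ 100 / s := by
  have hD := psi_Dm_sq M
  have hs0 : 0 < s := by linarith
  have hl : 0 ≤ Real.log s := Real.log_nonneg hs
  have hc0 := psi_chi_nonneg (s / Dm M ^ 2)
  have hc1 := psi_chi_le_one (x := s / Dm M ^ 2) (by positivity)
  have hc3 : chi (s / Dm M ^ 2) ^ 3 ≤ 1 := pow_le_one₀ hc0 hc1
  have h1 : chi (s / Dm M ^ 2) ^ 3 / s ≤ 1 / s := div_le_div_of_nonneg_right hc3 hs0.le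
  have h2 : 0 ≤ 3 * Real.log s * chi (s / Dm M ^ 2) ^ 2 / Dm M ^ 2 := by positivity
  unfold nu
  have h3 : 100 / s = 100 * (1 / s) := by ring
  rw [h3]
  linarith

theorem nu_low {M : ℕ} (hM : 10 ≤ M) {s : ℝ} (hs : 1 ≤ s) (hs' : s ≤ Dm M ^ 2) :
    100 / s - 100 * (3 + 6 * Real.log (Dm M)) / Dm M ^ 2 ≤ nu M s := by
  have hD := psi_Dm_sq M
  have hs0 : 0 < s := by linarith
  have hl : 0 ≤ Real.log s := Real.log_nonneg hs
  have hc0 := psi_chi_nonneg (s / Dm M ^ 2)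
  have hx0 : 0 ≤ s / Dm M ^ 2 := by positivity
  have hc1 := psi_chi_le_one hx0
  have hx1 : s / Dm M ^ 2 ≤ 1 := (div_le_one hD).2 hs'
  have hc := psi_chi_eq hx1
  have hc2 : chi (s / Dm M ^ 2) ^ 2 ≤ 1 := pow_le_one₀ hc0 hc1
  have hc2' : 0 ≤ chi (s / Dm M ^ 2) ^ 2 := pow_nonneg hc0 2
  have hlog : Real.log s ≤ 2 * Real.log (Dm M) := by
    have h := Real.log_le_log hs0 hs'
    rw [Real.log_pow] at h
    exact_mod_cast h
  have h1 : 1 / s - 3 / Dm M ^ 2 ≤ chi (s / Dm M ^ 2) ^ 3 / s := by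
    have h2 : 1 - 3 * (s / Dm M ^ 2) ≤ chi (s / Dm M ^ 2) ^ 3 := by
      rw [hc]
      have h3 : 0 ≤ (s / Dm M ^ 2) ^ 2 * (3 - s / Dm M ^ 2) :=
        mul_nonneg (sq_nonneg _) (by linarith)
      nlinarith [h3]
    have h4 := div_le_div_of_nonneg_right h2 hs0.le
    have h5 : (1 - 3 * (s / Dm M ^ 2)) / s = 1 / s - 3 / Dm M ^ 2 := by
      field_simp
    rw [h5] at h4
    exact h4
  have h6 : 3 * Real.log s * chi (s / Dm M ^ 2) ^ 2 / Dm M ^ 2 ≤
      6 * Real.log (Dm M) / Dm M ^ 2 := by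
    refine div_le_div_of_nonneg_right ?_ hD.le
    calc 3 * Real.log s * chi (s / Dm M ^ 2) ^ 2 ≤ 3 * Real.log s * 1 := by gcongr
      _ ≤ 6 * Real.log (Dm M) := by linarith
  unfold nu
  have h7 : 100 / s - 100 * (3 + 6 * Real.log (Dm M)) / Dm M ^ 2 =
      100 * ((1 / s - 3 / Dm M ^ 2) - 6 * Real.log (Dm M) / Dm M ^ 2) := by ring
  rw [h7]
  linarith

end Pool.Agent.CAPU
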