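import Pool.Agent.Lib.MP_488b8a_co_U.Num3

/-! Project CAPU (MP_488b8a_co), module Sep. -/

namespace Pool.Agent.CAPU

open Complex MeasureTheory

variable {D : Dat}

theorem wM_im (M : ℕ) (Z : ℂ) : (wM D M Z).im = D.K / 2 * (yM D M - Z.im) := by
  unfold wM
  simp
  left
  ring

theorem wM_re (M : ℕ) (Z : ℂ) : (wM D M Z).re = D.K / 2 * Z.re := by
  unfold wM
  simp

theorem sep (h : Zone D) {Z : ℂ} (hW : Z ∈ Win D) {M : ℕ} (hM : M ∈ MM D) :
    3.6 * |mc D Z.im - (M - 1 / 2)| ≤ |(wM D M Z).im| := by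
  have hk := kap_pos h
  obtain ⟨_, _, w3, _⟩ := hW
  have hy := (yM_mem h hM).1
  have h1 := mc_lip h (y := Z.im) (y' := yM D M) w3 (by linarith)
  rw [mc_yM h hM] at h1
  rw [wM_im, abs_mul, abs_sub_comm (yM D M) Z.im]
  have hm := m1_ge h
  have hK : 4 * m1 D ≤ D.K / 2 := by linarith [h.hK]
  have h2 : |(D.K : ℝ) / 2| = D.K / 2 := abs_of_nonneg (by positivity)
  rw [h2]
  have h3 : 0 ≤ |Z.im - yM D M| := abs_nonneg _
  have h4 : 4 * m1 D * |Z.im - yM D M| ≤ D.K / 2 * |Z.im - yM D M| :=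
    mul_le_mul_of_nonneg_right hK h3
  have h5 : 0 ≤ m1 D * |Z.im - yM D M| := mul_nonneg (by linarith) h3
  nlinarith

/-- at most two half integers are at a distance in `[k, k + 1)` of `x` -/
private theorem Sep_shell (S : Finset ℕ) (x : ℝ) (k : ℕ) :
    (S.filter fun M : ℕ => ⌊|x - ((M : ℝ) - 1 / 2)|⌋₊ = k).card ≤ 2 := by
  classical
  have h1 : (S.filter fun M : ℕ => ⌊|x - ((M : ℝ) - 1 / 2)|⌋₊ = k).image (fun M : ℕ => (M : ℤ)) ⊆
      {⌊x + 1 / 2 - k⌋, ⌈x + 1 / 2 + k⌉} := by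
    intro z hz
    obtain ⟨M, hM, rfl⟩ := Finset.mem_image.1 hz
    rw [Finset.mem_filter] at hM
    have h2 := (Nat.floor_eq_iff (abs_nonneg _)).1 hM.2
    rw [Finset.mem_insert, Finset.mem_singleton]
    rcases le_total 0 (x - ((M : ℝ) - 1 / 2)) with h3 | h3
    · rw [abs_of_nonneg h3] at h2
      left
      symm
      rw [Int.floor_eq_iff]
      push_cast
      constructor <;> linarith [h2.1, h2.2]
    · rw [abs_of_nonpos h3] at h2
      right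
      symm
      rw [Int.ceil_eq_iff]
      push_cast
      constructor <;> linarith [h2.1, h2.2]
  have h2 := Finset.card_le_card h1
  rw [Finset.card_image_of_injective _ Nat.cast_injective] at h2
  exact h2.trans Finset.card_le_two

private theorem Sep_sum (S : Finset ℕ) (t : Finset ℕ) (x : ℝ) (f : ℕ → ℝ) (g : ℕ → ℝ)
    (ht : ∀ M ∈ S, ⌊|x - ((M : ℝ) - 1 / 2)|⌋₊ ∈ t)
    (hf : ∀ M ∈ S, f M ≤ g ⌊|x - ((M : ℝ) - 1 / 2)|⌋₊) (hg : ∀ k ∈ t, 0 ≤ g k) :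
    ∑ M ∈ S, f M ≤ 2 * ∑ k ∈ t, g k := by
  classical
  calc ∑ M ∈ S, f M ≤ ∑ M ∈ S, g ⌊|x - ((M : ℝ) - 1 / 2)|⌋₊ := Finset.sum_le_sum hf
    _ = ∑ k ∈ t, ∑ M ∈ S.filter (fun M : ℕ => ⌊|x - ((M : ℝ) - 1 / 2)|⌋₊ = k),
          g ⌊|x - ((M : ℝ) - 1 / 2)|⌋₊ := (Finset.sum_fiberwise_of_maps_to ht _).symm
    _ ≤ ∑ k ∈ t, 2 * g k := by
        refine Finset.sum_le_sum fun k hk => ?_
        have h1 : ∑ M ∈ S.filter (fun M : ℕ => ⌊|x - ((M : ℝ) - 1 / 2)|⌋₊ = k),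
            g ⌊|x - ((M : ℝ) - 1 / 2)|⌋₊ =
            (S.filter (fun M : ℕ => ⌊|x - ((M : ℝ) - 1 / 2)|⌋₊ = k)).card * g k := by
          rw [Finset.sum_congr rfl (g := fun _ => g k), Finset.sum_const, nsmul_eq_mul]
          intro M hM
          rw [(Finset.mem_filter.1 hM).2]
        rw [h1]
        refine mul_le_mul_of_nonneg_right ?_ (hg k hk)
        exact_mod_cast Sep_shell S x k
    _ = 2 * ∑ k ∈ t, g k := by rw [Finset.mul_sum]

theorem sum_exp (h : Zone D) {Z : ℂ} (hW : Z ∈ Win D) :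
    ∑ M ∈ MM D, Real.exp (-(2 * |(wM D M Z).im|)) ≤ 3 := by
  classical
  obtain ⟨r, hr⟩ : ∃ r, r = Real.exp (-7.2) := ⟨_, rfl⟩
  have hr0 : 0 < r := by rw [hr]; exact Real.exp_pos _
  have hr1 : r ≤ 1 / 3 := by
    rw [hr, Real.exp_neg, one_div]
    apply inv_anti₀ (by norm_num)
    have := Real.add_one_le_exp (7.2 : ℝ)
    linarith
  obtain ⟨N, hN⟩ := ((MM D).image
    (fun M : ℕ => ⌊|mc D Z.im - ((M : ℝ) - 1 / 2)|⌋₊)).exists_nat_subset_range
  have h1 := Sep_sum (MM D) (Finset.range N) (mc D Z.im)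
    (fun M => Real.exp (-(2 * |(wM D M Z).im|))) (fun k => r ^ k)
    (fun M hM => hN (Finset.mem_image_of_mem _ hM)) (fun M hM => by
      have h2 := sep h hW hM
      have h3 := Nat.floor_le (abs_nonneg (mc D Z.im - ((M : ℝ) - 1 / 2)))
      rw [hr, ← Real.exp_nat_mul]
      apply Real.exp_le_exp.2
      nlinarith) (fun k _ => by positivity)
  refine h1.trans ?_
  have h2 : ∑ k ∈ Finset.range N, r ^ k ≤ (1 - r)⁻¹ := by
    rw [← tsum_geometric_of_lt_one hr0.le (by linarith)]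
    exact (summable_geometric_of_lt_one hr0.le (by linarith)).sum_le_tsum _
      fun _ _ => by positivity
  have h3 : (1 - r)⁻¹ ≤ 3 / 2 := by
    rw [inv_le_comm₀ (by linarith) (by norm_num)]
    linarith
  linarith

private theorem Sep_sinh {k : ℕ} {u : ℝ} (hk : 1 ≤ k) (hu : 3.6 * (k : ℝ) ≤ u) :
    5 * (k : ℝ) ≤ Real.sinh u := by
  have hk' : (1 : ℝ) ≤ k := by exact_mod_cast hk
  have h1 : Real.sinh (3.6 * k) ≤ Real.sinh u := Real.sinh_le_sinh.2 hu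
  refine le_trans ?_ h1
  rw [Real.sinh_eq]
  have h2 := Real.quadratic_le_exp_of_nonneg (x := 3.6 * (k : ℝ)) (by linarith)
  have h3 : Real.exp (-(3.6 * (k : ℝ))) ≤ 1 := Real.exp_le_one_iff.2 (by linarith)
  nlinarith

open Classical in
theorem sum_far (h : Zone D) {Z : ℂ} (hW : Z ∈ Win D) :
    ∑ M ∈ (MM D).filter (fun M : ℕ => 1 ≤ |mc D Z.im - ((M : ℝ) - 1 / 2)|),
      1 / Real.sinh (wM D M Z).im ^ 2 ≤ 1 := by
  obtain ⟨N, hN⟩ := ((MM D).image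
    (fun M : ℕ => ⌊|mc D Z.im - ((M : ℝ) - 1 / 2)|⌋₊)).exists_nat_subset_range
  have hfl : ∀ M : ℕ, 1 ≤ |mc D Z.im - ((M : ℝ) - 1 / 2)| →
      1 ≤ ⌊|mc D Z.im - ((M : ℝ) - 1 / 2)|⌋₊ := by
    intro M hM
    apply Nat.le_floor
    simpa using hM
  have h1 := Sep_sum ((MM D).filter (fun M : ℕ => 1 ≤ |mc D Z.im - ((M : ℝ) - 1 / 2)|))
    (Finset.Ioo 0 N) (mc D Z.im)
    (fun M => 1 / Real.sinh (wM D M Z).im ^ 2) (fun k => 1 / 25 * ((k : ℝ) ^ 2)⁻¹)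
    (fun M hM => by
      rw [Finset.mem_filter] at hM
      rw [Finset.mem_Ioo]
      exact ⟨hfl M hM.2, Finset.mem_range.1 (hN (Finset.mem_image_of_mem _ hM.1))⟩)
    (fun M hM => by
      rw [Finset.mem_filter] at hM
      have h2 := sep h hW hM.1
      have h3 := Nat.floor_le (abs_nonneg (mc D Z.im - ((M : ℝ) - 1 / 2)))
      have h4 := hfl M hM.2
      have h5 := Sep_sinh h4 (u := |(wM D M Z).im|) (by linarith)
      have h6 : Real.sinh (wM D M Z).im ^ 2 = Real.sinh |(wM D M Z).im| ^ 2 := by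
        rw [← Real.abs_sinh, sq_abs]
      have h7 : (1 : ℝ) ≤ (⌊|mc D Z.im - ((M : ℝ) - 1 / 2)|⌋₊ : ℝ) := by exact_mod_cast h4
      rw [h6, one_div, one_div (25 : ℝ), ← mul_inv]
      apply inv_anti₀ (by positivity)
      nlinarith) (fun k _ => by positivity)
  refine h1.trans ?_
  rw [← Finset.mul_sum]
  have h2 := sum_Ioo_inv_sq_le (α := ℝ) 0 N
  norm_num at h2
  linarith

end Pool.Agent.CAPU
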