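import Pool.Agent.Lib.MP_488b8a_co_U.S2T

/-! Project CAPU (MP_488b8a_co), module SinB. -/

namespace Pool.Agent.CAPU

open Complex MeasureTheory

private theorem SinB_exp {x : ℂ} (h : ‖x‖ ≤ 1) :
    ‖exp (x * I) - 1‖ ≤ 2 * ‖x‖ ∧ ‖exp (-x * I) - 1‖ ≤ 2 * ‖x‖ := by
  have e1 : ‖x * I‖ = ‖x‖ := by simp
  have e2 : ‖-x * I‖ = ‖x‖ := by simp
  constructor
  · have := Complex.norm_exp_sub_one_le (x := x * I) (by rw [e1]; exact h)
    rwa [e1] at this
  · have := Complex.norm_exp_sub_one_le (x := -x * I) (by rw [e2]; exact h)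
    rwa [e2] at this

private theorem SinB_sin {x : ℂ} (h : ‖x‖ ≤ 1) : ‖sin x‖ ≤ 2 * ‖x‖ := by
  obtain ⟨h1, h2⟩ := SinB_exp h
  have e : sin x = ((exp (-x * I) - 1) - (exp (x * I) - 1)) * (I / 2) := by
    rw [Complex.sin]
    ring
  have e3 : ‖(I / 2 : ℂ)‖ = 1 / 2 := by simp
  rw [e, norm_mul, e3]
  have h3 := norm_sub_le (exp (-x * I) - 1) (exp (x * I) - 1)
  linarith

private theorem SinB_cos {x : ℂ} (h : ‖x‖ ≤ 1) : ‖cos x - 1‖ ≤ 2 * ‖x‖ := by
  obtain ⟨h1, h2⟩ := SinB_exp h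
  have e : cos x - 1 = ((exp (x * I) - 1) + (exp (-x * I) - 1)) * (1 / 2) := by
    rw [Complex.cos]
    ring
  have e3 : ‖(1 / 2 : ℂ)‖ = 1 / 2 := by simp
  rw [e, norm_mul, e3]
  have h3 := norm_add_le (exp (x * I) - 1) (exp (-x * I) - 1)
  linarith

private theorem SinB_cosle (w : ℂ) : ‖cos w‖ ≤ 1 + ‖sin w‖ := by
  have h1 : cos w ^ 2 = 1 - sin w ^ 2 := by
    have := Complex.sin_sq_add_cos_sq w
    linear_combination this
  have h2 : ‖cos w‖ ^ 2 ≤ 1 + ‖sin w‖ ^ 2 := by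
    rw [← norm_pow, h1]
    have := norm_sub_le (1 : ℂ) (sin w ^ 2)
    rwa [norm_one, norm_pow] at this
  have h3 : ‖cos w‖ ^ 2 ≤ (1 + ‖sin w‖) ^ 2 := by nlinarith [norm_nonneg (sin w)]
  exact (sq_le_sq₀ (norm_nonneg _) (by positivity)).1 h3

private theorem SinB_low {D : Dat} (h : Zone D) {p : ℂ} (hG : p ∈ Gd D) {M : ℕ}
    (hM : M ∈ MM D) : 10 ^ 6 ≤ ‖sin (wM D M p)‖ * m1 D := by
  have hk := kap_pos h
  have h1 := sin_core h (Z := p) M
  have h2 := hG M hM (round (p.re / kap D))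
  set d : ℝ := ‖p - core D M (round (p.re / kap D))‖ with hd
  have hd0 : 0 ≤ d := norm_nonneg _
  rw [div_le_iff₀ hk] at h1
  have hMM : (M : ℝ) - 1 / 2 < m1 D := by
    unfold MM at hM
    exact ((Finset.mem_filter.1 hM).2).2
  have hk0 := k0_kap h
  have h3 : Real.sqrt 3 ≤ 2 := by
    rw [show (2 : ℝ) = Real.sqrt 4 by
      rw [show (4 : ℝ) = 2 ^ 2 by norm_num, Real.sqrt_sq (by norm_num)]]
    exact Real.sqrt_le_sqrt (by norm_num)
  have h3' : 0 < Real.sqrt 3 := by positivity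
  unfold cM at h2
  have hk0p := k0_pos h
  have hm := m1_ge h
  have hmp : (0 : ℝ) < m1 D := by linarith [hm, (by norm_num : (0 : ℝ) < 10 ^ 10)]
  have hMpos : 0 < (M : ℝ) - 1 / 2 := by
    by_contra hcon
    push Not at hcon
    have : k0 D * ((M : ℝ) - 1 / 2) * d ≤ 0 := by
      have h4 : k0 D * ((M : ℝ) - 1 / 2) ≤ 0 := mul_nonpos_of_nonneg_of_nonpos hk0p.le hcon
      exact mul_nonpos_of_nonpos_of_nonneg h4 hd0
    linarith [(by norm_num : (0 : ℝ) < 10 ^ 6)]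
  have hs := norm_nonneg (sin (wM D M p))
  have h5 : 2 * 10 ^ 6 ≤ ‖sin (wM D M p)‖ * (Real.sqrt 3 * ((M : ℝ) - 1 / 2)) := by
    have h6 : k0 D * ((M : ℝ) - 1 / 2) * (2 * d) ≤
        k0 D * ((M : ℝ) - 1 / 2) * (‖sin (wM D M p)‖ * kap D) :=
      mul_le_mul_of_nonneg_left h1 (by positivity)
    have h7 : k0 D * ((M : ℝ) - 1 / 2) * (‖sin (wM D M p)‖ * kap D) =
        ‖sin (wM D M p)‖ * (Real.sqrt 3 * ((M : ℝ) - 1 / 2)) := by
      rw [← hk0]
      ring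
    rw [h7] at h6
    linarith
  have h8 : Real.sqrt 3 * ((M : ℝ) - 1 / 2) ≤ 2 * m1 D := by
    have := mul_le_mul h3 hMM.le hMpos.le (by norm_num)
    linarith
  have h9 := mul_le_mul_of_nonneg_left h8 hs
  linarith

theorem sin_ball {D : Dat} (h : Zone D) {p : ℂ} (hW : p ∈ Win D) (hG : p ∈ Gd D) {M : ℕ}
    (hM : M ∈ MM D) {Z : ℂ} (hZ : Z ∈ Metric.closedBall p (4 / cc D p.im)) :
    sin (wM D M p) ≠ 0 ∧ ‖sin (wM D M Z) / sin (wM D M p) - 1‖ ≤ 1 / 2 := by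
  have hm := m1_ge h
  have hmp : (0 : ℝ) < m1 D := by linarith [hm, (by norm_num : (0 : ℝ) < 10 ^ 10)]
  have hlow := SinB_low h hG hM
  have hs0 : 0 < ‖sin (wM D M p)‖ := by
    by_contra hcon
    have h1 : ‖sin (wM D M p)‖ = 0 := le_antisymm (not_lt.1 hcon) (norm_nonneg _)
    rw [h1, zero_mul] at hlow
    linarith [(by norm_num : (0 : ℝ) < 10 ^ 6)]
  have hne : sin (wM D M p) ≠ 0 := norm_pos_iff.1 hs0
  refine ⟨hne, ?_⟩
  set x : ℂ := wM D M Z - wM D M p with hx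
  have hxe : x = ((D.K / 2 : ℝ) : ℂ) * (starRingEnd ℂ) (Z - p) := by
    rw [hx]
    unfold wM
    rw [map_sub]
    push_cast
    ring
  have hKp := K_pos h
  have hk0p := k0_pos h
  have hxn : ‖x‖ ≤ 24 / m1 D := by
    rw [hxe, norm_mul, RCLike.norm_conj, Complex.norm_real, Real.norm_eq_abs,
      abs_of_pos (by positivity)]
    have h1 : ‖Z - p‖ ≤ 4 / cc D p.im := by
      rw [← dist_eq_norm]
      exact hZ
    have h2 := cc_eq h p.im
    have h3 := (mc_win h hW.2.2.1 hW.2.2.2).1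
    have h4 := K_k0 h
    have hmc : 0 < mc D p.im := lt_of_lt_of_le (by positivity) h3
    rw [h2] at h1
    calc (D.K : ℝ) / 2 * ‖Z - p‖ ≤ (4 * k0 D) / 2 * (4 / (k0 D * mc D p.im)) :=
          mul_le_mul (by linarith) h1 (norm_nonneg _) (by positivity)
      _ = 8 / mc D p.im := by
          field_simp
          norm_num
      _ ≤ 8 / (m1 D / 3) := div_le_div_of_nonneg_left (by norm_num) (by positivity) h3
      _ = 24 / m1 D := by
          field_simp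
          norm_num
  have hx1 : ‖x‖ ≤ 1 := by
    refine hxn.trans ?_
    rw [div_le_one hmp]
    linarith [(by norm_num : (24 : ℝ) ≤ 10 ^ 10)]
  have hwz : wM D M Z = wM D M p + x := by rw [hx]; ring
  have he : sin (wM D M Z) / sin (wM D M p) - 1 =
      (cos x - 1) + cos (wM D M p) / sin (wM D M p) * sin x := by
    rw [hwz, Complex.sin_add]
    field_simp
    ring
  rw [he]
  have hc : ‖cos (wM D M p) / sin (wM D M p)‖ ≤ 1 + m1 D / 10 ^ 6 := by
    rw [norm_div, div_le_iff₀ hs0]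
    have h1 := SinB_cosle (wM D M p)
    have h2 : 1 ≤ m1 D / 10 ^ 6 * ‖sin (wM D M p)‖ := by
      rw [div_mul_eq_mul_div, le_div_iff₀ (by norm_num)]
      linarith
    nlinarith
  have h1 := SinB_cos hx1
  have h2 := SinB_sin hx1
  have h3 : ‖(cos x - 1) + cos (wM D M p) / sin (wM D M p) * sin x‖ ≤
      2 * (24 / m1 D) + (1 + m1 D / 10 ^ 6) * (2 * (24 / m1 D)) := by
    refine (norm_add_le _ _).trans (add_le_add (by linarith) ?_)
    rw [norm_mul]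
    exact mul_le_mul hc (by linarith) (norm_nonneg _) (by positivity)
  refine h3.trans ?_
  have h4 : 24 / m1 D ≤ 24 / 10 ^ 10 := div_le_div_of_nonneg_left (by norm_num) (by norm_num) hm
  have h5 : m1 D / 10 ^ 6 * (2 * (24 / m1 D)) = 48 / 10 ^ 6 := by
    field_simp
    norm_num
  have h6 : (1 + m1 D / 10 ^ 6) * (2 * (24 / m1 D)) = 2 * (24 / m1 D) + 48 / 10 ^ 6 := by
    rw [← h5]
    ring
  rw [h6]
  have h7 : (24 : ℝ) / 10 ^ 10 ≤ 1 / 100 := by norm_num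
  have h8 : (48 : ℝ) / 10 ^ 6 ≤ 1 / 100 := by norm_num
  linarith

end Pool.Agent.CAPU
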