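import Pool.Agent.Lib.MP_488b8a_co_U.Defs

/-! Project CAPU (MP_488b8a_co), module SpG. -/

namespace Pool.Agent.CAPU

open Complex MeasureTheory

private theorem SpG_trig (Z : ℂ) :
    (Real.cos Z.re / Real.cosh Z.im) ^ 2 + (Real.sin Z.re / Real.cosh Z.im) ^ 2 +
      Real.tanh Z.im ^ 2 = 1 := by
  have hc := Real.cosh_pos Z.im
  have h2 := Real.cosh_sq Z.im
  have h3 := Real.sin_sq_add_cos_sq Z.re
  rw [Real.tanh_eq_sinh_div_cosh]
  field_simp
  nlinarith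

theorem Sp_norm (Z : ℂ) : ‖Sp Z‖ = 1 := by
  rw [EuclideanSpace.norm_eq, Real.sqrt_eq_one, Fin.sum_univ_three]
  simp only [Real.norm_eq_abs, sq_abs]
  exact SpG_trig Z

private theorem SpG_inner (Z q : ℂ) :
    (inner ℝ (Sp Z) (Sp q) : ℝ) = 1 - (Real.cosh (Z.im - q.im) - Real.cos (Z.re - q.re)) /
      (Real.cosh Z.im * Real.cosh q.im) := by
  have hc := Real.cosh_pos Z.im
  have hc' := Real.cosh_pos q.im
  have e : (inner ℝ (Sp Z) (Sp q) : ℝ) =
      Real.cos Z.re / Real.cosh Z.im * (Real.cos q.re / Real.cosh q.im) +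
      Real.sin Z.re / Real.cosh Z.im * (Real.sin q.re / Real.cosh q.im) +
      Real.tanh Z.im * Real.tanh q.im := by
    rw [PiLp.inner_apply, Fin.sum_univ_three]
    simp [Sp]
    ring
  rw [e, Real.cosh_sub, Real.cos_sub, Real.tanh_eq_sinh_div_cosh, Real.tanh_eq_sinh_div_cosh]
  field_simp
  ring

private theorem SpG_cosh (y h : ℝ) :
    Real.cosh y ≤ Real.cosh (y - h) * Real.exp |h| := by
  have e : y = (y - h) + h := by ring
  have h1 : Real.cosh y = Real.cosh (y - h) * Real.cosh h + Real.sinh (y - h) * Real.sinh h := by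
    conv_lhs => rw [e]
    rw [Real.cosh_add]
  have h2 : |Real.sinh (y - h)| ≤ Real.cosh (y - h) := by
    rw [abs_le]
    have := Real.cosh_sq (y - h)
    have hp := Real.cosh_pos (y - h)
    constructor <;> nlinarith
  have h3 : Real.exp |h| = Real.cosh h + |Real.sinh h| := by
    rw [← Real.cosh_abs h, Real.abs_sinh, Real.cosh_add_sinh]
  have h4 : Real.sinh (y - h) * Real.sinh h ≤ |Real.sinh (y - h)| * |Real.sinh h| := by
    rw [← abs_mul]; exact le_abs_self _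
  have h5 : |Real.sinh (y - h)| * |Real.sinh h| ≤ Real.cosh (y - h) * |Real.sinh h| :=
    mul_le_mul_of_nonneg_right h2 (abs_nonneg _)
  rw [h1, h3]
  nlinarith

theorem Sp_close {ρ : ℝ} (hρ : 0 < ρ) {Z q : ℂ} (h1 : ρ * Real.cosh Z.im ≤ 1 / 2)
    (h : ‖Z - q‖ ≤ ρ * Real.cosh Z.im) :
    1 - ρ ^ 2 / 2 * (1 + 2 * ρ * Real.cosh Z.im) ≤ inner ℝ (Sp Z) (Sp q) := by
  rw [SpG_inner]
  set δ := ρ * Real.cosh Z.im with hδ
  have hc := Real.cosh_pos Z.im
  have hc' := Real.cosh_pos q.im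
  have hδ0 : 0 < δ := mul_pos hρ hc
  set s := |Z.im - q.im| with hs
  set x := Z.re - q.re with hx
  have hs0 : 0 ≤ s := abs_nonneg _
  have hxs : x ^ 2 + s ^ 2 ≤ δ ^ 2 := by
    have e : ‖Z - q‖ ^ 2 = x ^ 2 + s ^ 2 := by
      rw [← Complex.normSq_eq_norm_sq, Complex.normSq_apply, hs, sq_abs]
      simp [hx]; ring
    rw [← e]
    exact pow_le_pow_left₀ (norm_nonneg _) h 2
  have hsδ : s ≤ δ := by nlinarith [sq_nonneg x, sq_nonneg (s - δ)]
  have hcosh : Real.cosh Z.im ≤ Real.cosh q.im * Real.exp s := by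
    have := SpG_cosh Z.im (Z.im - q.im)
    rwa [show Z.im - (Z.im - q.im) = q.im by ring] at this
  have hexp : Real.exp s ≤ 1 + δ + δ ^ 2 := by
    have h0 : Real.exp s ≤ Real.exp δ := Real.exp_le_exp.2 hsδ
    have h2 := Real.abs_exp_sub_one_sub_id_le (x := δ) (by rw [abs_of_pos hδ0]; linarith)
    have h3 := (abs_le.1 h2).2
    linarith
  have hcos : 1 - x ^ 2 / 2 ≤ Real.cos x := Real.one_sub_sq_div_two_le_cos
  have hch : Real.cosh (Z.im - q.im) ≤ 1 + s ^ 2 / 2 + s ^ 4 / 4 := by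
    have h0 := Real.cosh_le_exp_half_sq s
    have h2 := Real.abs_exp_sub_one_sub_id_le (x := s ^ 2 / 2)
      (by rw [abs_of_nonneg (by positivity)]; nlinarith)
    have h3 := (abs_le.1 h2).2
    rw [← Real.cosh_abs]
    nlinarith
  have hs4 : s ^ 4 ≤ δ ^ 4 := pow_le_pow_left₀ hs0 hsδ 4
  have hnum : Real.cosh (Z.im - q.im) - Real.cos x ≤ δ ^ 2 / 2 * (1 + δ ^ 2 / 2) := by
    nlinarith
  have hkey : (Real.cosh (Z.im - q.im) - Real.cos x) / (Real.cosh Z.im * Real.cosh q.im) ≤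
      ρ ^ 2 / 2 * (1 + 2 * ρ * Real.cosh Z.im) := by
    rw [div_le_iff₀ (mul_pos hc hc')]
    have e1 : ρ ^ 2 / 2 * (1 + 2 * ρ * Real.cosh Z.im) * (Real.cosh Z.im * Real.cosh q.im) =
        δ * (ρ / 2) * (1 + 2 * δ) * Real.cosh q.im := by
      rw [hδ]; ring
    rw [e1]
    have h6 : δ ^ 2 / 2 * (1 + δ ^ 2 / 2) ≤
        δ * (ρ / 2) * (1 + δ ^ 2 / 2) * (Real.cosh q.im * Real.exp s) := by
      have : δ ^ 2 / 2 * (1 + δ ^ 2 / 2) = δ * (ρ / 2) * (1 + δ ^ 2 / 2) * Real.cosh Z.im := by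
        rw [hδ]; ring
      rw [this]
      exact mul_le_mul_of_nonneg_left hcosh (by positivity)
    have h7 : (1 + δ ^ 2 / 2) * Real.exp s ≤ 1 + 2 * δ := by
      have a : (1 + δ ^ 2 / 2) * Real.exp s ≤ (1 + δ ^ 2 / 2) * (1 + δ + δ ^ 2) :=
        mul_le_mul_of_nonneg_left hexp (by positivity)
      have b : (1 + δ ^ 2 / 2) * (1 + δ + δ ^ 2) ≤ 1 + 2 * δ := by
        have : 3 / 2 * δ + δ ^ 2 / 2 + δ ^ 3 / 2 ≤ 1 := by
          have h2 : δ ^ 2 ≤ 1 / 4 := by nlinarith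
          have h3 : δ ^ 3 ≤ 1 / 8 := by
            have : δ ^ 3 = δ * δ ^ 2 := by ring
            rw [this]; nlinarith
          nlinarith
        nlinarith
      linarith
    have h8 : δ * (ρ / 2) * (1 + δ ^ 2 / 2) * (Real.cosh q.im * Real.exp s) ≤
        δ * (ρ / 2) * (1 + 2 * δ) * Real.cosh q.im := by
      have e2 : δ * (ρ / 2) * (1 + δ ^ 2 / 2) * (Real.cosh q.im * Real.exp s) =
          δ * (ρ / 2) * Real.cosh q.im * ((1 + δ ^ 2 / 2) * Real.exp s) := by ring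
      have e3 : δ * (ρ / 2) * (1 + 2 * δ) * Real.cosh q.im =
          δ * (ρ / 2) * Real.cosh q.im * (1 + 2 * δ) := by ring
      rw [e2, e3]
      exact mul_le_mul_of_nonneg_left h7 (by positivity)
    linarith
  have e5 : 1 + 2 * ρ * Real.cosh Z.im = 1 + 2 * δ := by rw [hδ]; ring
  linarith

private theorem SpG_angle {a b c : ℝ} (hc : 0 < c) (h : a ^ 2 + b ^ 2 = c ^ 2) :
    ∃ φ : ℝ, 0 ≤ φ ∧ φ ≤ 2 * Real.pi ∧ Real.cos φ = a / c ∧ Real.sin φ = b / c := by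
  set w : ℂ := ⟨a, b⟩ with hw
  have hn : ‖w‖ = c := by
    have : ‖w‖ ^ 2 = c ^ 2 := by
      rw [← Complex.normSq_eq_norm_sq, Complex.normSq_apply, ← h]; simp [hw]; ring
    exact (pow_left_inj₀ (norm_nonneg _) hc.le two_ne_zero).1 this
  have hw0 : w ≠ 0 := by
    intro h0; rw [h0, norm_zero] at hn; linarith
  have h1 : Real.cos (arg w) = a / c := by
    rw [Complex.cos_arg hw0, hn]
  have h2 : Real.sin (arg w) = b / c := by
    rw [Complex.sin_arg, hn]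
  by_cases h3 : 0 ≤ arg w
  · exact ⟨arg w, h3, by have := Complex.arg_le_pi w; have := Real.pi_pos; linarith, h1, h2⟩
  · push Not at h3
    refine ⟨arg w + 2 * Real.pi, ?_, by linarith, ?_, ?_⟩
    · have := Complex.neg_pi_lt_arg w; linarith [Real.pi_pos]
    · rw [Real.cos_add_two_pi, h1]
    · rw [Real.sin_add_two_pi, h2]

theorem Sp_surj {x : EuclideanSpace ℝ (Fin 3)} (hx : ‖x‖ = 1) (h2 : |x 2| < 1) :
    ∃ Z : ℂ, 0 ≤ Z.re ∧ Z.re ≤ 2 * Real.pi ∧ Real.tanh Z.im = x 2 ∧ Sp Z = x := by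
  have h3 : x 0 ^ 2 + x 1 ^ 2 + x 2 ^ 2 = 1 := by
    rw [EuclideanSpace.norm_eq, Real.sqrt_eq_one, Fin.sum_univ_three] at hx
    simpa [Real.norm_eq_abs, sq_abs] using hx
  have h4 : 0 < 1 - x 2 ^ 2 := by
    have := abs_lt.1 h2
    nlinarith
  set c := Real.sqrt (1 - x 2 ^ 2) with hc
  have hc0 : 0 < c := Real.sqrt_pos.2 h4
  have hc2 : c ^ 2 = 1 - x 2 ^ 2 := Real.sq_sqrt h4.le
  obtain ⟨φ, hφ0, hφ1, hcos, hsin⟩ := SpG_angle (a := x 0) (b := x 1) hc0 (by rw [hc2]; linarith)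
  set y := Real.arsinh (x 2 / c) with hy
  have hsinh : Real.sinh y = x 2 / c := Real.sinh_arsinh _
  have hcosh : Real.cosh y = 1 / c := by
    have e : Real.cosh y ^ 2 = (1 / c) ^ 2 := by
      rw [Real.cosh_sq, hsinh]
      field_simp
      rw [hc2]; ring
    exact (pow_left_inj₀ (Real.cosh_pos y).le (by positivity) two_ne_zero).1 e
  have htanh : Real.tanh y = x 2 := by
    rw [Real.tanh_eq_sinh_div_cosh, hsinh, hcosh]
    field_simp
  refine ⟨⟨φ, y⟩, hφ0, hφ1, htanh, ?_⟩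
  ext i
  fin_cases i
  · simp only [Sp]
    rw [hcos, hcosh]
    simp
    field_simp
  · simp only [Sp]
    rw [hsin, hcosh]
    simp
    field_simp
  · simp only [Sp]
    rw [htanh]
    simp

end Pool.Agent.CAPU
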