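import Pool.Agent.Lib.MP_488b8a_co_U.ZonS
import Pool.Agent.Lib.MP_488b8a_co_U.Pol

/-! Project CAPU (MP_488b8a_co), module SumZ. -/

namespace Pool.Agent.CAPU

open Complex MeasureTheory

private theorem cosh_succ (y : ℝ) : Real.cosh (y + 1) ≤ Real.exp 1 * Real.cosh y := by
  rw [Real.cosh_eq, Real.cosh_eq, neg_add, Real.exp_add, Real.exp_add]
  have h1 := Real.exp_pos y
  have h2 := Real.exp_pos (-y)
  have h3 : Real.exp (-1) ≤ Real.exp 1 := Real.exp_le_exp.2 (by norm_num)
  nlinarith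

private theorem one_sub_tanh {y : ℝ} (hy : 0 ≤ y) : 1 - Real.tanh y ≤ 1 / Real.cosh y ^ 2 := by
  have hc := Real.cosh_pos y
  have hs : 0 ≤ Real.sinh y := Real.sinh_nonneg_iff.2 hy
  have hcs := Real.cosh_sq y
  rw [Real.tanh_eq_sinh_div_cosh]
  have h1 : 1 - Real.sinh y / Real.cosh y = (Real.cosh y - Real.sinh y) * Real.cosh y / Real.cosh y ^ 2 := by
    field_simp
  rw [h1]
  apply div_le_div_of_nonneg_right _ (by positivity)
  have h2 : (Real.cosh y - Real.sinh y) * (Real.cosh y + Real.sinh y) = 1 := by nlinarith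
  have h3 : 0 ≤ Real.cosh y - Real.sinh y := by
    by_contra hneg
    push Not at hneg
    nlinarith
  nlinarith

/-- the reflection -/
private noncomputable def refl (x : EuclideanSpace ℝ (Fin 3)) : EuclideanSpace ℝ (Fin 3) :=
  !₂[x 0, x 1, -x 2]

private theorem refl_norm (x : EuclideanSpace ℝ (Fin 3)) : ‖refl x‖ = ‖x‖ := by
  rw [EuclideanSpace.norm_eq, EuclideanSpace.norm_eq, Fin.sum_univ_three, Fin.sum_univ_three]
  simp [refl]

private theorem refl_inner (x y : EuclideanSpace ℝ (Fin 3)) :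
    inner ℝ (refl x) (refl y) = inner ℝ x y := by
  simp [refl, PiLp.inner_apply, Fin.sum_univ_three]

private theorem refl_refl (x : EuclideanSpace ℝ (Fin 3)) : refl (refl x) = x := by
  ext i
  fin_cases i <;> simp [refl]

private theorem refl_two (x : EuclideanSpace ℝ (Fin 3)) : refl x 2 = - x 2 := by
  simp [refl]

private theorem sum_cosh (J : ℕ) : ∑ j ∈ Finset.range J, 1 / Real.cosh (j : ℝ) ≤ 4 := by
  have he : Real.exp (-1) ≤ 2 / 5 := by
    rw [Real.exp_neg, inv_le_comm₀ (Real.exp_pos _) (by norm_num)]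
    have := Real.exp_one_gt_d9
    norm_num at this ⊢
    linarith
  have he0 := Real.exp_pos (-1)
  have h1 : ∀ j ∈ Finset.range J, 1 / Real.cosh (j : ℝ) ≤ 2 * (2 / 5 : ℝ) ^ j := by
    intro j _
    have h2 : Real.exp (j : ℝ) / 2 ≤ Real.cosh j := by
      rw [Real.cosh_eq]
      have := Real.exp_pos (-(j : ℝ))
      linarith
    have h3 : 1 / Real.cosh (j : ℝ) ≤ 1 / (Real.exp (j : ℝ) / 2) :=
      one_div_le_one_div_of_le (by positivity) h2
    refine h3.trans ?_
    have h4 : 1 / (Real.exp (j : ℝ) / 2) = 2 * Real.exp (-1) ^ j := by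
      rw [← Real.exp_nat_mul, mul_neg_one, Real.exp_neg]
      field_simp
    rw [h4]
    gcongr
  refine (Finset.sum_le_sum h1).trans ?_
  rw [← Finset.mul_sum, geom_sum_eq (by norm_num)]
  have h5 : (0 : ℝ) ≤ (2 / 5 : ℝ) ^ J := by positivity
  have h6 : ((2 / 5 : ℝ) ^ J - 1) / (2 / 5 - 1) = (1 - (2 / 5 : ℝ) ^ J) * (5 / 3) := by ring
  rw [h6]
  linarith

theorem sphere_cover : ∃ C r₀ : ℝ, 0 < C ∧ 0 < r₀ ∧ r₀ ≤ 1 / 10 ∧ ∀ r : ℝ, 0 < r → r ≤ r₀ →
    ∃ Q : Finset (EuclideanSpace ℝ (Fin 3)), (∀ q ∈ Q, ‖q‖ = 1) ∧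
    (∀ x : EuclideanSpace ℝ (Fin 3), ‖x‖ = 1 → ∃ q ∈ Q, Real.cos r ≤ inner ℝ x q) ∧
    (Q.card : ℝ) ≤ 8 * Real.pi / (3 * Real.sqrt 3) / r ^ 2 + C * Real.log (1 / r) / r := by
  classical
  obtain ⟨C, r₀, hC, hr0, hr1, H⟩ := zone_sph
  obtain ⟨N, hN⟩ := polar ((Real.exp 1 / r₀) ^ 2)
  refine ⟨8 * C + 2 * N, r₀, by positivity, hr0, hr1, fun r hr hrr => ?_⟩
  have hr10 : r ≤ 1 / 10 := hrr.trans hr1
  -- number of zones
  have hex : ∃ J : ℕ, r₀ < r * Real.cosh ((J : ℝ) + 1) := by
    obtain ⟨J, hJ⟩ := exists_nat_gt (r₀ / r)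
    refine ⟨J, ?_⟩
    have h1 : (J : ℝ) + 1 + 1 ≤ Real.exp ((J : ℝ) + 1) := Real.add_one_le_exp _
    have h1' := Real.add_one_le_exp ((J : ℝ) / 1)
    have h2 : (J : ℝ) ≤ Real.cosh ((J : ℝ) + 1) := by
      rw [Real.cosh_eq]
      have h3 := Real.exp_pos (-((J : ℝ) + 1))
      have h4 : Real.exp ((J : ℝ) + 1) = Real.exp (J : ℝ) * Real.exp 1 := Real.exp_add _ _
      have h5 := Real.add_one_le_exp (J : ℝ)
      have h6 := Real.add_one_le_exp (1 : ℝ)
      have h7 : (0 : ℝ) ≤ J := Nat.cast_nonneg J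
      nlinarith
    rw [div_lt_iff₀ hr] at hJ
    nlinarith
  set J := Nat.find hex with hJdef
  have hJ1 : r₀ < r * Real.cosh ((J : ℝ) + 1) := Nat.find_spec hex
  have hJ2 : ∀ j < J, r * Real.cosh ((j : ℝ) + 1) ≤ r₀ := by
    intro j hj
    have := Nat.find_min hex hj
    push Not at this
    exact this
  have hzone : ∀ j : ℕ, ∃ Q : Finset (EuclideanSpace ℝ (Fin 3)), j < J → ((∀ q ∈ Q, ‖q‖ = 1) ∧
    (∀ x : EuclideanSpace ℝ (Fin 3), ‖x‖ = 1 → Real.tanh j ≤ x 2 → x 2 ≤ Real.tanh (j + 1) →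
      ∃ q ∈ Q, Real.cos r ≤ inner ℝ x q) ∧
    (Q.card : ℝ) ≤ 4 * Real.pi / (3 * Real.sqrt 3) * (Real.tanh (j + 1) - Real.tanh j) / r ^ 2 +
      C * Real.log (1 / r) / (r * Real.cosh j)) := by
    intro j
    by_cases hj : j < J
    · obtain ⟨Q, hQ⟩ := H r j hr (hJ2 j hj)
      exact ⟨Q, fun _ => hQ⟩
    · exact ⟨∅, fun h => absurd h hj⟩
  choose Qz hQz using hzone
  obtain ⟨Qp, hQp1, hQp2, hQp3⟩ := hN r hr (by linarith)
  set Qu := (Finset.range J).biUnion Qz ∪ Qp with hQu
  have hQu1 : ∀ q ∈ Qu, ‖q‖ = 1 := by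
    intro q hq
    rw [hQu, Finset.mem_union, Finset.mem_biUnion] at hq
    rcases hq with ⟨j, hj, hq⟩ | hq
    · exact (hQz j (Finset.mem_range.1 hj)).1 q hq
    · exact hQp1 q hq
  have hup : ∀ x : EuclideanSpace ℝ (Fin 3), ‖x‖ = 1 → 0 ≤ x 2 →
      ∃ q ∈ Qu, Real.cos r ≤ inner ℝ x q := by
    intro x hx hx2
    rcases lt_or_ge (x 2) (Real.tanh J) with hlt | hge
    · have hJpos : J ≠ 0 := by
        intro h0
        rw [h0] at hlt
        simp at hlt
        linarith
      have hex2 : ∃ j : ℕ, x 2 < Real.tanh ((j : ℝ) + 1) := by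
        refine ⟨J - 1, ?_⟩
        have : ((J - 1 : ℕ) : ℝ) + 1 = J := by
          rw [Nat.cast_sub (by omega)]
          simp
        rw [this]
        exact hlt
      set j := Nat.find hex2 with hj
      have h1 : x 2 < Real.tanh ((j : ℝ) + 1) := Nat.find_spec hex2
      have h2 : j ≤ J - 1 := by
        apply Nat.find_min' hex2
        have : ((J - 1 : ℕ) : ℝ) + 1 = J := by
          rw [Nat.cast_sub (by omega)]
          simp
        rw [this]
        exact hlt
      have h3 : Real.tanh (j : ℝ) ≤ x 2 := by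
        rcases Nat.eq_zero_or_pos j with h0 | h0
        · rw [h0]
          simpa using hx2
        · have h4 := Nat.find_min hex2 (m := j - 1) (by omega)
          push Not at h4
          have h5 : ((j - 1 : ℕ) : ℝ) + 1 = j := by
            rw [Nat.cast_sub (by omega)]
            simp
          rwa [h5] at h4
      have hjJ : j < J := by omega
      obtain ⟨q, hq1, hq2⟩ := (hQz j hjJ).2.1 x hx h3 h1.le
      refine ⟨q, ?_, hq2⟩
      rw [hQu, Finset.mem_union, Finset.mem_biUnion]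
      left
      exact ⟨j, Finset.mem_range.2 hjJ, hq1⟩
    · have hcJ : 0 < Real.cosh (J : ℝ) := Real.cosh_pos _
      have h1 : 1 - x 2 ≤ (Real.exp 1 / r₀) ^ 2 * r ^ 2 := by
        have h2 := one_sub_tanh (Nat.cast_nonneg J : (0 : ℝ) ≤ J)
        have h3 : 1 / Real.cosh (J : ℝ) ≤ Real.exp 1 / r₀ * r := by
          rw [div_le_iff₀ hcJ]
          have h4 := cosh_succ (J : ℝ)
          have h5 : r₀ ≤ r * (Real.exp 1 * Real.cosh (J : ℝ)) := by
            refine hJ1.le.trans ?_
            gcongr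
          rw [div_mul_eq_mul_div, div_mul_eq_mul_div, le_div_iff₀ hr0]
          linarith
        have h6 : 1 / Real.cosh (J : ℝ) ^ 2 = (1 / Real.cosh (J : ℝ)) ^ 2 := by
          rw [one_div_pow]
        rw [h6] at h2
        have h7 : (1 / Real.cosh (J : ℝ)) ^ 2 ≤ (Real.exp 1 / r₀ * r) ^ 2 := by
          gcongr
        rw [mul_pow] at h7
        linarith
      obtain ⟨q, hq1, hq2⟩ := hQp3 x hx h1
      refine ⟨q, ?_, hq2⟩
      rw [hQu, Finset.mem_union]
      right
      exact hq1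
  refine ⟨Qu ∪ Qu.image refl, ?_, ?_, ?_⟩
  · intro q hq
    rw [Finset.mem_union, Finset.mem_image] at hq
    rcases hq with hq | ⟨q', hq', rfl⟩
    · exact hQu1 q hq
    · rw [refl_norm]
      exact hQu1 q' hq'
  · intro x hx
    rcases le_total 0 (x 2) with h0 | h0
    · obtain ⟨q, hq1, hq2⟩ := hup x hx h0
      exact ⟨q, Finset.mem_union_left _ hq1, hq2⟩
    · have h1 : ‖refl x‖ = 1 := by rw [refl_norm, hx]
      have h2 : 0 ≤ refl x 2 := by
        rw [refl_two]
        linarith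
      obtain ⟨q, hq1, hq2⟩ := hup (refl x) h1 h2
      refine ⟨refl q, Finset.mem_union_right _ (Finset.mem_image_of_mem _ hq1), ?_⟩
      rw [← refl_inner, refl_refl]
      exact hq2
  · have hlog : 1 ≤ Real.log (1 / r) := by
      rw [Real.le_log_iff_exp_le (by positivity)]
      have h1 : (10 : ℝ) ≤ 1 / r := by
        rw [le_div_iff₀ hr]
        linarith
      have := Real.exp_one_lt_d9
      linarith
    have hA : 0 ≤ 4 * Real.pi / (3 * Real.sqrt 3) := by positivity
    have hcz : ((((Finset.range J).biUnion Qz).card : ℕ) : ℝ) ≤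
        4 * Real.pi / (3 * Real.sqrt 3) / r ^ 2 + 4 * C * Real.log (1 / r) / r := by
      have h1 : ((((Finset.range J).biUnion Qz).card : ℕ) : ℝ) ≤
          ∑ j ∈ Finset.range J, ((Qz j).card : ℝ) := by
        exact_mod_cast Finset.card_biUnion_le
      refine h1.trans ?_
      have h2 : ∑ j ∈ Finset.range J, ((Qz j).card : ℝ) ≤ ∑ j ∈ Finset.range J,
          (4 * Real.pi / (3 * Real.sqrt 3) * (Real.tanh (j + 1) - Real.tanh j) / r ^ 2 +
            C * Real.log (1 / r) / (r * Real.cosh j)) :=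
        Finset.sum_le_sum fun j hj => (hQz j (Finset.mem_range.1 hj)).2.2
      refine h2.trans ?_
      rw [Finset.sum_add_distrib]
      have h3 : ∑ j ∈ Finset.range J,
          4 * Real.pi / (3 * Real.sqrt 3) * (Real.tanh ((j : ℝ) + 1) - Real.tanh j) / r ^ 2 =
          4 * Real.pi / (3 * Real.sqrt 3) / r ^ 2 * Real.tanh J := by
        have h4 : ∑ j ∈ Finset.range J, (Real.tanh ((j : ℝ) + 1) - Real.tanh j) = Real.tanh J := by
          have h5 := Finset.sum_range_sub (fun j : ℕ => Real.tanh (j : ℝ)) J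
          push_cast at h5
          simpa using h5
        rw [← h4, Finset.mul_sum]
        apply Finset.sum_congr rfl
        intro j _
        ring
      have h6 : ∑ j ∈ Finset.range J, C * Real.log (1 / r) / (r * Real.cosh (j : ℝ)) ≤
          4 * C * Real.log (1 / r) / r := by
        have h7 : ∑ j ∈ Finset.range J, C * Real.log (1 / r) / (r * Real.cosh (j : ℝ)) =
            C * Real.log (1 / r) / r * ∑ j ∈ Finset.range J, 1 / Real.cosh (j : ℝ) := by
          rw [Finset.mul_sum]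
          apply Finset.sum_congr rfl
          intro j _
          have := (Real.cosh_pos (j : ℝ)).ne'
          field_simp
        rw [h7]
        have h8 := sum_cosh J
        have h9 : 0 ≤ C * Real.log (1 / r) / r := by positivity
        calc C * Real.log (1 / r) / r * ∑ j ∈ Finset.range J, 1 / Real.cosh (j : ℝ) ≤
            C * Real.log (1 / r) / r * 4 := by gcongr
          _ = _ := by ring
      rw [h3]
      have h10 : 4 * Real.pi / (3 * Real.sqrt 3) / r ^ 2 * Real.tanh J ≤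
          4 * Real.pi / (3 * Real.sqrt 3) / r ^ 2 * 1 := by
        apply mul_le_mul_of_nonneg_left (Real.tanh_lt_one _).le
        positivity
      linarith
    have hcp : (Qp.card : ℝ) ≤ N * Real.log (1 / r) / r := by
      have h1 : (Qp.card : ℝ) ≤ N := by exact_mod_cast hQp2
      refine h1.trans ?_
      rw [le_div_iff₀ hr]
      have h2 : (0 : ℝ) ≤ N := Nat.cast_nonneg _
      nlinarith
    have hcu : (Qu.card : ℝ) ≤ 4 * Real.pi / (3 * Real.sqrt 3) / r ^ 2 +
        (4 * C + N) * Real.log (1 / r) / r := by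
      have h1 : (Qu.card : ℝ) ≤ ((((Finset.range J).biUnion Qz).card : ℕ) : ℝ) + Qp.card := by
        exact_mod_cast Finset.card_union_le _ _
      have h2 : (4 * C + N) * Real.log (1 / r) / r = 4 * C * Real.log (1 / r) / r +
        N * Real.log (1 / r) / r := by ring
      rw [h2]
      linarith
    have hct : (((Qu ∪ Qu.image refl).card : ℕ) : ℝ) ≤ Qu.card + Qu.card := by
      have h1 := Finset.card_union_le Qu (Qu.image refl)
      have h2 : (Qu.image refl).card ≤ Qu.card := Finset.card_image_le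
      exact_mod_cast h1.trans (by omega)
    have hfin : 8 * Real.pi / (3 * Real.sqrt 3) / r ^ 2 + (8 * C + 2 * N) * Real.log (1 / r) / r =
        2 * (4 * Real.pi / (3 * Real.sqrt 3) / r ^ 2 + (4 * C + N) * Real.log (1 / r) / r) := by
      ring
    rw [hfin]
    linarith

end Pool.Agent.CAPU
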