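import Pool.Agent.Lib.MP_488b8a_co_U.Psi
import Pool.Agent.Lib.MP_488b8a_co_U.Num3

/-! Project CAPU (MP_488b8a_co), module WOne. -/

namespace Pool.Agent.CAPU

open Complex MeasureTheory

variable {D : Dat}

private theorem WOne_far (h : Zone D) {Z : ℂ} {M : ℕ} {j : ℤ} (hM : M ∈ MM D)
    (hf : kap D / 8 ≤ ‖Z - core D M j‖) :
    nu M (‖(cM D M : ℂ) * (Z - core D M j)‖ ^ 2) = 0 ∧
    psd M (‖(cM D M : ℂ) * (Z - core D M j)‖ ^ 2) = 0 := by
  have h1 := (mem_MM.1 hM).1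
  have h2 := h.hm
  have h3 : (1 : ℝ) / 2 < M := by linarith
  have h4 : 1 ≤ M := by
    by_contra hcon
    have : M = 0 := by omega
    rw [this] at h3
    norm_num at h3
  have hc := cM_pos h hM
  have h5 : ‖(cM D M : ℂ) * (Z - core D M j)‖ = cM D M * ‖Z - core D M j‖ := by
    rw [norm_mul, Complex.norm_real, Real.norm_eq_abs, abs_of_pos hc]
  have h6 : Dm M ≤ cM D M * ‖Z - core D M j‖ := by
    have h7 := cM_kap h M
    have h8 := mul_le_mul_of_nonneg_left hf hc.le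
    unfold Dm
    rw [← h7]
    linarith
  have h7 : 0 ≤ Dm M := by
    unfold Dm
    have : 0 ≤ Real.sqrt 3 := Real.sqrt_nonneg 3
    have h9 : 0 ≤ (M : ℝ) - 1 / 2 := by linarith
    positivity
  have h8 : Dm M ^ 2 ≤ ‖(cM D M : ℂ) * (Z - core D M j)‖ ^ 2 := by
    rw [h5]
    exact pow_le_pow_left₀ h7 h6 2
  have h9 := out_zero h4 h8
  exact ⟨h9.2.2, h9.2.1⟩

private theorem WOne_kap : 0 ≤ kap D := by
  unfold kap
  positivity

/-- far from all cores the radial corrections vanish -/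
theorem W_out (h : Zone D) {Z : ℂ} (hf : ∀ M ∈ MM D, ∀ j ∈ JJ D, kap D / 8 ≤ ‖Z - core D M j‖) :
    aW D Z = 0 ∧ bW D Z = 0 ∧ Tc D Z = 0 := by
  refine ⟨?_, ?_, ?_⟩
  · unfold aW
    refine Finset.sum_eq_zero fun M hM => Finset.sum_eq_zero fun j hj => ?_
    rw [(WOne_far h hM (hf M hM j hj)).1, mul_zero]
  · unfold bW
    refine Finset.sum_eq_zero fun M hM => Finset.sum_eq_zero fun j hj => ?_
    rw [(WOne_far h hM (hf M hM j hj)).2, Complex.ofReal_zero, mul_zero, mul_zero]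
  · unfold Tc
    refine Finset.sum_eq_zero fun M hM => Finset.sum_eq_zero fun j hj => ?_
    rw [if_neg (not_lt.2 (hf M hM j hj))]

/-- near a core only its term is present -/
theorem W_one (h : Zone D) {Z : ℂ} {M : ℕ} {j : ℤ} (hM : M ∈ MM D) (hj : j ∈ JJ D)
    (hn : ‖Z - core D M j‖ < kap D / 4) :
    aW D Z = cM D M * nu M (‖(cM D M : ℂ) * (Z - core D M j)‖ ^ 2) ∧
    bW D Z = (cM D M : ℂ) * (((cM D M : ℂ) * (Z - core D M j)) ^ 2 *
      (psd M (‖(cM D M : ℂ) * (Z - core D M j)‖ ^ 2) : ℂ)) ∧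
    (‖Z - core D M j‖ < kap D / 8 → Tc D Z = (kap D / ‖Z - core D M j‖) ^ 2) := by
  have hk := WOne_kap (D := D)
  have hfar : ∀ M' ∈ MM D, ∀ j' : ℤ, (M' ≠ M ∨ j' ≠ j) → kap D / 8 ≤ ‖Z - core D M' j'‖ := by
    intro M' hM' j' hne
    have h1 : ¬ ‖Z - core D M' j'‖ < kap D / 4 := by
      intro h2
      obtain ⟨e1, e2⟩ := core_unique h hM hM' hn h2
      rcases hne with h3 | h3
      · exact h3 e1.symm
      · exact h3 e2.symm
    linarith [not_lt.1 h1]
  refine ⟨?_, ?_, ?_⟩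
  · unfold aW
    rw [Finset.sum_eq_single_of_mem M hM, Finset.sum_eq_single_of_mem j hj]
    · intro j' _ hne
      rw [(WOne_far h hM (hfar M hM j' (Or.inr hne))).1, mul_zero]
    · intro M' hM' hne
      refine Finset.sum_eq_zero fun j' _ => ?_
      rw [(WOne_far h hM' (hfar M' hM' j' (Or.inl hne))).1, mul_zero]
  · unfold bW
    rw [Finset.sum_eq_single_of_mem M hM, Finset.sum_eq_single_of_mem j hj]
    · intro j' _ hne
      rw [(WOne_far h hM (hfar M hM j' (Or.inr hne))).2, Complex.ofReal_zero, mul_zero, mul_zero]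
    · intro M' hM' hne
      refine Finset.sum_eq_zero fun j' _ => ?_
      rw [(WOne_far h hM' (hfar M' hM' j' (Or.inl hne))).2, Complex.ofReal_zero, mul_zero,
        mul_zero]
  · intro h8
    unfold Tc
    rw [Finset.sum_eq_single_of_mem M hM, Finset.sum_eq_single_of_mem j hj, if_pos h8]
    · intro j' _ hne
      rw [if_neg (not_lt.2 (hfar M hM j' (Or.inr hne)))]
    · intro M' hM' hne
      refine Finset.sum_eq_zero fun j' _ => ?_
      rw [if_neg (not_lt.2 (hfar M' hM' j' (Or.inl hne)))]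

end Pool.Agent.CAPU
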