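import Pool.Agent.Lib.MP_488b8a_co_U.ZonT
import Pool.Agent.Lib.MP_488b8a_co_U.SpG
import Pool.Agent.Lib.MP_488b8a_co_U.Num1

/-! Project CAPU (MP_488b8a_co), module ZonS. -/

namespace Pool.Agent.CAPU

open Complex MeasureTheory

private theorem cosh_add_one_le (y : ℝ) : Real.cosh (y + 1) ≤ 2.72 * Real.cosh y := by
  have he := Real.exp_one_lt_d9
  have h0 : Real.cosh (y + 1) ≤ Real.exp 1 * Real.cosh y := by
    rw [Real.cosh_eq, Real.cosh_eq, neg_add, Real.exp_add, Real.exp_add]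
    have h1 := Real.exp_pos y
    have h2 := Real.exp_pos (-y)
    have h3 : Real.exp (-1) ≤ Real.exp 1 := Real.exp_le_exp.2 (by norm_num)
    nlinarith
  have := Real.cosh_pos y
  nlinarith

private theorem tanh_diff {y : ℝ} (hy : 0 ≤ y) :
    Real.tanh (y + 1) - Real.tanh y ≤ 1 / Real.cosh y ^ 2 := by
  have hc := Real.cosh_pos y
  have hs : 0 ≤ Real.sinh y := Real.sinh_nonneg_iff.2 hy
  have hcs := Real.cosh_sq y
  have h0 := Real.tanh_lt_one (y + 1)
  have h1 : 1 - Real.tanh y ≤ 1 / Real.cosh y ^ 2 := by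
    rw [Real.tanh_eq_sinh_div_cosh]
    have h1 : 1 - Real.sinh y / Real.cosh y =
        (Real.cosh y - Real.sinh y) * Real.cosh y / Real.cosh y ^ 2 := by
      field_simp
    rw [h1]
    apply div_le_div_of_nonneg_right _ (by positivity)
    have h2 : (Real.cosh y - Real.sinh y) * (Real.cosh y + Real.sinh y) = 1 := by nlinarith
    have h3 : 0 ≤ Real.cosh y - Real.sinh y := by
      by_contra hneg
      push Not at hneg
      nlinarith
    nlinarith
  linarith

/-- the cosine of `r` is below the value provided by `Sp_close` -/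
private theorem cos_cmp {r η : ℝ} (hr : 0 < r) (hη : r ≤ η) (hη1 : η ≤ 1 / 10) {x : ℝ}
    (hx0 : 0 ≤ x) (hx : x ≤ η) :
    Real.cos r ≤ 1 - (r * (1 - 2 * η)) ^ 2 / 2 * (1 + 2 * x) := by
  have h1 : Real.cos r ≤ 1 - r ^ 2 / 2 + r ^ 4 * (5 / 96) := by
    have hr1 : |r| ≤ 1 := by
      rw [abs_of_pos hr]
      linarith
    have := Real.cos_bound hr1
    rw [abs_le, abs_of_pos hr] at this
    linarith [this.2]
  have h2 : (r * (1 - 2 * η)) ^ 2 / 2 * (1 + 2 * x) ≤ (r * (1 - 2 * η)) ^ 2 / 2 * (1 + 2 * η) := by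
    gcongr
  have h3 : (1 - 2 * η) ^ 2 * (1 + 2 * η) ≤ 1 - 2 * η := by
    have : 0 ≤ η := by linarith
    nlinarith [mul_nonneg this this]
  have h4 : (r * (1 - 2 * η)) ^ 2 / 2 * (1 + 2 * η) ≤ r ^ 2 / 2 * (1 - 2 * η) := by
    have : (r * (1 - 2 * η)) ^ 2 / 2 * (1 + 2 * η) = r ^ 2 / 2 * ((1 - 2 * η) ^ 2 * (1 + 2 * η)) := by
      ring
    rw [this]
    gcongr
  have h5 : r ^ 4 * (5 / 96) ≤ r ^ 2 / 2 * (2 * η) := by
    have h6 : r ^ 2 * (5 / 96) ≤ η := by nlinarith
    have h7 : 0 ≤ r ^ 2 := by positivity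
    nlinarith
  linarith

theorem zone_sph : ∃ C r₀ : ℝ, 0 < C ∧ 0 < r₀ ∧ r₀ ≤ 1 / 10 ∧ ∀ (r : ℝ) (j : ℕ), 0 < r →
    r * Real.cosh (j + 1) ≤ r₀ → ∃ Q : Finset (EuclideanSpace ℝ (Fin 3)), (∀ q ∈ Q, ‖q‖ = 1) ∧
    (∀ x : EuclideanSpace ℝ (Fin 3), ‖x‖ = 1 → Real.tanh j ≤ x 2 → x 2 ≤ Real.tanh (j + 1) →
      ∃ q ∈ Q, Real.cos r ≤ inner ℝ x q) ∧
    (Q.card : ℝ) ≤ 4 * Real.pi / (3 * Real.sqrt 3) * (Real.tanh (j + 1) - Real.tanh j) / r ^ 2 +
      C * Real.log (1 / r) / (r * Real.cosh j) := by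
  classical
  obtain ⟨C₀, hC₀, H⟩ := zone_cover
  refine ⟨100 + 200 * C₀, 1 / 10 ^ 24, by positivity, by positivity, by norm_num,
    fun r j hr hrj => ?_⟩
  set y : ℝ := (j : ℝ) with hy
  have hy0 : 0 ≤ y := Nat.cast_nonneg j
  set c := Real.cosh y with hc
  set c' := Real.cosh (y + 1) with hc'
  have hc1 : 1 ≤ c := Real.one_le_cosh y
  have hcc' : c ≤ c' := by
    rw [hc, hc', Real.cosh_le_cosh, abs_of_nonneg hy0, abs_of_nonneg (by linarith)]
    linarith
  have hc'c : c' ≤ 2.72 * c := cosh_add_one_le y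
  set η := r * c' with hη
  have hη0 : η ≤ 1 / 10 ^ 24 := hrj
  have hrη : r ≤ η := by nlinarith
  have hηpos : 0 < η := lt_of_lt_of_le hr hrη
  set ρ := r * (1 - 2 * η) with hρ
  have hρpos : 0 < ρ := by
    rw [hρ]
    apply mul_pos hr
    linarith
  have hρr : ρ ≤ r := by
    rw [hρ]
    nlinarith
  have hrρ : r ≤ 1.01 * ρ := by
    rw [hρ]
    nlinarith
  -- the number of cells
  set s := Real.sqrt (ρ * c) with hs
  have hspos : 0 < s := Real.sqrt_pos.2 (by positivity)
  have hss : s ^ 2 = ρ * c := Real.sq_sqrt (by positivity)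
  have hs1 : s ≤ 1 / 10 ^ 12 := by
    have : s ^ 2 ≤ (1 / 10 ^ 12) ^ 2 := by
      rw [hss]
      have : ρ * c ≤ r * c' := by gcongr
      refine this.trans (hη0.trans ?_)
      norm_num
    exact (pow_le_pow_iff_left₀ hspos.le (by positivity) (by norm_num)).1 this
  set K := ⌈6 / s⌉₊ with hK
  have hK1 : 6 / s ≤ (K : ℝ) := Nat.le_ceil _
  have hK2 : (K : ℝ) ≤ 7 / s := by
    have h1 : (K : ℝ) < 6 / s + 1 := Nat.ceil_lt_add_one (by positivity)
    have h2 : 6 / s + 1 ≤ 7 / s := by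
      rw [div_add_one hspos.ne']
      gcongr
      linarith
    linarith
  have hKpos : 0 < (K : ℝ) := lt_of_lt_of_le (by positivity) hK1
  let D : Dat := ⟨ρ, K, y, y + 1⟩
  have hpi3 := Real.pi_gt_three
  have hpi4 := Real.pi_lt_d2
  have h3a : (1.7 : ℝ) ≤ Real.sqrt 3 := by
    apply Real.le_sqrt_of_sq_le
    norm_num
  have h3b : Real.sqrt 3 ≤ 1.8 := by
    rw [Real.sqrt_le_left (by norm_num)]
    norm_num
  have h3pos : 0 < Real.sqrt 3 := by positivity
  have hmc : ∀ z, mc D z = 2 * Real.pi / (Real.sqrt 3 * K * (ρ * Real.cosh z)) := by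
    intro z
    simp only [mc, cc, k0, D]
    have := Real.cosh_pos z
    field_simp
  have hm1 : m1 D = 2 * Real.pi / (Real.sqrt 3 * K * s ^ 2) := by
    unfold m1
    rw [hmc, hss]
  have hZ : Zone D := by
    refine ⟨hρpos, hy0, by simp [D], le_refl _, ?_, ?_⟩
    · show 8 * m1 D ≤ (K : ℝ)
      rw [hm1, mul_div_assoc', div_le_iff₀ (by positivity)]
      have h1 : 6 ≤ K * s := by
        rwa [div_le_iff₀ hspos] at hK1
      have h2 : 36 ≤ (K * s) ^ 2 := by nlinarith
      have h4 : (K : ℝ) * (Real.sqrt 3 * K * s ^ 2) = Real.sqrt 3 * (K * s) ^ 2 := by ring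
      rw [h4]
      nlinarith
    · show 10 ^ 10 ≤ mc D (y + 1)
      rw [hmc]
      have h1 : Real.sqrt 3 * K * (ρ * Real.cosh (y + 1)) ≤ 1.8 * (7 / s) * (2.72 * s ^ 2) := by
        have h2 : ρ * Real.cosh (y + 1) ≤ 2.72 * s ^ 2 := by
          rw [hss]
          nlinarith
        have h5 : 0 ≤ ρ * Real.cosh (y + 1) := by positivity
        gcongr
      have h2 : 1.8 * (7 / s) * (2.72 * s ^ 2) = 34.272 * s := by
        field_simp
        ring
      rw [h2] at h1
      rw [le_div_iff₀ (by positivity)]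
      nlinarith
  obtain ⟨Q0, hQ1, hQ2⟩ := H D hZ
  refine ⟨Q0.image Sp, ?_, ?_, ?_⟩
  · intro q hq
    rw [Finset.mem_image] at hq
    obtain ⟨z, _, rfl⟩ := hq
    exact Sp_norm z
  · intro x hx hx1 hx2
    have hx3 : |x 2| < 1 := by
      rw [abs_lt]
      have h1 := Real.tanh_lt_one (y + 1)
      have h2 : 0 ≤ Real.tanh y := by
        rw [Real.tanh_eq_sinh_div_cosh]
        apply div_nonneg (Real.sinh_nonneg_iff.2 hy0) (Real.cosh_pos y).le
      constructor <;> linarith
    obtain ⟨Z, hZ0, hZ1, hZ2, hZ3⟩ := Sp_surj hx hx3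
    have hmono : ∀ a b : ℝ, Real.tanh a ≤ Real.tanh b → a ≤ b := by
      intro a b hab
      have h1 : Real.tanh a ∈ Set.Ioo (-1 : ℝ) 1 := ⟨Real.neg_one_lt_tanh a, Real.tanh_lt_one a⟩
      have h2 : Real.tanh b ∈ Set.Ioo (-1 : ℝ) 1 := ⟨Real.neg_one_lt_tanh b, Real.tanh_lt_one b⟩
      have h3 := Real.artanh_le_artanh h1.1 h2.2 hab
      rwa [Real.artanh_tanh, Real.artanh_tanh] at h3
    have hy1 : y ≤ Z.im := hmono _ _ (by rw [hZ2]; exact hx1)
    have hy2 : Z.im ≤ y + 1 := hmono _ _ (by rw [hZ2]; exact hx2)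
    obtain ⟨q, hq1, hq2⟩ := hQ1 Z hZ0 hZ1 hy1 hy2
    refine ⟨Sp q, Finset.mem_image_of_mem _ hq1, ?_⟩
    have hcZ : Real.cosh Z.im ≤ c' := by
      rw [hc', Real.cosh_le_cosh, abs_of_nonneg (by linarith), abs_of_nonneg (by linarith)]
      exact hy2
    have hcZ0 := Real.cosh_pos Z.im
    have hρη : ρ * Real.cosh Z.im ≤ η := by
      rw [hη]
      gcongr
    have h1 := Sp_close hρpos (Z := Z) (q := q) (by linarith) hq2
    rw [← hZ3]
    refine le_trans ?_ h1
    have h2 := cos_cmp hr hrη (by linarith) (x := ρ * Real.cosh Z.im) (by positivity) hρη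
    rw [← hρ] at h2
    calc Real.cos r ≤ _ := h2
      _ = _ := by ring
  · have hcard : ((Q0.image Sp).card : ℝ) ≤ Q0.card := by exact_mod_cast Finset.card_image_le
    refine hcard.trans (hQ2.trans ?_)
    show 4 * Real.pi / (3 * Real.sqrt 3) * (Real.tanh (y + 1) - Real.tanh y) / ρ ^ 2 +
      C₀ * (K : ℝ) ^ 2 * Real.log (m1 D) ≤ _
    set T := Real.tanh (y + 1) - Real.tanh y with hT
    have hT0 : 0 ≤ T := by
      have h1 : Real.tanh y ≤ Real.tanh (y + 1) := by
        by_contra hneg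
        push Not at hneg
        have h1 : Real.tanh (y + 1) ∈ Set.Ioo (-1 : ℝ) 1 :=
          ⟨Real.neg_one_lt_tanh _, Real.tanh_lt_one _⟩
        have h2 : Real.tanh y ∈ Set.Ioo (-1 : ℝ) 1 := ⟨Real.neg_one_lt_tanh _, Real.tanh_lt_one _⟩
        have h3 := Real.artanh_le_artanh h1.1 h2.2 hneg.le
        rw [Real.artanh_tanh, Real.artanh_tanh] at h3
        linarith
      linarith
    have hT1 : T ≤ 1 / c ^ 2 := tanh_diff hy0
    have hlog1 : 1 ≤ Real.log (1 / r) := by
      rw [Real.le_log_iff_exp_le (by positivity)]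
      have h1 : (10 : ℝ) ≤ 1 / r := by
        rw [le_div_iff₀ hr]
        linarith
      have := Real.exp_one_lt_d9
      linarith
    have hcpos : 0 < c := by linarith
    -- first term
    have hmain : 4 * Real.pi / (3 * Real.sqrt 3) * T / ρ ^ 2 ≤
        4 * Real.pi / (3 * Real.sqrt 3) * T / r ^ 2 + 100 * Real.log (1 / r) / (r * c) := by
      have h1 : 1 / ρ ^ 2 ≤ 1 / r ^ 2 * (1 + 5 * η) := by
        rw [hρ, mul_pow, one_div, one_div, mul_inv]
        have h2 : ((1 - 2 * η) ^ 2)⁻¹ ≤ 1 + 5 * η := by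
          rw [inv_le_iff_one_le_mul₀ (by nlinarith)]
          nlinarith [mul_pos hηpos hηpos]
        gcongr
      have hA : 4 * Real.pi / (3 * Real.sqrt 3) ≤ 3 := by
        rw [div_le_iff₀ (by positivity)]
        nlinarith
      have hA0 : 0 ≤ 4 * Real.pi / (3 * Real.sqrt 3) := by positivity
      have h3 : 4 * Real.pi / (3 * Real.sqrt 3) * T / ρ ^ 2 ≤
          4 * Real.pi / (3 * Real.sqrt 3) * T * (1 / r ^ 2 * (1 + 5 * η)) := by
        rw [div_eq_mul_one_div]
        gcongr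
      refine h3.trans ?_
      have h4 : 4 * Real.pi / (3 * Real.sqrt 3) * T * (1 / r ^ 2 * (1 + 5 * η)) =
          4 * Real.pi / (3 * Real.sqrt 3) * T / r ^ 2 +
            (4 * Real.pi / (3 * Real.sqrt 3)) * T * (5 * η / r ^ 2) := by
        ring
      rw [h4]
      have h5 : (4 * Real.pi / (3 * Real.sqrt 3)) * T * (5 * η / r ^ 2) ≤
          3 * (1 / c ^ 2) * (5 * (r * (2.72 * c)) / r ^ 2) := by
        have h6 : η ≤ r * (2.72 * c) := by
          rw [hη]
          gcongr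
        gcongr
      have h7 : 3 * (1 / c ^ 2) * (5 * (r * (2.72 * c)) / r ^ 2) = 40.8 / (r * c) := by
        field_simp
        ring
      have h8 : 40.8 / (r * c) ≤ 100 * Real.log (1 / r) / (r * c) := by
        apply div_le_div_of_nonneg_right _ (by positivity)
        linarith
      linarith
    -- second term
    have hsec : C₀ * (K : ℝ) ^ 2 * Real.log (m1 D) ≤ 200 * C₀ * Real.log (1 / r) / (r * c) := by
      have h1 : (K : ℝ) ^ 2 ≤ 50 / (r * c) := by
        have h2 : (K : ℝ) ^ 2 ≤ (7 / s) ^ 2 := by gcongr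
        refine h2.trans ?_
        rw [div_pow, hss, div_le_div_iff₀ (by positivity) (by positivity)]
        nlinarith
      have hm1' := m1_ge hZ
      have hlm : Real.log (m1 D) ≤ 2 * Real.log (1 / r) := by
        have h3 : m1 D ≤ (1 / r) ^ 2 := by
          rw [hm1, div_le_iff₀ (by positivity)]
          have h5 : 6 ≤ K * s := by
            rwa [div_le_iff₀ hspos] at hK1
          -- K ≥ 4, s ^ 2 = ρ c ≥ r / 1.01
          have h6 : (4 : ℝ) ≤ K := by nlinarith
          have h7 : r / 1.01 ≤ s ^ 2 := by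
            rw [hss, div_le_iff₀ (by norm_num)]
            nlinarith
          have h8 : (1 / r) ^ 2 * (Real.sqrt 3 * K * s ^ 2) ≥ (1 / r) ^ 2 * (1.7 * 4 * (r / 1.01)) := by
            gcongr
          have h9 : (1 / r) ^ 2 * (1.7 * 4 * (r / 1.01)) = 6.8 / 1.01 * (1 / r) := by
            field_simp
            ring
          have h10 : (10 : ℝ) ≤ 1 / r := by
            rw [le_div_iff₀ hr]
            linarith
          have h11 : 2 * Real.pi ≤ 6.8 / 1.01 * (1 / r) := by
            nlinarith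
          linarith
        have h4 : Real.log (m1 D) ≤ Real.log ((1 / r) ^ 2) := Real.log_le_log (by linarith) h3
        rw [Real.log_pow] at h4
        exact_mod_cast h4
      have hl0 : 0 ≤ Real.log (m1 D) := by
        apply Real.log_nonneg
        linarith
      calc C₀ * (K : ℝ) ^ 2 * Real.log (m1 D) ≤ C₀ * (50 / (r * c)) * (2 * Real.log (1 / r)) := by
            gcongr
        _ ≤ 200 * C₀ * Real.log (1 / r) / (r * c) := by
            have h12 : C₀ * (50 / (r * c)) * (2 * Real.log (1 / r)) =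
              100 * C₀ * Real.log (1 / r) / (r * c) := by ring
            rw [h12]
            apply div_le_div_of_nonneg_right _ (by positivity)
            have : 0 ≤ C₀ * Real.log (1 / r) := by positivity
            nlinarith
    have hfin : (100 + 200 * C₀) * Real.log (1 / r) / (r * c) =
        100 * Real.log (1 / r) / (r * c) + 200 * C₀ * Real.log (1 / r) / (r * c) := by ring
    rw [hfin]
    linarith

end Pool.Agent.CAPU
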