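import Pool.Agent.Lib.MP_488b8a_co_U.Cnt
import Pool.Agent.Lib.MP_488b8a_co_U.Net

/-! Project CAPU (MP_488b8a_co), module ZonT. -/

namespace Pool.Agent.CAPU

open Complex MeasureTheory

private theorem cc_anti {D : Dat} (h : Zone D) {y y' : ℝ} (h0 : 0 ≤ y) (h1 : y ≤ y') :
    cc D y' ≤ cc D y := by
  have hk := k0_pos h
  rw [cc_eq h, cc_eq h]
  rcases eq_or_lt_of_le h1 with h2 | h2
  · rw [h2]
  · have := (mc_anti h h0 h2).le
    gcongr

private theorem MM_card {D : Dat} (h : Zone D) : ((MM D).card : ℝ) ≤ m1 D := by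
  have hm := h.hm
  have h1 := m1_ge h
  by_cases hne : (MM D).Nonempty
  · -- all members lie in an interval of naturals
    have hsub : MM D ⊆ Finset.Icc 2 ⌊m1 D + 1 / 2⌋₊ := by
      intro M hM
      rw [mem_MM] at hM
      rw [Finset.mem_Icc]
      constructor
      · by_contra hc
        push Not at hc
        have : (M : ℝ) < 2 := by exact_mod_cast hc
        linarith [hM.1]
      · apply Nat.le_floor
        linarith [hM.2]
    have hc := Finset.card_le_card hsub
    rw [Nat.card_Icc] at hc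
    have h2 : ((⌊m1 D + 1 / 2⌋₊ : ℕ) : ℝ) ≤ m1 D + 1 / 2 := Nat.floor_le (by linarith)
    have h3 : 2 ≤ ⌊m1 D + 1 / 2⌋₊ := Nat.le_floor (by push_cast; linarith)
    have h4 : ((MM D).card : ℝ) ≤ ((⌊m1 D + 1 / 2⌋₊ : ℕ) : ℝ) - 1 := by
      have h5 : (MM D).card ≤ ⌊m1 D + 1 / 2⌋₊ - 1 := by omega
      have h6 : (((MM D).card : ℕ) : ℝ) ≤ ((⌊m1 D + 1 / 2⌋₊ - 1 : ℕ) : ℝ) := by exact_mod_cast h5
      rw [Nat.cast_sub (by omega)] at h6
      simpa using h6
    linarith
  · rw [Finset.not_nonempty_iff_eq_empty] at hne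
    rw [hne]
    simp
    linarith

theorem zone_cover : ∃ C : ℝ, 0 < C ∧ ∀ D : Dat, Zone D → ∃ Q : Finset ℂ,
    (∀ Z : ℂ, 0 ≤ Z.re → Z.re ≤ 2 * Real.pi → D.y₁ ≤ Z.im → Z.im ≤ D.y₂ →
      ∃ q ∈ Q, ‖Z - q‖ ≤ D.ρ * Real.cosh Z.im) ∧
    (Q.card : ℝ) ≤ 4 * Real.pi / (3 * Real.sqrt 3) * (Real.tanh D.y₂ - Real.tanh D.y₁) / D.ρ ^ 2 +
      C * D.K ^ 2 * Real.log (m1 D) := by
  classical
  obtain ⟨N, hN⟩ := nets
  refine ⟨10 ^ 9 + N, by positivity, fun D h => ?_⟩
  have hK := K_pos h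
  have hkap := kap_pos h
  have hkl := kap_le h
  have hk0 := k0_pos h
  have hm1 := m1_ge h
  have hlog := log_m1 h
  obtain ⟨v, hfin, hcard⟩ := count_pts h
  have hcMpos : ∀ M ∈ MM D, 0 < cM D M := fun M hM => cM_pos h hM
  have hnet : ∀ (M : ℕ) (j : ℤ), ∃ Q : Finset ℂ, Q.card ≤ N ∧ (M ∈ MM D →
      ∀ Z : ℂ, ‖Z - core D M j‖ ≤ 10 ^ 7 / cM D M → ∃ q ∈ Q, ‖Z - q‖ ≤ 1 / (2 * cM D M)) := by
    intro M j
    by_cases hM : M ∈ MM D
    · obtain ⟨Q, hQ1, hQ2⟩ := hN (cM D M) (core D M j) (hcMpos M hM)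
      exact ⟨Q, hQ1, fun _ => hQ2⟩
    · exact ⟨∅, by simp, fun h' => absurd h' hM⟩
  choose net hnet1 hnet2 using hnet
  set Q1 := hfin.toFinset with hQ1
  set Q2 := (MM D ×ˢ JJ D).biUnion (fun x => net x.1 x.2) with hQ2
  refine ⟨Q1 ∪ Q2, ?_, ?_⟩
  · intro Z hx0 hx1 hy0 hy1
    have hy00 : 0 ≤ Z.im := le_trans h.h0 hy0
    have hW : Z ∈ Win D := by
      refine ⟨?_, ?_, ?_, ?_⟩ <;> linarith
    have hccZ := cc_pos h Z.im
    have hrho : 1 / cc D Z.im = D.ρ * Real.cosh Z.im := by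
      unfold cc
      rw [one_div_one_div]
    by_cases hnear : ∃ M ∈ MM D, ∃ j : ℤ, cM D M * ‖Z - core D M j‖ ≤ 10 ^ 7
    · obtain ⟨M, hM, j, hj⟩ := hnear
      have hc := hcMpos M hM
      have hX : (10 : ℝ) ^ 10 < (M : ℝ) - 1 / 2 := lt_of_le_of_lt h.hm (mem_MM.1 hM).1
      have hd : ‖Z - core D M j‖ ≤ 10 ^ 7 / cM D M := by
        rw [le_div_iff₀ hc]
        linarith
      have hck := cM_kap h M
      have h3 : (1 : ℝ) ≤ Real.sqrt 3 := by
        rw [Real.one_le_sqrt]
        norm_num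
      have hq : 10 ^ 7 / cM D M ≤ kap D / 4 := by
        rw [div_le_iff₀ hc]
        have : kap D / 4 * cM D M = Real.sqrt 3 * ((M : ℝ) - 1 / 2) / 4 := by
          rw [← hck]
          ring
        rw [this]
        nlinarith
      have hd4 : ‖Z - core D M j‖ ≤ kap D / 4 := hd.trans hq
      have hJ : j ∈ JJ D := core_JJ h hW (M := M) (by linarith)
      obtain ⟨q, hq1, hq2⟩ := hnet2 M j hM Z hd
      refine ⟨q, ?_, ?_⟩
      · rw [Finset.mem_union]
        right
        rw [hQ2, Finset.mem_biUnion]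
        exact ⟨(M, j), Finset.mem_product.2 ⟨hM, hJ⟩, hq1⟩
      · rw [← hrho]
        refine hq2.trans ?_
        have := (cM_cc h hM hd4).2
        apply one_div_le_one_div_of_le hccZ
        linarith
    · push Not at hnear
      have hG : Z ∈ Gd D := by
        intro M hM j
        have := hnear M hM j
        linarith
      obtain ⟨q, hq1, hq2⟩ := cover_pts h v hW hG
      refine ⟨q, ?_, ?_⟩
      · rw [Finset.mem_union]
        left
        rw [hQ1, Set.Finite.mem_toFinset]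
        have hcc2 : cc D D.y₂ ≤ cc D Z.im := cc_anti h hy00 hy1
        have hcc2p := cc_pos h D.y₂
        have hle : ‖Z - q‖ ≤ 1 / cc D D.y₂ :=
          hq2.trans (one_div_le_one_div_of_le hcc2p hcc2)
        have hre := (Complex.abs_re_le_norm (Z - q)).trans hle
        have him := (Complex.abs_im_le_norm (Z - q)).trans hle
        rw [abs_le] at hre him
        rw [Complex.sub_re] at hre
        rw [Complex.sub_im] at him
        refine ⟨⟨⟨?_, ?_, ?_, ?_⟩, ?_⟩, hq1⟩
        · linarith [hre.2]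
        · linarith [hre.1]
        · linarith [him.2]
        · linarith [him.1]
        · intro M hM j
          have hc := hcMpos M hM
          have h1 := hnear M hM j
          have h2 : ‖Z - core D M j‖ ≤ ‖Z - q‖ + ‖q - core D M j‖ := by
            have := norm_add_le (Z - q) (q - core D M j)
            simpa using this
          have h3 : cM D M * ‖Z - q‖ ≤ 4 := by
            have h4 : cM D M * ‖Z - q‖ ≤ cM D M * (1 / cc D Z.im) := by gcongr
            refine h4.trans ?_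
            rw [mul_one_div, div_le_iff₀ hccZ, cc_eq h]
            have h5 := (mc_win h (y := Z.im) (by linarith) (by linarith)).1
            have h6 : ((M : ℝ) - 1 / 2) < m1 D := (mem_MM.1 hM).2
            have h7 : cM D M = k0 D * ((M : ℝ) - 1 / 2) := rfl
            rw [h7]
            have : k0 D * ((M : ℝ) - 1 / 2) ≤ k0 D * (4 * mc D Z.im) := by
              apply mul_le_mul_of_nonneg_left _ hk0.le
              linarith
            linarith
          have h8 : cM D M * ‖Z - core D M j‖ ≤ cM D M * ‖Z - q‖ + cM D M * ‖q - core D M j‖ := by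
            rw [← mul_add]
            gcongr
          linarith
      · rw [← hrho]
        exact hq2
  · have h1 : ((Q1 ∪ Q2).card : ℝ) ≤ Q1.card + Q2.card := by exact_mod_cast Finset.card_union_le _ _
    have h2 : (Q1.card : ℝ) = (({Z ∈ Bx D ∩ Gd D | U D Z - v ∈ Lam}.ncard : ℕ) : ℝ) := by
      rw [hQ1, Set.ncard_eq_toFinset_card _ hfin]
    have h3 : (Q2.card : ℝ) ≤ N * D.K ^ 2 * Real.log (m1 D) := by
      have h4 : Q2.card ≤ ∑ x ∈ MM D ×ˢ JJ D, N :=
        Finset.card_biUnion_le.trans (Finset.sum_le_sum fun x _ => hnet1 x.1 x.2)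
      rw [Finset.sum_const, smul_eq_mul, Finset.card_product] at h4
      have h5 : (JJ D).card = D.K + 5 := by
        unfold JJ
        rw [Int.card_Icc]
        omega
      rw [h5] at h4
      have h6 : (Q2.card : ℝ) ≤ ((MM D).card : ℝ) * (D.K + 5) * N := by exact_mod_cast h4
      have h7 := MM_card h
      have h8 := h.hK
      have h9 : (80 : ℝ) ≤ D.K := by linarith
      have hN0 : (0 : ℝ) ≤ N := Nat.cast_nonneg _
      have h10 : ((MM D).card : ℝ) * (D.K + 5) ≤ D.K ^ 2 := by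
        have : ((MM D).card : ℝ) ≤ D.K / 8 := by linarith
        nlinarith
      have h11 : (D.K : ℝ) ^ 2 ≤ D.K ^ 2 * Real.log (m1 D) := by
        have : (0 : ℝ) ≤ (D.K : ℝ) ^ 2 := by positivity
        nlinarith
      calc (Q2.card : ℝ) ≤ ((MM D).card : ℝ) * (D.K + 5) * N := h6
        _ ≤ (D.K ^ 2 * Real.log (m1 D)) * N := by
            apply mul_le_mul_of_nonneg_right (h10.trans h11) hN0
        _ = N * D.K ^ 2 * Real.log (m1 D) := by ring
    rw [h2] at h1
    calc ((Q1 ∪ Q2).card : ℝ) ≤ _ := h1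
      _ ≤ (4 * Real.pi / (3 * Real.sqrt 3) * (Real.tanh D.y₂ - Real.tanh D.y₁) / D.ρ ^ 2 +
          10 ^ 9 * D.K ^ 2 * Real.log (m1 D)) + N * D.K ^ 2 * Real.log (m1 D) := by
            gcongr
      _ = _ := by ring

end Pool.Agent.CAPU
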